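import Pool.Agent.Lib.MP_f25cb6_lc.X.Prog

/-!
# A program for the chained clique problem

There are `4k` machines: `mach j e 0` and `mach j e 1` for the colours `j < k` and the parities
`e < 2`.  The machines `mach j (i % 2) 0` store the name of the vertex of colour `j` chosen in the
part `V_i`, and `mach j e 1` stores the complementary number (the sum is `N - 1`).  Since the states
can only increase by waiting, checking the sum before and after a series of tests guarantees that
the states have not changed during the tests.
-/

namespace Pool.Agent.Lib.MP_f25cb6_lc.X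

/-- the number of a machine -/
def mach (j e f : ℕ) : ℕ := 4 * j + 2 * e + f

/-- all machines of parity `e` choose new states -/
def resets (k e : ℕ) : List Instr :=
  ((List.range k).flatMap fun j => [mach j e 0, mach j e 1]).map reset

/-- all pairs of numbers `< N` with sum `s` -/
def level (N s : ℕ) : List (ℕ × ℕ) :=
  ((List.range N).filter fun x => decide (x ≤ s) && decide (s - x < N)).map fun x => (x, s - x)

/-- the sum of the states of `a` and `a'` is not `s` -/
def checkLevel (N a a' s : ℕ) : List Instr := (level N s).map fun p => ((a, p.1), (a', p.2))

/-- the sum of the states of `a` and `a'` is `N - 1`; the sums are tested in increasing order -/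
def check (N a a' : ℕ) : List Instr :=
  (List.range (2 * N - 1)).flatMap fun s => if s = N - 1 then [] else checkLevel N a a' s

/-- `check` for all pairs of machines -/
def checkAll (N k : ℕ) : List Instr :=
  (List.range k).flatMap fun j =>
    check N (mach j 0 0) (mach j 0 1) ++ check N (mach j 1 0) (mach j 1 1)

/-- Boolean version of `Adj` -/
def adjb (E : List (Vtx × Vtx)) (u v : Vtx) : Bool := decide ((u, v) ∈ E) || decide ((v, u) ∈ E)

/-- all pairs of numbers `< N` -/
def allPairs (N : ℕ) : List (ℕ × ℕ) :=
  (List.range N).flatMap fun x => (List.range N).map fun x' => (x, x')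

/-- The chosen vertices of the part `V_i` are vertices. -/
def testsV (N k : ℕ) (V : List Vtx) (i : ℕ) : List Instr :=
  (List.range k).flatMap fun j =>
    ((List.range N).filter fun z => !decide (((i, j), z) ∈ V)).map fun z =>
      ((mach j (i % 2) 0, z), (mach j (i % 2) 1, N - 1 - z))

/-- The chosen vertices of the part `V_i` are pairwise adjacent. -/
def testsS (N k : ℕ) (E : List (Vtx × Vtx)) (i : ℕ) : List Instr :=
  (List.range k).flatMap fun j => (List.range k).flatMap fun j' =>
    if j = j' then [] else
      ((allPairs N).filter fun x => !adjb E ((i, j), x.1) ((i, j'), x.2)).map fun x =>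
        ((mach j (i % 2) 0, x.1), (mach j' (i % 2) 0, x.2))

/-- The chosen vertices of the part `V_i` are adjacent to those of the part `V_{i-1}`. -/
def testsP (N k : ℕ) (E : List (Vtx × Vtx)) (i : ℕ) : List Instr :=
  if i = 0 then [] else
    (List.range k).flatMap fun j => (List.range k).flatMap fun j' =>
      ((allPairs N).filter fun x => !adjb E ((i, j), x.1) ((i - 1, j'), x.2)).map fun x =>
        ((mach j (i % 2) 0, x.1), (mach j' ((i + 1) % 2) 0, x.2))

/-- all tests for the part `V_i` -/
def tests (N k : ℕ) (V : List Vtx) (E : List (Vtx × Vtx)) (i : ℕ) : List Instr :=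
  testsV N k V i ++ (testsS N k E i ++ testsP N k E i)

/-- the part of the program for the part `V_i` -/
def seg (N k : ℕ) (V : List Vtx) (E : List (Vtx × Vtx)) (i : ℕ) : List Instr :=
  resets k (i % 2) ++ (checkAll N k ++ (tests N k V E i ++ checkAll N k))

/-- the program -/
def prog (N k r : ℕ) (V : List Vtx) (E : List (Vtx × Vtx)) : List Instr :=
  (List.range r).flatMap (seg N k V E)

end Pool.Agent.Lib.MP_f25cb6_lc.X
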