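import Pool.Agent.Lib.MP_f25cb6_lc.X.Chain

/-! # The instructions of the program -/

namespace Pool.Agent.Lib.MP_f25cb6_lc.X

/-- numbers of machines: `mach` is injective for `e, f < 2` -/
theorem mach_inj {j e f j' e' f' : ℕ} (he : e < 2) (hf : f < 2) (he' : e' < 2) (hf' : f' < 2) :
    mach j e f = mach j' e' f' ↔ j = j' ∧ e = e' ∧ f = f' := by
  unfold mach
  omega

theorem mach_lt {k j e f : ℕ} (hj : j < k) (he : e < 2) (hf : f < 2) : mach j e f < 4 * k := by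
  unfold mach
  omega

/-- every machine `< 4k` is a `mach j e f` -/
theorem exists_mach {k c : ℕ} (hc : c < 4 * k) :
    ∃ j < k, ∃ e < 2, ∃ f < 2, c = mach j e f := by
  refine ⟨c / 4, by omega, (c % 4) / 2, by omega, c % 2, by omega, ?_⟩
  unfold mach
  omega

theorem mem_resets {k e : ℕ} {ι : Instr} : ι ∈ resets k e ↔
    ∃ j < k, ι = reset (mach j e 0) ∨ ι = reset (mach j e 1) := by
  unfold resets
  simp only [List.mem_map, List.mem_flatMap, List.mem_range, List.mem_cons, List.not_mem_nil,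
    or_false]
  constructor
  · rintro ⟨a, ⟨j, hj, ha⟩, rfl⟩
    rcases ha with rfl | rfl
    · exact ⟨j, hj, Or.inl rfl⟩
    · exact ⟨j, hj, Or.inr rfl⟩
  · rintro ⟨j, hj, rfl | rfl⟩
    · exact ⟨_, ⟨j, hj, Or.inl rfl⟩, rfl⟩
    · exact ⟨_, ⟨j, hj, Or.inr rfl⟩, rfl⟩

theorem mem_checkLevel {N a a' s : ℕ} {ι : Instr} : ι ∈ checkLevel N a a' s ↔
    ∃ x < N, ∃ y < N, x + y = s ∧ ι = ((a, x), (a', y)) := by
  unfold checkLevel level
  simp only [List.mem_map, List.mem_filter, List.mem_range, Bool.and_eq_true, decide_eq_true_eq]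
  constructor
  · rintro ⟨p, ⟨x, ⟨hx, h1, h2⟩, rfl⟩, rfl⟩
    exact ⟨x, hx, s - x, h2, by omega, rfl⟩
  · rintro ⟨x, hx, y, hy, rfl, rfl⟩
    exact ⟨(x, y), ⟨x, ⟨hx, by omega, by omega⟩, by simp⟩, rfl⟩

theorem mem_check {N a a' : ℕ} (hN : 0 < N) {ι : Instr} : ι ∈ check N a a' ↔
    ∃ x < N, ∃ y < N, x + y ≠ N - 1 ∧ ι = ((a, x), (a', y)) := by
  unfold check
  simp only [List.mem_flatMap, List.mem_range]
  constructor
  · rintro ⟨s, hs, h⟩
    split_ifs at h with h1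
    · simp at h
    · obtain ⟨x, hx, y, hy, hxy, rfl⟩ := mem_checkLevel.1 h
      exact ⟨x, hx, y, hy, by omega, rfl⟩
  · rintro ⟨x, hx, y, hy, hxy, rfl⟩
    refine ⟨x + y, by omega, ?_⟩
    rw [if_neg hxy]
    exact mem_checkLevel.2 ⟨x, hx, y, hy, rfl, rfl⟩

theorem mem_checkAll {N k : ℕ} (hN : 0 < N) {ι : Instr} : ι ∈ checkAll N k ↔
    ∃ j < k, ∃ e < 2, ∃ x < N, ∃ y < N, x + y ≠ N - 1 ∧
      ι = ((mach j e 0, x), (mach j e 1, y)) := by
  unfold checkAll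
  simp only [List.mem_flatMap, List.mem_range, List.mem_append, mem_check hN]
  constructor
  · rintro ⟨j, hj, h | h⟩
    · exact ⟨j, hj, 0, by norm_num, h⟩
    · exact ⟨j, hj, 1, by norm_num, h⟩
  · rintro ⟨j, hj, e, he, h⟩
    refine ⟨j, hj, ?_⟩
    have : e = 0 ∨ e = 1 := by omega
    rcases this with rfl | rfl
    · exact Or.inl h
    · exact Or.inr h

theorem adjb_iff {E : List (Vtx × Vtx)} {u v : Vtx} : adjb E u v = true ↔ Adj E u v := by
  unfold adjb Adj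
  simp

private lemma mem_allPairs {N : ℕ} {p : ℕ × ℕ} : p ∈ allPairs N ↔ p.1 < N ∧ p.2 < N := by
  unfold allPairs
  simp only [List.mem_flatMap, List.mem_range, List.mem_map]
  constructor
  · rintro ⟨x, hx, y, hy, rfl⟩
    exact ⟨hx, hy⟩
  · rintro ⟨h1, h2⟩
    exact ⟨p.1, h1, p.2, h2, rfl⟩

private lemma adjb_false {E : List (Vtx × Vtx)} {u v : Vtx} :
    (!adjb E u v) = true ↔ ¬ Adj E u v := by
  rw [← adjb_iff]
  simp

private lemma mem_testsV {N k : ℕ} {V : List Vtx} {i : ℕ} {ι : Instr} :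
    ι ∈ testsV N k V i ↔ ∃ j < k, ∃ z < N, ((i, j), z) ∉ V ∧
        ι = ((mach j (i % 2) 0, z), (mach j (i % 2) 1, N - 1 - z)) := by
  unfold testsV
  simp only [List.mem_flatMap, List.mem_range, List.mem_map, List.mem_filter,
    Bool.not_eq_true', decide_eq_false_iff_not]
  constructor
  · rintro ⟨j, hj, z, ⟨hz, hV⟩, rfl⟩
    exact ⟨j, hj, z, hz, hV, rfl⟩
  · rintro ⟨j, hj, z, hz, hV, rfl⟩
    exact ⟨j, hj, z, ⟨hz, hV⟩, rfl⟩

private lemma mem_testsS {N k : ℕ} {E : List (Vtx × Vtx)} {i : ℕ} {ι : Instr} :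
    ι ∈ testsS N k E i ↔
      ∃ j < k, ∃ j' < k, j ≠ j' ∧ ∃ x < N, ∃ y < N, ¬ Adj E ((i, j), x) ((i, j'), y) ∧
        ι = ((mach j (i % 2) 0, x), (mach j' (i % 2) 0, y)) := by
  unfold testsS
  simp only [List.mem_flatMap, List.mem_range]
  constructor
  · rintro ⟨j, hj, j', hj', h⟩
    split_ifs at h with h1
    · simp at h
    · simp only [List.mem_map, List.mem_filter, mem_allPairs, adjb_false] at h
      obtain ⟨p, ⟨⟨hp1, hp2⟩, hp3⟩, rfl⟩ := h
      exact ⟨j, hj, j', hj', h1, p.1, hp1, p.2, hp2, hp3, rfl⟩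
  · rintro ⟨j, hj, j', hj', h1, x, hx, y, hy, hA, rfl⟩
    refine ⟨j, hj, j', hj', ?_⟩
    rw [if_neg h1]
    simp only [List.mem_map, List.mem_filter, mem_allPairs, adjb_false]
    exact ⟨(x, y), ⟨⟨hx, hy⟩, hA⟩, rfl⟩

private lemma mem_testsP {N k : ℕ} {E : List (Vtx × Vtx)} {i : ℕ} {ι : Instr} :
    ι ∈ testsP N k E i ↔
      (i ≠ 0 ∧ ∃ j < k, ∃ j' < k, ∃ x < N, ∃ y < N, ¬ Adj E ((i, j), x) ((i - 1, j'), y) ∧
        ι = ((mach j (i % 2) 0, x), (mach j' ((i + 1) % 2) 0, y))) := by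
  unfold testsP
  split_ifs with h0
  · constructor
    · intro h
      simp at h
    · rintro ⟨h, -⟩
      exact absurd h0 h
  · simp only [List.mem_flatMap, List.mem_range, List.mem_map, List.mem_filter, mem_allPairs,
      adjb_false]
    constructor
    · rintro ⟨j, hj, j', hj', p, ⟨⟨hp1, hp2⟩, hp3⟩, rfl⟩
      exact ⟨h0, j, hj, j', hj', p.1, hp1, p.2, hp2, hp3, rfl⟩
    · rintro ⟨-, j, hj, j', hj', x, hx, y, hy, hA, rfl⟩
      exact ⟨j, hj, j', hj', (x, y), ⟨⟨hx, hy⟩, hA⟩, rfl⟩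

theorem mem_tests {N k : ℕ} {V : List Vtx} {E : List (Vtx × Vtx)} {i : ℕ} {ι : Instr} :
    ι ∈ tests N k V E i ↔
      (∃ j < k, ∃ z < N, ((i, j), z) ∉ V ∧
        ι = ((mach j (i % 2) 0, z), (mach j (i % 2) 1, N - 1 - z))) ∨
      (∃ j < k, ∃ j' < k, j ≠ j' ∧ ∃ x < N, ∃ y < N, ¬ Adj E ((i, j), x) ((i, j'), y) ∧
        ι = ((mach j (i % 2) 0, x), (mach j' (i % 2) 0, y))) ∨
      (i ≠ 0 ∧ ∃ j < k, ∃ j' < k, ∃ x < N, ∃ y < N, ¬ Adj E ((i, j), x) ((i - 1, j'), y) ∧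
        ι = ((mach j (i % 2) 0, x), (mach j' ((i + 1) % 2) 0, y))) := by
  unfold tests
  rw [List.mem_append, List.mem_append, mem_testsV, mem_testsS, mem_testsP]

/-- all instructions are well formed -/
theorem wf_prog {N k r : ℕ} (hN : 0 < N) {V : List Vtx} {E : List (Vtx × Vtx)} :
    ∀ ι ∈ prog N k r V E, Wf N (4 * k) ι := by
  intro ι h
  unfold prog at h
  rw [List.mem_flatMap] at h
  obtain ⟨i, -, h⟩ := h
  unfold seg at h
  have hchk : ι ∈ checkAll N k → Wf N (4 * k) ι := by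
    intro h
    obtain ⟨j, hj, e, he, x, hx, y, hy, -, rfl⟩ := (mem_checkAll hN).1 h
    exact ⟨mach_lt hj he (by norm_num), mach_lt hj he (by norm_num), hx, hy⟩
  rw [List.mem_append, List.mem_append, List.mem_append] at h
  have hi : i % 2 < 2 := Nat.mod_lt _ (by norm_num)
  have hi' : (i + 1) % 2 < 2 := Nat.mod_lt _ (by norm_num)
  rcases h with h | h | h | h
  · obtain ⟨j, hj, rfl | rfl⟩ := mem_resets.1 h
    · exact ⟨mach_lt hj hi (by norm_num), mach_lt hj hi (by norm_num), hN, hN⟩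
    · exact ⟨mach_lt hj hi (by norm_num), mach_lt hj hi (by norm_num), hN, hN⟩
  · exact hchk h
  · rcases mem_tests.1 h with ⟨j, hj, z, hz, -, rfl⟩ | ⟨j, hj, j', hj', -, x, hx, y, hy, -, rfl⟩ |
      ⟨-, j, hj, j', hj', x, hx, y, hy, -, rfl⟩
    · exact ⟨mach_lt hj hi (by norm_num), mach_lt hj hi (by norm_num), hz,
        by change N - 1 - z < N; omega⟩
    · exact ⟨mach_lt hj hi (by norm_num), mach_lt hj' hi (by norm_num), hx, hy⟩
    · exact ⟨mach_lt hj hi (by norm_num), mach_lt hj' hi' (by norm_num), hx, hy⟩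
  · exact hchk h

/-- the machines of the conditions of the tests are different; nothing is reset -/
theorem not_rs_tests {N k : ℕ} {V : List Vtx} {E : List (Vtx × Vtx)} {i : ℕ} {ι : Instr}
    (h : ι ∈ tests N k V E i) (c : ℕ) : ¬ Rs ι c := by
  have hi : i % 2 < 2 := Nat.mod_lt _ (by norm_num)
  have hi' : (i + 1) % 2 < 2 := Nat.mod_lt _ (by norm_num)
  rintro ⟨hr, -⟩
  rcases mem_tests.1 h with ⟨j, hj, z, hz, -, rfl⟩ | ⟨j, hj, j', hj', hjj, x, hx, y, hy, -, rfl⟩ |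
      ⟨-, j, hj, j', hj', x, hx, y, hy, -, rfl⟩
  · have := ((mach_inj hi (by norm_num) hi (by norm_num)).1 hr).2.2
    omega
  · exact hjj ((mach_inj hi (by norm_num) hi (by norm_num)).1 hr).1
  · have := ((mach_inj hi (by norm_num) hi' (by norm_num)).1 hr).2.1
    omega

theorem not_rs_checkAll {N k : ℕ} {ι : Instr} (h : ι ∈ checkAll N k) (c : ℕ) : ¬ Rs ι c := by
  rintro ⟨hr, -⟩
  unfold checkAll at h
  simp only [List.mem_flatMap, List.mem_range, List.mem_append] at h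
  have key : ∀ a a' : ℕ, ι ∈ check N a a' → ι.1.1 = a ∧ ι.2.1 = a' := by
    intro a a' h
    unfold check at h
    simp only [List.mem_flatMap, List.mem_range] at h
    obtain ⟨s, -, h⟩ := h
    split_ifs at h with h1
    · simp at h
    · obtain ⟨x, -, y, -, -, rfl⟩ := mem_checkLevel.1 h
      exact ⟨rfl, rfl⟩
  obtain ⟨j, -, h | h⟩ := h
  · obtain ⟨h1, h2⟩ := key _ _ h
    rw [h1, h2] at hr
    have := ((mach_inj (by norm_num) (by norm_num) (by norm_num) (by norm_num)).1 hr).2.2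
    omega
  · obtain ⟨h1, h2⟩ := key _ _ h
    rw [h1, h2] at hr
    have := ((mach_inj (by norm_num) (by norm_num) (by norm_num) (by norm_num)).1 hr).2.2
    omega

/-- only machines of parity `e` are reset in `resets k e` -/
theorem not_rs_resets {k e e' j f : ℕ} {ι : Instr} (h : ι ∈ resets k e) (he : e < 2)
    (he' : e' < 2) (hf : f < 2) (hee : e ≠ e') : ¬ Rs ι (mach j e' f) := by
  rintro ⟨-, hc⟩
  obtain ⟨j', -, rfl | rfl⟩ := mem_resets.1 h
  · exact hee ((mach_inj he' hf he (by norm_num)).1 hc).2.1.symm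
  · exact hee ((mach_inj he' hf he (by norm_num)).1 hc).2.1.symm

end Pool.Agent.Lib.MP_f25cb6_lc.X
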