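import Pool.Agent.Lib.MP_f25cb6_lc.X.RunLemmas
import Pool.Agent.Lib.MP_f25cb6_lc.X.ChainWf

/-! # A chained clique gives a run of the program -/

namespace Pool.Agent.Lib.MP_f25cb6_lc.X

/-- The state of the machine `c` before the part `i` of the program, for the chained clique `x`:
a machine of parity `e` stores the vertex of the last part `i' < i` with `i' % 2 = e`, and `0` if
there is none; the second machine of each pair stores `N - 1` minus that number. -/
def stateOf (N : ℕ) (x : ℕ → ℕ → ℕ) (i c : ℕ) : ℕ :=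
  let j := c / 4
  let e := (c / 2) % 2
  let s := if (i + 1) % 2 = e then i + 1 else i
  let w := if s < 2 then 0 else x (s - 2) j
  if c % 2 = 0 then w else N - 1 - w

private theorem ChainComplete_val (N : ℕ) (x : ℕ → ℕ → ℕ) (i : ℕ) {j e f : ℕ} (he : e < 2)
    (hf : f < 2) :
    stateOf N x i (mach j e f) =
      if f = 0 then
        (if (if (i + 1) % 2 = e then i + 1 else i) < 2 then 0 else
          x ((if (i + 1) % 2 = e then i + 1 else i) - 2) j)
      else N - 1 - (if (if (i + 1) % 2 = e then i + 1 else i) < 2 then 0 else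
          x ((if (i + 1) % 2 = e then i + 1 else i) - 2) j) := by
  have h1 : (4 * j + 2 * e + f) / 4 = j := by omega
  have h2 : ((4 * j + 2 * e + f) / 2) % 2 = e := by omega
  have h3 : (4 * j + 2 * e + f) % 2 = f := by omega
  unfold stateOf mach
  simp only [h1, h2, h3]

theorem stateOf_same (N : ℕ) (x : ℕ → ℕ → ℕ) (i j : ℕ) :
    stateOf N x (i + 1) (mach j (i % 2) 0) = x i j ∧
    stateOf N x (i + 1) (mach j (i % 2) 1) = N - 1 - x i j := by
  have he : i % 2 < 2 := Nat.mod_lt _ (by norm_num)
  have h1 : (i + 1 + 1) % 2 = i % 2 := by omega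
  constructor
  · rw [ChainComplete_val N x (i + 1) he (by norm_num), if_pos rfl, if_pos h1, if_neg (by omega)]
    rfl
  · rw [ChainComplete_val N x (i + 1) he (by norm_num), if_neg (by norm_num), if_pos h1,
      if_neg (by omega)]
    rfl

theorem stateOf_prev (N : ℕ) (x : ℕ → ℕ → ℕ) (i j : ℕ) :
    stateOf N x (i + 2) (mach j (i % 2) 0) = x i j := by
  have he : i % 2 < 2 := Nat.mod_lt _ (by norm_num)
  have h1 : ¬ (i + 2 + 1) % 2 = i % 2 := by omega
  rw [ChainComplete_val N x (i + 2) he (by norm_num), if_pos rfl, if_neg h1, if_neg (by omega)]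
  rfl

/-- only the machines of parity `i % 2` change their state in the part `i` -/
theorem stateOf_succ (N : ℕ) (x : ℕ → ℕ → ℕ) (i : ℕ) {j e f : ℕ} (he : e < 2) (hf : f < 2)
    (hei : e ≠ i % 2) : stateOf N x (i + 1) (mach j e f) = stateOf N x i (mach j e f) := by
  have h1 : ¬ (i + 1 + 1) % 2 = e := by omega
  have h2 : (i + 1) % 2 = e := by omega
  rw [ChainComplete_val N x (i + 1) he hf, ChainComplete_val N x i he hf, if_neg h1, if_pos h2]

/-- the sum of the states of each pair is `N - 1`, if all `x i j < N` -/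
theorem stateOf_sum {N k r : ℕ} (hN : 0 < N) {x : ℕ → ℕ → ℕ}
    (hx : ∀ i < r, ∀ j < k, x i j < N) {i : ℕ} (hi : i ≤ r) {j e : ℕ} (hj : j < k) (he : e < 2) :
    stateOf N x i (mach j e 0) < N ∧ stateOf N x i (mach j e 1) < N ∧
    stateOf N x i (mach j e 0) + stateOf N x i (mach j e 1) = N - 1 := by
  rw [ChainComplete_val N x i he (show 0 < 2 by norm_num),
    ChainComplete_val N x i he (show 1 < 2 by norm_num),
    if_pos rfl, if_neg (show ¬ (1 : ℕ) = 0 by norm_num)]
  have hw : (if (if (i + 1) % 2 = e then i + 1 else i) < 2 then 0 else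
      x ((if (i + 1) % 2 = e then i + 1 else i) - 2) j) < N := by
    by_cases h1 : (i + 1) % 2 = e
    · rw [if_pos h1]
      by_cases h2 : i + 1 < 2
      · rw [if_pos h2]
        exact hN
      · rw [if_neg h2]
        exact hx _ (by omega) _ hj
    · rw [if_neg h1]
      by_cases h2 : i < 2
      · rw [if_pos h2]
        exact hN
      · rw [if_neg h2]
        exact hx _ (by omega) _ hj
  generalize (if (if (i + 1) % 2 = e then i + 1 else i) < 2 then 0 else
      x ((if (i + 1) % 2 = e then i + 1 else i) - 2) j) = w at hw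
  omega

/-- **Completeness of the program.**

Proof.  `run_flatMap` with `Q i = stateOf N x i`.  In the part `i`: `run_resets` from `stateOf N x i`
to `stateOf N x (i + 1)` (the values for `c ≥ 4k` must not change, so use instead the functions
`fun c => if c < 4 * k then stateOf N x i c else 0`), and `run_const` for the rest: the conditions of
`checkAll` hold by `stateOf_sum`, those of the tests by the properties of `x`, with
`stateOf_same`, and `stateOf_prev` for `i - 1`. -/
theorem prog_complete {N k r : ℕ} (hN : 0 < N) {V : List Vtx} {E : List (Vtx × Vtx)}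
    (hV : ∀ u ∈ V, u.2 < N) {x : ℕ → ℕ → ℕ} (hx : IsChainedClique k r V E x) :
    ∃ q q' : ℕ → ℕ, (∀ c < 4 * k, q c < N) ∧ Run (XStep N (4 * k)) (prog N k r V E) q q' := by
  classical
  have hxN : ∀ i < r, ∀ j < k, x i j < N := fun i hi j hj => hV _ (hx.1 i hi j hj)
  set Q : ℕ → ℕ → ℕ := fun i c => if c < 4 * k then stateOf N x i c else 0 with hQ
  have hQm : ∀ i j e f, j < k → e < 2 → f < 2 → Q i (mach j e f) = stateOf N x i (mach j e f) := by
    intro i j e f hj he hf
    simp only [hQ]
    rw [if_pos (mach_lt hj he hf)]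
  have hQN : ∀ i ≤ r, ∀ c < 4 * k, Q i c < N := by
    intro i hi c hc
    obtain ⟨j, hj, e, he, f, hf, rfl⟩ := exists_mach hc
    rw [hQm i j e f hj he hf]
    have h := stateOf_sum hN hxN hi hj he
    have hf' : f = 0 ∨ f = 1 := by omega
    rcases hf' with rfl | rfl
    · exact h.1
    · exact h.2.1
  refine ⟨Q 0, Q r, hQN 0 (Nat.zero_le _), ?_⟩
  unfold prog
  rw [run_flatMap]
  refine ⟨Q, rfl, rfl, fun i hi => ?_⟩
  unfold seg
  rw [run_append]
  have hQi1 := hQN (i + 1) hi
  have hcheck : Run (XStep N (4 * k)) (checkAll N k) (Q (i + 1)) (Q (i + 1)) := by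
    apply run_const _ _ hQi1
    intro ι hι
    rw [mem_checkAll hN] at hι
    obtain ⟨j, hj, e, he, a, _, b, _, hab, rfl⟩ := hι
    rintro ⟨h1, h2⟩
    simp only at h1 h2
    rw [hQm (i + 1) j e 0 hj he (by norm_num)] at h1
    rw [hQm (i + 1) j e 1 hj he (by norm_num)] at h2
    have h := stateOf_sum hN hxN (i := i + 1) hi hj he
    omega
  refine ⟨Q (i + 1), ?_, ?_⟩
  · unfold resets
    apply run_resets _ _ _ (hQN i hi.le) hQi1
    intro c hc
    by_cases hck : c < 4 * k
    · obtain ⟨j, hj, e, he, f, hf, rfl⟩ := exists_mach hck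
      rw [hQm (i + 1) j e f hj he hf, hQm i j e f hj he hf]
      apply stateOf_succ N x i he hf
      rintro rfl
      apply hc
      rw [List.mem_flatMap]
      refine ⟨j, List.mem_range.2 hj, ?_⟩
      have hf' : f = 0 ∨ f = 1 := by omega
      rcases hf' with rfl | rfl <;> simp
    · simp only [hQ]
      rw [if_neg hck, if_neg hck]
  · rw [run_append]
    refine ⟨Q (i + 1), hcheck, ?_⟩
    rw [run_append]
    refine ⟨Q (i + 1), ?_, hcheck⟩
    apply run_const _ _ hQi1
    intro ι hι
    have hi2 : i % 2 < 2 := Nat.mod_lt _ (by norm_num)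
    rw [mem_tests] at hι
    rcases hι with ⟨j, hj, z, _, hz, rfl⟩ | ⟨j, hj, j', hj', hjj, a, _, b, _, hab, rfl⟩ |
      ⟨hi0, j, hj, j', hj', a, _, b, _, hab, rfl⟩
    · rintro ⟨h1, -⟩
      simp only at h1
      rw [hQm (i + 1) j (i % 2) 0 hj hi2 (by norm_num), (stateOf_same N x i j).1] at h1
      apply hz
      rw [← h1]
      exact hx.1 i hi j hj
    · rintro ⟨h1, h2⟩
      simp only at h1 h2
      rw [hQm (i + 1) j (i % 2) 0 hj hi2 (by norm_num), (stateOf_same N x i j).1] at h1
      rw [hQm (i + 1) j' (i % 2) 0 hj' hi2 (by norm_num), (stateOf_same N x i j').1] at h2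
      apply hab
      rw [← h1, ← h2]
      refine hx.2 i hi j hj i hi j' hj' ?_ (by omega) (by omega)
      intro h
      exact hjj (Prod.mk.inj h).2
    · rintro ⟨h1, h2⟩
      simp only at h1 h2
      obtain ⟨i', rfl⟩ : ∃ i', i = i' + 1 := ⟨i - 1, by omega⟩
      have hpar : (i' + 1 + 1) % 2 = i' % 2 := by omega
      have hi2' : i' % 2 < 2 := Nat.mod_lt _ (by norm_num)
      rw [hQm (i' + 1 + 1) j _ 0 hj hi2 (by norm_num), (stateOf_same N x (i' + 1) j).1] at h1
      rw [hpar, hQm (i' + 1 + 1) j' _ 0 hj' hi2' (by norm_num), stateOf_prev N x i' j'] at h2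
      apply hab
      rw [← h1, ← h2]
      have hsub : i' + 1 - 1 = i' := by omega
      rw [hsub]
      refine hx.2 (i' + 1) hi j hj i' (by omega) j' hj' ?_ (by omega) (by omega)
      intro h
      have := (Prod.mk.inj h).1
      omega

end Pool.Agent.Lib.MP_f25cb6_lc.X
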