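import Pool.Agent.Lib.MP_f25cb6_lc.X.CheckSum

/-! # A run of the program gives a chained clique -/

namespace Pool.Agent.Lib.MP_f25cb6_lc.X

/-- The states `y` at the beginning of the tests of the part `i` and `z` at their end. -/
theorem exists_yz {N k r : ℕ} (hN : 0 < N) {V : List Vtx} {E : List (Vtx × Vtx)} {q q' : ℕ → ℕ}
    (hq : ∀ c < 4 * k, q c < N) (h : Run (LStep N (4 * k)) (prog N k r V E) q q') :
    ∃ y z : ℕ → ℕ → ℕ, ∀ i < r,
      (∀ c < 4 * k, y i c < N) ∧
      Run (LStep N (4 * k)) (tests N k V E i) (y i) (z i) ∧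
      (∀ j < k, ∀ e < 2, N - 1 ≤ y i (mach j e 0) + y i (mach j e 1)) ∧
      (∀ j < k, ∀ e < 2, z i (mach j e 0) + z i (mach j e 1) ≤ N - 1) ∧
      (i + 1 < r → ∀ j < k, ∀ f < 2, z i (mach j (i % 2) f) ≤ y (i + 1) (mach j (i % 2) f)) := by
  obtain ⟨Q, hQ0, -, hQ⟩ := (run_flatMap _ r q q').1 h
  have hQN : ∀ i ≤ r, ∀ c < 4 * k, Q i c < N := by
    intro i
    induction i with
    | zero =>
      intro _
      rw [hQ0]
      exact hq
    | succ i ih =>
      intro hi
      exact run_lt (hQ i (by omega)) (ih (by omega))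
  have hex : ∀ i < r, ∃ p y z : ℕ → ℕ, Run (LStep N (4 * k)) (resets k (i % 2)) (Q i) p ∧
      Run (LStep N (4 * k)) (checkAll N k) p y ∧
      Run (LStep N (4 * k)) (tests N k V E i) y z ∧
      Run (LStep N (4 * k)) (checkAll N k) z (Q (i + 1)) := by
    intro i hi
    have h1 := hQ i hi
    unfold seg at h1
    obtain ⟨p, h2, h3⟩ := (run_append _ _ _ _).1 h1
    obtain ⟨y, h4, h5⟩ := (run_append _ _ _ _).1 h3
    obtain ⟨z, h6, h7⟩ := (run_append _ _ _ _).1 h5
    exact ⟨p, y, z, h2, h4, h6, h7⟩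
  choose! p y z h1 h2 h3 h4 using hex
  have hpN : ∀ i < r, ∀ c < 4 * k, p i c < N := fun i hi => run_lt (h1 i hi) (hQN i hi.le)
  have hyN : ∀ i < r, ∀ c < 4 * k, y i c < N := fun i hi => run_lt (h2 i hi) (hpN i hi)
  have hzN : ∀ i < r, ∀ c < 4 * k, z i c < N := fun i hi => run_lt (h3 i hi) (hyN i hi)
  refine ⟨y, z, fun i hi => ⟨hyN i hi, h3 i hi, ?_, ?_, ?_⟩⟩
  · intro j hj e he
    exact (run_checkAll hN (hpN i hi) (h2 i hi) hj he).2
  · intro j hj e he
    exact (run_checkAll hN (hzN i hi) (h4 i hi) hj he).1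
  · intro hi' j hj f hf
    have hp : i % 2 < 2 := Nat.mod_lt _ (by norm_num)
    have hp' : (i + 1) % 2 < 2 := Nat.mod_lt _ (by norm_num)
    have hc : mach j (i % 2) f < 4 * k := mach_lt hj hp hf
    have e1 := run_le (h4 i hi) hc fun ι hι => not_rs_checkAll hι _
    have e2 := run_le (h1 (i + 1) hi') hc fun ι hι =>
      not_rs_resets hι hp' hp hf (by omega)
    have e3 := run_le (h2 (i + 1) hi') hc fun ι hι => not_rs_checkAll hι _
    exact (e1.trans e2).trans e3

/-- **Soundness of the program.**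

Proof.  Take `y`, `z` from `exists_yz`.  By `run_le` (the tests do not reset anything),
`y i c ≤ z i c`, and by the bounds for the sums `y i c = z i c` for all `c < 4k`, and the sums are
exactly `N - 1`.  Similarly `z i c = y (i+1) c` for the machines of parity `i % 2` (the sums of both
are `N - 1`).  Let `x i j = y i (mach j (i % 2) 0)`.  All conditions in `tests N k V E i` hold in the
state `y i` by `run_tested`: so `((i, j), x i j) ∈ V` (note
`y i (mach j (i % 2) 1) = N - 1 - x i j`), the chosen vertices of `V_i` are pairwise adjacent, and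
for `i + 1 < r` the tests of `i + 1` give the adjacency of `((i+1, j), x (i+1) j)` and
`((i, j'), y (i+1) (mach j' (i % 2) 0)) = ((i, j'), x i j')`; note `(i + 1 + 1) % 2 = i % 2`. -/
theorem prog_sound {N k r : ℕ} (hN : 0 < N) {V : List Vtx} {E : List (Vtx × Vtx)} {q q' : ℕ → ℕ}
    (hq : ∀ c < 4 * k, q c < N) (h : Run (LStep N (4 * k)) (prog N k r V E) q q') :
    ∃ x : ℕ → ℕ → ℕ, IsChainedClique k r V E x := by
  obtain ⟨y, z, hyz⟩ := exists_yz hN hq h
  have hle : ∀ i < r, ∀ c < 4 * k, y i c ≤ z i c := fun i hi c hc =>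
    run_le (hyz i hi).2.1 hc fun ι hι => not_rs_tests hι c
  have hpair : ∀ i < r, ∀ j < k, ∀ e < 2, y i (mach j e 0) = z i (mach j e 0) ∧
      y i (mach j e 1) = z i (mach j e 1) ∧ y i (mach j e 0) + y i (mach j e 1) = N - 1 := by
    intro i hi j hj e he
    obtain ⟨-, -, g3, g4, -⟩ := hyz i hi
    have e1 := hle i hi _ (mach_lt hj he (by norm_num : 0 < 2))
    have e2 := hle i hi _ (mach_lt hj he (by norm_num : 1 < 2))
    have e3 := g3 j hj e he
    have e4 := g4 j hj e he
    omega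
  have heq : ∀ i < r, ∀ j < k, ∀ e < 2, y i (mach j e 0) = z i (mach j e 0) :=
    fun i hi j hj e he => (hpair i hi j hj e he).1
  have heq1 : ∀ i < r, ∀ j < k, ∀ e < 2, y i (mach j e 1) = z i (mach j e 1) :=
    fun i hi j hj e he => (hpair i hi j hj e he).2.1
  have hnext : ∀ i, i + 1 < r → ∀ j < k, y (i + 1) (mach j (i % 2) 0) = y i (mach j (i % 2) 0) := by
    intro i hi j hj
    have hp : i % 2 < 2 := Nat.mod_lt _ (by norm_num)
    obtain ⟨-, -, -, -, g5⟩ := hyz i (by omega)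
    have e1 := g5 hi j hj 0 (by norm_num)
    have e2 := g5 hi j hj 1 (by norm_num)
    have e3 := hpair i (by omega) j hj _ hp
    have e4 := hpair (i + 1) hi j hj _ hp
    omega
  have hmod : ∀ i, i % 2 < 2 := fun i => Nat.mod_lt _ (by norm_num)
  have hadj : ∀ i < r, ∀ j < k, ∀ j' < k, j ≠ j' →
      Adj E ((i, j), y i (mach j (i % 2) 0)) ((i, j'), y i (mach j' (i % 2) 0)) := by
    intro i hi j hj j' hj' hjj
    by_contra hA
    obtain ⟨g1, g2, -, -, -⟩ := hyz i hi
    have hc := mach_lt hj (hmod i) (by norm_num : 0 < 2)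
    have hc' := mach_lt hj' (hmod i) (by norm_num : 0 < 2)
    refine run_tested g2 hc hc' ?_ (fun ι hι => not_rs_tests hι _)
      (fun ι hι => not_rs_tests hι _) (heq i hi j hj _ (hmod i)) (heq i hi j' hj' _ (hmod i))
      (u := y i (mach j (i % 2) 0)) (v := y i (mach j' (i % 2) 0)) ?_ ⟨rfl, rfl⟩
    · intro e
      exact hjj ((mach_inj (hmod i) (by norm_num) (hmod i) (by norm_num)).1 e).1
    · exact mem_tests.2 (Or.inr (Or.inl ⟨j, hj, j', hj', hjj, _, g1 _ hc, _, g1 _ hc', hA, rfl⟩))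
  have hadj2 : ∀ i, i + 1 < r → ∀ j < k, ∀ j' < k,
      Adj E ((i + 1, j), y (i + 1) (mach j ((i + 1) % 2) 0)) ((i, j'), y i (mach j' (i % 2) 0)) := by
    intro i hi j hj j' hj'
    by_contra hA
    obtain ⟨g1, g2, -, -, -⟩ := hyz (i + 1) hi
    have hm : (i + 1 + 1) % 2 = i % 2 := by omega
    have hc := mach_lt hj (hmod (i + 1)) (by norm_num : 0 < 2)
    have hc' := mach_lt hj' (hmod i) (by norm_num : 0 < 2)
    refine run_tested g2 hc hc' ?_ (fun ι hι => not_rs_tests hι _)
      (fun ι hι => not_rs_tests hι _) (heq (i + 1) hi j hj _ (hmod (i + 1)))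
      (heq (i + 1) hi j' hj' _ (hmod i))
      (u := y (i + 1) (mach j ((i + 1) % 2) 0)) (v := y i (mach j' (i % 2) 0)) ?_
      ⟨rfl, hnext i hi j' hj'⟩
    · intro e
      have := ((mach_inj (hmod (i + 1)) (by norm_num) (hmod i) (by norm_num)).1 e).2.1
      omega
    · refine mem_tests.2 (Or.inr (Or.inr ⟨Nat.succ_ne_zero i, j, hj, j', hj', _, g1 _ hc,
        y i (mach j' (i % 2) 0), ?_, ?_, ?_⟩))
      · rw [← hnext i hi j' hj']
        exact g1 _ hc'
      · rw [Nat.add_sub_cancel]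
        exact hA
      · rw [hm]
  refine ⟨fun i j => y i (mach j (i % 2) 0), ?_, ?_⟩
  · intro i hi j hj
    by_contra hV
    obtain ⟨g1, g2, -, -, -⟩ := hyz i hi
    have hc := mach_lt hj (hmod i) (by norm_num : 0 < 2)
    have hc' := mach_lt hj (hmod i) (by norm_num : 1 < 2)
    have hs := (hpair i hi j hj _ (hmod i)).2.2
    refine run_tested g2 hc hc' ?_ (fun ι hι => not_rs_tests hι _)
      (fun ι hι => not_rs_tests hι _) (heq i hi j hj _ (hmod i)) (heq1 i hi j hj _ (hmod i))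
      (u := y i (mach j (i % 2) 0)) (v := N - 1 - y i (mach j (i % 2) 0)) ?_ ⟨rfl, by omega⟩
    · intro e
      have := ((mach_inj (hmod i) (by norm_num) (hmod i) (by norm_num)).1 e).2.2
      omega
    · exact mem_tests.2 (Or.inl ⟨j, hj, _, g1 _ hc, hV, rfl⟩)
  · intro i hi j hj i' hi' j' hj' hne h1 h2
    have hcases : i = i' ∨ i = i' + 1 ∨ i' = i + 1 := by omega
    rcases hcases with rfl | rfl | rfl
    · exact hadj i hi j hj j' hj' fun e => hne (by rw [e])
    · exact hadj2 i' hi j hj j' hj'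
    · exact (hadj2 i hi' j' hj' j hj).symm

end Pool.Agent.Lib.MP_f25cb6_lc.X
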