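import Pool.Agent.Lib.MP_f25cb6_lc.X.RunLemmas
import Pool.Agent.Lib.MP_f25cb6_lc.X.ChainWf

/-! # The effect of `check` -/

namespace Pool.Agent.Lib.MP_f25cb6_lc.X

private lemma not_rs_checkLevel {N a a' s : ℕ} (haa : a ≠ a') (c : ℕ) :
    ∀ ι ∈ checkLevel N a a' s, ¬ Rs ι c := by
  rintro ι hι ⟨hr, -⟩
  obtain ⟨x, -, y, -, -, rfl⟩ := mem_checkLevel.1 hι
  exact haa hr

/-- If the sum of the two states is at least `s` before `checkLevel N a a' s`, then it is at least
`s + 1` afterwards.
(By `run_le` the states do not decrease.  If the sum is still `≤ s` at the end then both states are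
unchanged and their sum is `s`, so the pair is in `level N s`; contradiction to `run_tested`.) -/
theorem run_checkLevel {N m a a' s : ℕ} {q q' : ℕ → ℕ} (ha : a < m) (ha' : a' < m) (haa : a ≠ a')
    (hq : ∀ c < m, q c < N) (h : Run (LStep N m) (checkLevel N a a' s) q q')
    (hs : s ≤ q a + q a') : s + 1 ≤ q' a + q' a' := by
  have h1 := run_le h ha (not_rs_checkLevel haa a)
  have h2 := run_le h ha' (not_rs_checkLevel haa a')
  by_contra hc
  refine run_tested h ha ha' haa (not_rs_checkLevel haa a) (not_rs_checkLevel haa a')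
    (u := q a) (v := q a') (by omega) (by omega) ?_ ⟨rfl, rfl⟩
  exact mem_checkLevel.2 ⟨q a, hq a ha, q a', hq a' ha', by omega, rfl⟩

/-- The sum of the two states is at most `N - 1` before `check` and at least `N - 1` afterwards.
(Use `run_flatMap` and induction over the levels `s`.  After the levels `0, …, N - 2` the sum is at
least `N - 1`, by `run_checkLevel`, starting from `0 ≤ q a + q a'`.  If the sum is `≥ N` at the
beginning, then it is `≥ N` at level `N`, and after the levels `N, …, 2N - 2` it is `≥ 2N - 1`,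
which is impossible as both states are `< N`, by `run_lt`.) -/
theorem run_check {N m a a' : ℕ} {q q' : ℕ → ℕ} (hN : 0 < N) (ha : a < m) (ha' : a' < m)
    (haa : a ≠ a') (hq : ∀ c < m, q c < N) (h : Run (LStep N m) (check N a a') q q') :
    q a + q a' ≤ N - 1 ∧ N - 1 ≤ q' a + q' a' := by
  unfold check at h
  obtain ⟨Q, hQ0, hQ1, hQ⟩ := (run_flatMap _ _ _ _).1 h
  have hlt : ∀ i ≤ 2 * N - 1, ∀ c < m, Q i c < N := by
    intro i
    induction i with
    | zero => intro _; rw [hQ0]; exact hq
    | succ i ih => intro hi; exact run_lt (hQ i (by omega)) (ih (by omega))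
  have hmono : ∀ i < 2 * N - 1, Q i a + Q i a' ≤ Q (i + 1) a + Q (i + 1) a' := by
    intro i hi
    have hr := hQ i hi
    have hno : ∀ c, ∀ ι ∈ (if i = N - 1 then [] else checkLevel N a a' i), ¬ Rs ι c := by
      intro c ι hι
      split_ifs at hι with h1
      · simp at hι
      · exact not_rs_checkLevel haa c ι hι
    exact add_le_add (run_le hr ha (hno a)) (run_le hr ha' (hno a'))
  have hstep : ∀ i < 2 * N - 1, i ≠ N - 1 → i ≤ Q i a + Q i a' →
      i + 1 ≤ Q (i + 1) a + Q (i + 1) a' := by
    intro i hi hne hle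
    have hr := hQ i hi
    rw [if_neg hne] at hr
    exact run_checkLevel ha ha' haa (hlt i (by omega)) hr hle
  constructor
  · by_contra hc
    have key : ∀ i ≤ 2 * N - 1, N ≤ Q i a + Q i a' ∧ i ≤ Q i a + Q i a' := by
      intro i
      induction i with
      | zero => intro _; rw [hQ0]; omega
      | succ i ih =>
        intro hi
        obtain ⟨h1, h2⟩ := ih (by omega)
        have h3 := hmono i (by omega)
        refine ⟨h1.trans h3, ?_⟩
        by_cases h4 : i = N - 1
        · omega
        · exact hstep i (by omega) h4 h2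
    have h1 := (key (2 * N - 1) le_rfl).2
    have h2 := hlt (2 * N - 1) le_rfl a ha
    have h3 := hlt (2 * N - 1) le_rfl a' ha'
    omega
  · have key : ∀ i ≤ 2 * N - 1, i ≤ Q i a + Q i a' ∨ N - 1 ≤ Q i a + Q i a' := by
      intro i
      induction i with
      | zero => intro _; exact Or.inl (Nat.zero_le _)
      | succ i ih =>
        intro hi
        have h3 := hmono i (by omega)
        rcases ih (by omega) with h1 | h1
        · by_cases h4 : i = N - 1
          · right; omega
          · left; exact hstep i (by omega) h4 h1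
        · right; omega
    rcases key (2 * N - 1) le_rfl with h1 | h1
    · rw [← hQ1]; omega
    · rw [← hQ1]; exact h1

/-- the same for `checkAll` and all pairs of machines -/
theorem run_checkAll {N k : ℕ} {q q' : ℕ → ℕ} (hN : 0 < N) (hq : ∀ c < 4 * k, q c < N)
    (h : Run (LStep N (4 * k)) (checkAll N k) q q') {j e : ℕ} (hj : j < k) (he : e < 2) :
    q (mach j e 0) + q (mach j e 1) ≤ N - 1 ∧ N - 1 ≤ q' (mach j e 0) + q' (mach j e 1) := by
  have hdec : ∃ l1 l2 : List Instr,
      checkAll N k = l1 ++ (check N (mach j e 0) (mach j e 1) ++ l2) := by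
    obtain ⟨s, t, hst⟩ := List.append_of_mem (List.mem_range.2 hj)
    unfold checkAll
    rw [hst, List.flatMap_append, List.flatMap_cons]
    generalize s.flatMap _ = A
    generalize t.flatMap _ = B
    have : e = 0 ∨ e = 1 := by omega
    rcases this with rfl | rfl
    · exact ⟨A, check N (mach j 1 0) (mach j 1 1) ++ B, by simp⟩
    · exact ⟨A ++ check N (mach j 0 0) (mach j 0 1), B, by simp⟩
  obtain ⟨l1, l2, hl⟩ := hdec
  have hno : ∀ c, ∀ ι ∈ checkAll N k, ¬ Rs ι c := fun c ι hι => not_rs_checkAll hι c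
  rw [hl] at h hno
  obtain ⟨q1, h1, h2⟩ := (run_append _ _ _ _).1 h
  obtain ⟨q2, h3, h4⟩ := (run_append _ _ _ _).1 h2
  have m0 : mach j e 0 < 4 * k := mach_lt hj he (by norm_num)
  have m1 : mach j e 1 < 4 * k := mach_lt hj he (by norm_num)
  have hne : mach j e 0 ≠ mach j e 1 := by
    unfold mach
    omega
  obtain ⟨h5, h6⟩ := run_check hN m0 m1 hne (run_lt h1 hq) h3
  have hno1 : ∀ c, ∀ ι ∈ l1, ¬ Rs ι c := fun c ι hι => hno c ι (List.mem_append_left _ hι)
  have hno2 : ∀ c, ∀ ι ∈ l2, ¬ Rs ι c := fun c ι hι =>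
    hno c ι (List.mem_append_right _ (List.mem_append_right _ hι))
  have a0 := run_le h1 m0 (hno1 _)
  have a1 := run_le h1 m1 (hno1 _)
  have b0 := run_le h4 m0 (hno2 _)
  have b1 := run_le h4 m1 (hno2 _)
  omega

end Pool.Agent.Lib.MP_f25cb6_lc.X
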