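import Pool.Agent.Lib.MP_f25cb6_lc.X.Defs

/-!
# Branching programs for Boolean formulas

A branching program is a list of nodes `(v, (t, f))`: go from node `i` to node `t` if the variable
`v` is true, and to node `f` if it is false.  All jumps go forward, so that the program can be
executed by going through the nodes `0, 1, …` once.
-/

namespace Pool.Agent.Lib.MP_f25cb6_lc.X

open MP_634427_lc

/-- A node of a branching program. -/
abbrev Node := ℕ × (ℕ × ℕ)

/-- the number of leaves -/
def leaves : BF → ℕ
  | .var _ => 1
  | .neg φ => leaves φ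
  | .and φ ψ => leaves φ + leaves ψ
  | .or φ ψ => leaves φ + leaves ψ

/-- The branching program of a formula which starts at node number `b` and continues with node `T`
if the formula is true and with node `F` if it is false. -/
def comp : BF → ℕ → ℕ → ℕ → List Node
  | .var i, _, T, F => [(i, (T, F))]
  | .neg φ, b, T, F => comp φ b F T
  | .and φ ψ, b, T, F => comp φ b (b + leaves φ) F ++ comp ψ (b + leaves φ) T F
  | .or φ ψ, b, T, F => comp φ b T (b + leaves φ) ++ comp ψ (b + leaves φ) T F

/-- one step: the node after the stage `i` -/
def bstep (S : Finset ℕ) (C : List Node) (i p : ℕ) : ℕ :=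
  if p = i then (if (C.getD i (0, (0, 0))).1 ∈ S then (C.getD i (0, (0, 0))).2.1
    else (C.getD i (0, (0, 0))).2.2) else p

/-- the node before the stage `i`, starting with node `0` -/
def bpos (S : Finset ℕ) (C : List Node) : ℕ → ℕ
  | 0 => 0
  | i + 1 => bstep S C i (bpos S C i)

theorem leaves_pos (φ : BF) : 0 < leaves φ := by
  induction φ with
  | var i => exact Nat.one_pos
  | neg φ ih => exact ih
  | and φ ψ ih _ => exact Nat.add_pos_left ih _
  | or φ ψ ih _ => exact Nat.add_pos_left ih _

theorem length_comp (φ : BF) (b T F : ℕ) : (comp φ b T F).length = leaves φ := by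
  induction φ generalizing b T F with
  | var i => rfl
  | neg φ ih => exact ih b F T
  | and φ ψ ih ih' =>
    show (comp φ b (b + leaves φ) F ++ comp ψ (b + leaves φ) T F).length = leaves φ + leaves ψ
    rw [List.length_append, ih, ih']
  | or φ ψ ih ih' =>
    show (comp φ b T (b + leaves φ) ++ comp ψ (b + leaves φ) T F).length = leaves φ + leaves ψ
    rw [List.length_append, ih, ih']

/-- The variables of the program are variables of the formula; the targets are `T`, `F` or
nodes of the program. -/
theorem comp_props (φ : BF) (b T F n : ℕ) (hn : φ.Below n) : ∀ x ∈ comp φ b T F,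
    x.1 < n ∧ (x.2.1 = T ∨ x.2.1 = F ∨ x.2.1 < b + leaves φ) ∧
      (x.2.2 = T ∨ x.2.2 = F ∨ x.2.2 < b + leaves φ) := by
  induction φ generalizing b T F with
  | var i =>
    intro x hx
    simp only [comp, List.mem_singleton] at hx
    subst hx
    exact ⟨hn, Or.inl rfl, Or.inr (Or.inl rfl)⟩
  | neg φ ih =>
    intro x hx
    obtain ⟨h1, h2, h3⟩ := ih b F T hn x hx
    refine ⟨h1, ?_, ?_⟩
    · show x.2.1 = T ∨ x.2.1 = F ∨ x.2.1 < b + leaves φ
      tauto
    · show x.2.2 = T ∨ x.2.2 = F ∨ x.2.2 < b + leaves φ
      tauto
  | and φ ψ ih ih' =>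
    intro x hx
    have hp := leaves_pos ψ
    rcases List.mem_append.1 hx with hx | hx
    · obtain ⟨h1, h2, h3⟩ := ih b (b + leaves φ) F hn.1 x hx
      refine ⟨h1, ?_, ?_⟩
      · show x.2.1 = T ∨ x.2.1 = F ∨ x.2.1 < b + (leaves φ + leaves ψ)
        rcases h2 with h | h | h
        · right; right; omega
        · right; left; exact h
        · right; right; omega
      · show x.2.2 = T ∨ x.2.2 = F ∨ x.2.2 < b + (leaves φ + leaves ψ)
        rcases h3 with h | h | h
        · right; right; omega
        · right; left; exact h
        · right; right; omega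
    · obtain ⟨h1, h2, h3⟩ := ih' (b + leaves φ) T F hn.2 x hx
      refine ⟨h1, ?_, ?_⟩
      · show x.2.1 = T ∨ x.2.1 = F ∨ x.2.1 < b + (leaves φ + leaves ψ)
        rcases h2 with h | h | h
        · left; exact h
        · right; left; exact h
        · right; right; omega
      · show x.2.2 = T ∨ x.2.2 = F ∨ x.2.2 < b + (leaves φ + leaves ψ)
        rcases h3 with h | h | h
        · left; exact h
        · right; left; exact h
        · right; right; omega
  | or φ ψ ih ih' =>
    intro x hx
    have hp := leaves_pos ψ
    rcases List.mem_append.1 hx with hx | hx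
    · obtain ⟨h1, h2, h3⟩ := ih b T (b + leaves φ) hn.1 x hx
      refine ⟨h1, ?_, ?_⟩
      · show x.2.1 = T ∨ x.2.1 = F ∨ x.2.1 < b + (leaves φ + leaves ψ)
        rcases h2 with h | h | h
        · left; exact h
        · right; right; omega
        · right; right; omega
      · show x.2.2 = T ∨ x.2.2 = F ∨ x.2.2 < b + (leaves φ + leaves ψ)
        rcases h3 with h | h | h
        · left; exact h
        · right; right; omega
        · right; right; omega
    · obtain ⟨h1, h2, h3⟩ := ih' (b + leaves φ) T F hn.2 x hx
      refine ⟨h1, ?_, ?_⟩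
      · show x.2.1 = T ∨ x.2.1 = F ∨ x.2.1 < b + (leaves φ + leaves ψ)
        rcases h2 with h | h | h
        · left; exact h
        · right; left; exact h
        · right; right; omega
      · show x.2.2 = T ∨ x.2.2 = F ∨ x.2.2 < b + (leaves φ + leaves ψ)
        rcases h3 with h | h | h
        · left; exact h
        · right; left; exact h
        · right; right; omega

/-- Nothing happens while the current node is not smaller than the stage. -/
theorem bpos_stay (S : Finset ℕ) (C : List Node) {i i' p : ℕ} (h : bpos S C i = p) (hi : i ≤ i')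
    (hp : i' ≤ p) : bpos S C i' = p := by
  induction i', hi using Nat.le_induction with
  | base => exact h
  | succ k hk ih =>
    have h1 := ih (by omega)
    show bstep S C k (bpos S C k) = p
    rw [h1]
    unfold bstep
    rw [if_neg (by omega)]

/-- The part of the program that belongs to the formula `φ` works correctly.
(Induction on `φ`, for all `b T F`.) -/
theorem bpos_comp (S : Finset ℕ) (C : List Node) (φ : BF) (b T F : ℕ)
    (hC : ∀ d < leaves φ, C.getD (b + d) (0, (0, 0)) = (comp φ b T F).getD d (0, (0, 0)))
    (hT : b + leaves φ ≤ T) (hF : b + leaves φ ≤ F) (hb : bpos S C b = b) :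
    (φ.Holds S → bpos S C (b + leaves φ) = T) ∧ (¬ φ.Holds S → bpos S C (b + leaves φ) = F) := by
  induction φ generalizing b T F with
  | var i =>
    have h0 : C.getD b (0, (0, 0)) = (i, (T, F)) := by
      have := hC 0 Nat.one_pos
      simpa [comp] using this
    have h1 : bpos S C (b + 1) = if i ∈ S then T else F := by
      show bstep S C b (bpos S C b) = _
      rw [hb]
      unfold bstep
      rw [if_pos rfl, h0]
    constructor
    · intro h
      show bpos S C (b + 1) = T
      have h' : i ∈ S := h
      rw [h1, if_pos h']
    · intro h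
      show bpos S C (b + 1) = F
      have h' : i ∉ S := h
      rw [h1, if_neg h']
  | neg φ ih =>
    obtain ⟨h1, h2⟩ := ih b F T hC hF hT hb
    refine ⟨fun h => h2 h, fun h => h1 (not_not.1 h)⟩
  | and φ ψ ih ih' =>
    have hT' : b + (leaves φ + leaves ψ) ≤ T := hT
    have hF' : b + (leaves φ + leaves ψ) ≤ F := hF
    have hCφ : ∀ d < leaves φ, C.getD (b + d) (0, (0, 0)) =
        (comp φ b (b + leaves φ) F).getD d (0, (0, 0)) := by
      intro d hd
      have h := hC d (by show d < leaves φ + leaves ψ; omega)
      rw [h]
      exact List.getD_append _ _ _ _ (by rw [length_comp]; exact hd)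
    have hCψ : ∀ d < leaves ψ, C.getD (b + leaves φ + d) (0, (0, 0)) =
        (comp ψ (b + leaves φ) T F).getD d (0, (0, 0)) := by
      intro d hd
      have h := hC (leaves φ + d) (by show leaves φ + d < leaves φ + leaves ψ; omega)
      rw [← add_assoc] at h
      rw [h]
      show (comp φ b (b + leaves φ) F ++ comp ψ (b + leaves φ) T F).getD (leaves φ + d) (0, (0, 0))
        = _
      rw [List.getD_append_right _ _ _ _ (by rw [length_comp]; omega), length_comp,
        Nat.add_sub_cancel_left]
    obtain ⟨h1, h2⟩ := ih b (b + leaves φ) F hCφ le_rfl (by omega) hb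
    constructor
    · intro h
      have h3 := h1 h.1
      obtain ⟨h4, _⟩ := ih' (b + leaves φ) T F hCψ (by omega) (by omega) h3
      have h5 := h4 h.2
      rw [add_assoc] at h5
      exact h5
    · intro h
      by_cases hφ : φ.Holds S
      · have hψ : ¬ ψ.Holds S := fun hψ => h ⟨hφ, hψ⟩
        have h3 := h1 hφ
        obtain ⟨_, h4⟩ := ih' (b + leaves φ) T F hCψ (by omega) (by omega) h3
        have h5 := h4 hψ
        rw [add_assoc] at h5
        exact h5
      · exact bpos_stay S C (h2 hφ) (i' := b + (leaves φ + leaves ψ)) (by omega) hF'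
  | or φ ψ ih ih' =>
    have hT' : b + (leaves φ + leaves ψ) ≤ T := hT
    have hF' : b + (leaves φ + leaves ψ) ≤ F := hF
    have hCφ : ∀ d < leaves φ, C.getD (b + d) (0, (0, 0)) =
        (comp φ b T (b + leaves φ)).getD d (0, (0, 0)) := by
      intro d hd
      have h := hC d (by show d < leaves φ + leaves ψ; omega)
      rw [h]
      exact List.getD_append _ _ _ _ (by rw [length_comp]; exact hd)
    have hCψ : ∀ d < leaves ψ, C.getD (b + leaves φ + d) (0, (0, 0)) =
        (comp ψ (b + leaves φ) T F).getD d (0, (0, 0)) := by
      intro d hd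
      have h := hC (leaves φ + d) (by show leaves φ + d < leaves φ + leaves ψ; omega)
      rw [← add_assoc] at h
      rw [h]
      show (comp φ b T (b + leaves φ) ++ comp ψ (b + leaves φ) T F).getD (leaves φ + d) (0, (0, 0))
        = _
      rw [List.getD_append_right _ _ _ _ (by rw [length_comp]; omega), length_comp,
        Nat.add_sub_cancel_left]
    obtain ⟨h1, h2⟩ := ih b T (b + leaves φ) hCφ (by omega) le_rfl hb
    constructor
    · intro h
      by_cases hφ : φ.Holds S
      · exact bpos_stay S C (h1 hφ) (i' := b + (leaves φ + leaves ψ)) (by omega) hT'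
      · have hψ : ψ.Holds S := h.resolve_left hφ
        have h3 := h2 hφ
        obtain ⟨h4, _⟩ := ih' (b + leaves φ) T F hCψ (by omega) (by omega) h3
        have h5 := h4 hψ
        rw [add_assoc] at h5
        exact h5
    · intro h
      have hφ : ¬ φ.Holds S := fun h' => h (Or.inl h')
      have hψ : ¬ ψ.Holds S := fun h' => h (Or.inr h')
      have h3 := h2 hφ
      obtain ⟨_, h4⟩ := ih' (b + leaves φ) T F hCψ (by omega) (by omega) h3
      have h5 := h4 hψ
      rw [add_assoc] at h5
      exact h5

/-- the branching program of a formula; node `L = leaves φ` accepts and node `L + 1` rejects -/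
def bprog (φ : BF) : List Node := comp φ 0 (leaves φ) (leaves φ + 1)

/-- **The branching program computes the formula.** -/
theorem bprog_correct (S : Finset ℕ) (φ : BF) :
    bpos S (bprog φ) (bprog φ).length = (bprog φ).length ↔ φ.Holds S := by
  have hl : (bprog φ).length = leaves φ := length_comp _ _ _ _
  obtain ⟨h1, h2⟩ := bpos_comp S (bprog φ) φ 0 (leaves φ) (leaves φ + 1)
    (fun d _ => by rw [zero_add]; rfl) (by omega) (by omega) rfl
  rw [zero_add] at h1 h2
  rw [hl]
  constructor
  · intro h
    by_contra hn
    have := h2 hn
    omega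
  · exact h1

/-- all targets of the branching program are at most `L + 1` and the variables are below `n` -/
theorem bprog_props {n : ℕ} {φ : BF} (h : φ.Below n) : ∀ x ∈ bprog φ,
    x.1 < n ∧ x.2.1 < (bprog φ).length + 2 ∧ x.2.2 < (bprog φ).length + 2 := by
  intro x hx
  have hl : (bprog φ).length = leaves φ := length_comp _ _ _ _
  obtain ⟨h1, h2, h3⟩ := comp_props φ 0 (leaves φ) (leaves φ + 1) n h x hx
  refine ⟨h1, ?_, ?_⟩
  · rcases h2 with h | h | h <;> omega
  · rcases h3 with h | h | h <;> omega

/-! ### Relative programs

For the computation in polynomial time we use relative programs: target `0` means `T`, target `1`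
means `F`, target `d + 2` means node number `d` of the program. -/

/-- replace the targets: `0 ↦ T`, `1 ↦ F`, `d + 2 ↦ b + d` -/
def reloc (b T F t : ℕ) : ℕ := if t = 0 then T else if t = 1 then F else b + (t - 2)

/-- replace the targets of all nodes -/
def relocAll (b T F : ℕ) (C : List Node) : List Node :=
  C.map fun x => (x.1, (reloc b T F x.2.1, reloc b T F x.2.2))

/-- the relative program of a formula -/
def rel : BF → List Node
  | .var i => [(i, (0, 1))]
  | .neg φ => relocAll 2 1 0 (rel φ)
  | .and φ ψ => relocAll 2 (2 + (rel φ).length) 1 (rel φ) ++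
      relocAll (2 + (rel φ).length) 0 1 (rel ψ)
  | .or φ ψ => relocAll 2 0 (2 + (rel φ).length) (rel φ) ++
      relocAll (2 + (rel φ).length) 0 1 (rel ψ)

theorem length_rel (φ : BF) : (rel φ).length = leaves φ := by
  induction φ with
  | var i => rfl
  | neg φ ih =>
    show (relocAll 2 1 0 (rel φ)).length = leaves φ
    unfold relocAll
    rw [List.length_map, ih]
  | and φ ψ ih ih' =>
    show (relocAll 2 (2 + (rel φ).length) 1 (rel φ) ++
      relocAll (2 + (rel φ).length) 0 1 (rel ψ)).length = leaves φ + leaves ψ
    unfold relocAll
    rw [List.length_append, List.length_map, List.length_map, ih, ih']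
  | or φ ψ ih ih' =>
    show (relocAll 2 0 (2 + (rel φ).length) (rel φ) ++
      relocAll (2 + (rel φ).length) 0 1 (rel ψ)).length = leaves φ + leaves ψ
    unfold relocAll
    rw [List.length_append, List.length_map, List.length_map, ih, ih']

private theorem reloc_zero (b T F : ℕ) : reloc b T F 0 = T := rfl

private theorem reloc_one (b T F : ℕ) : reloc b T F 1 = F := rfl

private theorem reloc_two (b T F d : ℕ) : reloc b T F (d + 2) = b + d := by
  unfold reloc
  rw [if_neg (by omega), if_neg (by omega), Nat.add_sub_cancel]

private theorem reloc_two' (b T F d : ℕ) : reloc b T F (2 + d) = b + d := by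
  rw [add_comm 2 d, reloc_two]

private theorem relocAll_relocAll {b T F b' T' F' b'' T'' F'' : ℕ}
    (h : ∀ t, reloc b T F (reloc b' T' F' t) = reloc b'' T'' F'' t) (C : List Node) :
    relocAll b T F (relocAll b' T' F' C) = relocAll b'' T'' F'' C := by
  unfold relocAll
  rw [List.map_map]
  refine List.map_congr_left fun x _ => ?_
  show (x.1, (reloc b T F (reloc b' T' F' x.2.1), reloc b T F (reloc b' T' F' x.2.2))) = _
  rw [h, h]

/-- (Induction on `φ`; `reloc b T F (reloc 2 1 0 t) = reloc b F T t`, and similarly in the other
cases.) -/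
theorem comp_eq_relocAll (φ : BF) (b T F : ℕ) : comp φ b T F = relocAll b T F (rel φ) := by
  induction φ generalizing b T F with
  | var i => rfl
  | neg φ ih =>
    show comp φ b F T = relocAll b T F (relocAll 2 1 0 (rel φ))
    rw [ih, relocAll_relocAll (b'' := b) (T'' := F) (F'' := T)]
    intro t
    rcases t with _ | _ | t
    · rw [reloc_zero, reloc_zero, reloc_one]
    · rw [zero_add, reloc_one, reloc_one, reloc_zero]
    · rw [reloc_two, reloc_two, reloc_two']
  | and φ ψ ih ih' =>
    show comp φ b (b + leaves φ) F ++ comp ψ (b + leaves φ) T F =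
      relocAll b T F (relocAll 2 (2 + (rel φ).length) 1 (rel φ) ++
        relocAll (2 + (rel φ).length) 0 1 (rel ψ))
    have hm : ∀ C D : List Node, relocAll b T F (C ++ D) = relocAll b T F C ++ relocAll b T F D :=
      fun C D => List.map_append
    rw [hm, ih, ih', length_rel, relocAll_relocAll (b'' := b) (T'' := b + leaves φ) (F'' := F),
      relocAll_relocAll (b'' := b + leaves φ) (T'' := T) (F'' := F)]
    · intro t
      rcases t with _ | _ | t
      · rw [reloc_zero, reloc_zero, reloc_zero]
      · rw [zero_add, reloc_one, reloc_one, reloc_one]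
      · rw [reloc_two, reloc_two, add_assoc, reloc_two', add_assoc]
    · intro t
      rcases t with _ | _ | t
      · rw [reloc_zero, reloc_zero]
        first
          | rw [reloc_two']
          | rw [reloc_zero]
      · rw [zero_add, reloc_one, reloc_one]
        first
          | rw [reloc_two']
          | rw [reloc_one]
      · rw [reloc_two, reloc_two, reloc_two']
  | or φ ψ ih ih' =>
    show comp φ b T (b + leaves φ) ++ comp ψ (b + leaves φ) T F =
      relocAll b T F (relocAll 2 0 (2 + (rel φ).length) (rel φ) ++
        relocAll (2 + (rel φ).length) 0 1 (rel ψ))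
    have hm : ∀ C D : List Node, relocAll b T F (C ++ D) = relocAll b T F C ++ relocAll b T F D :=
      fun C D => List.map_append
    rw [hm, ih, ih', length_rel, relocAll_relocAll (b'' := b) (T'' := T) (F'' := b + leaves φ),
      relocAll_relocAll (b'' := b + leaves φ) (T'' := T) (F'' := F)]
    · intro t
      rcases t with _ | _ | t
      · rw [reloc_zero, reloc_zero, reloc_zero]
      · rw [zero_add, reloc_one, reloc_one, reloc_one]
      · rw [reloc_two, reloc_two, add_assoc, reloc_two', add_assoc]
    · intro t
      rcases t with _ | _ | t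
      · rw [reloc_zero, reloc_zero]
        first
          | rw [reloc_two']
          | rw [reloc_zero]
      · rw [zero_add, reloc_one, reloc_one]
        first
          | rw [reloc_two']
          | rw [reloc_one]
      · rw [reloc_two, reloc_two, reloc_two']

theorem bprog_eq (φ : BF) : bprog φ = relocAll 0 (rel φ).length ((rel φ).length + 1) (rel φ) := by
  unfold bprog
  rw [comp_eq_relocAll, length_rel]

end Pool.Agent.Lib.MP_f25cb6_lc.X
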