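import Pool.Agent.Lib.MP_f25cb6_lc.X.Prog

/-! # Runs of programs -/

namespace Pool.Agent.Lib.MP_f25cb6_lc.X

variable {R : Instr → (ℕ → ℕ) → (ℕ → ℕ) → Prop}

theorem run_append (l l' : List Instr) (q q' : ℕ → ℕ) :
    Run R (l ++ l') q q' ↔ ∃ q1, Run R l q q1 ∧ Run R l' q1 q' := by
  induction l generalizing q with
  | nil =>
    rw [List.nil_append]
    constructor
    · intro h
      exact ⟨q, rfl, h⟩
    · rintro ⟨q1, h1, h2⟩
      rw [show q = q1 from h1]
      exact h2
  | cons ι l ih =>
    rw [List.cons_append]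
    constructor
    · rintro ⟨q2, h1, h2⟩
      obtain ⟨q1, h3, h4⟩ := (ih q2).1 h2
      exact ⟨q1, ⟨q2, h1, h3⟩, h4⟩
    · rintro ⟨q1, ⟨q2, h1, h3⟩, h4⟩
      exact ⟨q2, h1, (ih q2).2 ⟨q1, h3, h4⟩⟩

/-- a sequence of states gives a run -/
theorem run_of_seq (l : List Instr) (s : ℕ → ℕ → ℕ)
    (h : ∀ t, ∀ ht : t < l.length, R l[t] (s t) (s (t + 1))) : Run R l (s 0) (s l.length) := by
  induction l generalizing s with
  | nil => exact rfl
  | cons ι l ih =>
    refine ⟨s 1, h 0 (by simp), ?_⟩
    refine ih (fun t => s (t + 1)) fun t ht => ?_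
    have := h (t + 1) (by simpa using ht)
    simpa using this

/-- a run gives a sequence of states -/
theorem seq_of_run (l : List Instr) (q q' : ℕ → ℕ) (h : Run R l q q') :
    ∃ s : ℕ → ℕ → ℕ, s 0 = q ∧ s l.length = q' ∧
      ∀ t, ∀ ht : t < l.length, R l[t] (s t) (s (t + 1)) := by
  induction l generalizing q with
  | nil => exact ⟨fun _ => q, rfl, h, fun t ht => absurd ht (by simp)⟩
  | cons ι l ih =>
    obtain ⟨q1, h1, h2⟩ := h
    obtain ⟨s, h3, h4, h5⟩ := ih q1 h2
    refine ⟨fun t => Nat.casesOn t q s, rfl, h4, ?_⟩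
    intro t ht
    cases t with
    | zero =>
      change R ι q (s 0)
      rw [h3]
      exact h1
    | succ t =>
      have := h5 t (by simpa using ht)
      simpa using this

/-- a run of a program that consists of `r` parts -/
theorem run_flatMap (f : ℕ → List Instr) (r : ℕ) (q q' : ℕ → ℕ) :
    Run R ((List.range r).flatMap f) q q' ↔
      ∃ Q : ℕ → ℕ → ℕ, Q 0 = q ∧ Q r = q' ∧ ∀ i < r, Run R (f i) (Q i) (Q (i + 1)) := by
  induction r generalizing q' with
  | zero =>
    rw [List.range_zero, List.flatMap_nil]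
    constructor
    · intro h
      exact ⟨fun _ => q, rfl, h, fun i hi => absurd hi (Nat.not_lt_zero i)⟩
    · rintro ⟨Q, h1, h2, -⟩
      exact h1.symm.trans h2
  | succ r ih =>
    rw [List.range_succ, List.flatMap_append, run_append, List.flatMap_singleton]
    constructor
    · rintro ⟨q1, h1, h2⟩
      obtain ⟨Q, h3, h4, h5⟩ := (ih q1).1 h1
      refine ⟨fun i => if i ≤ r then Q i else q', ?_, ?_, ?_⟩
      · simpa using h3
      · simp
      · intro i hi
        beta_reduce
        rcases Nat.lt_or_ge i r with h6 | h6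
        · rw [if_pos h6.le, if_pos (by omega)]
          exact h5 i h6
        · have h7 : i = r := by omega
          subst h7
          rw [if_pos le_rfl, if_neg (by omega), h4]
          exact h2
    · rintro ⟨Q, h1, h2, h3⟩
      refine ⟨Q r, (ih (Q r)).2 ⟨Q, h1, rfl, fun i hi => h3 i (by omega)⟩, ?_⟩
      rw [← h2]
      exact h3 r (Nat.lt_succ_self r)

/-- the states stay below `N` -/
theorem run_lt {N m : ℕ} {l : List Instr} {q q' : ℕ → ℕ} (h : Run (LStep N m) l q q')
    (hq : ∀ c < m, q c < N) : ∀ c < m, q' c < N := by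
  induction l generalizing q with
  | nil =>
    rw [← show q = q' from h]
    exact hq
  | cons ι l ih =>
    obtain ⟨q1, ⟨z, -, -, h1⟩, h2⟩ := h
    exact ih h2 h1

/-- the state of a machine which is not reset does not decrease -/
theorem run_le {N m c : ℕ} {l : List Instr} {q q' : ℕ → ℕ} (h : Run (LStep N m) l q q')
    (hc : c < m) (hl : ∀ ι ∈ l, ¬ Rs ι c) : q c ≤ q' c := by
  induction l generalizing q with
  | nil => rw [show q = q' from h]
  | cons ι l ih =>
    obtain ⟨q1, ⟨z, h0, -, -⟩, h2⟩ := h
    obtain ⟨h3, h4⟩ := h0 c hc (hl ι List.mem_cons_self)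
    exact (h3.trans h4).trans (ih h2 fun κ hκ => hl κ (List.mem_cons_of_mem _ hκ))

/-- If the states of the machines `a ≠ b`, which are not reset, are the same before and after the
run, then they satisfy all conditions of the program.  (The states in the middle of each
instruction are between the state before and the state after the run, by monotonicity.) -/
theorem run_tested {N m a b u v : ℕ} {l : List Instr} {q q' : ℕ → ℕ}
    (h : Run (LStep N m) l q q') (ha : a < m) (hb : b < m) (hab : a ≠ b)
    (hla : ∀ ι ∈ l, ¬ Rs ι a) (hlb : ∀ ι ∈ l, ¬ Rs ι b) (h1 : q a = q' a) (h2 : q b = q' b)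
    (hι : ((a, u), (b, v)) ∈ l) : ¬ (q a = u ∧ q b = v) := by
  obtain ⟨l1, l2, rfl⟩ := List.append_of_mem hι
  obtain ⟨q1, h3, q2, ⟨z, h4, h5, -⟩, h6⟩ := (run_append l1 _ q q').1 h
  have ha1 := run_le h3 ha fun κ hκ => hla κ (List.mem_append_left _ hκ)
  have hb1 := run_le h3 hb fun κ hκ => hlb κ (List.mem_append_left _ hκ)
  have ha2 := run_le h6 ha fun κ hκ =>
    hla κ (List.mem_append_right _ (List.mem_cons_of_mem _ hκ))
  have hb2 := run_le h6 hb fun κ hκ =>
    hlb κ (List.mem_append_right _ (List.mem_cons_of_mem _ hκ))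
  obtain ⟨ha3, ha4⟩ := h4 a ha fun h7 => hab h7.1
  obtain ⟨hb3, hb4⟩ := h4 b hb fun h7 => hab h7.1
  have hza : z a = q a := by omega
  have hzb : z b = q b := by omega
  have h8 := h5 hab
  rw [← hza, ← hzb]
  exact h8

/-- A run without waiting of a program that resets the machines in the list `cs`: all these
machines get arbitrary new states, the other machines keep their state.
(Induction on `cs`: the first instruction changes `q` to `Function.update q c (q' c)`; if `cs = []`
then choose `q'' = q`.) -/
theorem run_resets {N m : ℕ} (cs : List ℕ) (q q' : ℕ → ℕ) (hq : ∀ c < m, q c < N)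
    (hq' : ∀ c < m, q' c < N) (h : ∀ c, c ∉ cs → q' c = q c) :
    Run (XStep N m) (cs.map reset) q q' := by
  induction cs generalizing q with
  | nil =>
    have h1 : q = q' := funext fun c => (h c (by simp)).symm
    exact h1
  | cons c cs ih =>
    have hu : ∀ c' < m, Function.update q c (q' c) c' < N := by
      intro c' hc'
      rcases eq_or_ne c' c with h1 | h1
      · subst h1
        rw [Function.update_self]
        exact hq' _ hc'
      · rw [Function.update_of_ne h1]
        exact hq _ hc'
    refine ⟨Function.update q c (q' c), ⟨?_, fun h1 => absurd rfl h1, hu⟩, ?_⟩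
    · intro c' hc' h1
      have h2 : c' ≠ c := fun h3 => h1 ⟨rfl, h3⟩
      rw [Function.update_of_ne h2]
    · refine ih _ hu fun c' hc' => ?_
      rcases eq_or_ne c' c with h1 | h1
      · subst h1
        rw [Function.update_self]
      · rw [Function.update_of_ne h1]
        exact h c' (by simp [h1, hc'])

/-- A program without resets all of whose conditions hold in the state `q` can be run without
changing the state. -/
theorem run_const {N m : ℕ} (l : List Instr) (q : ℕ → ℕ) (hq : ∀ c < m, q c < N)
    (h : ∀ ι ∈ l, ¬ (q ι.1.1 = ι.1.2 ∧ q ι.2.1 = ι.2.2)) : Run (XStep N m) l q q := by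
  induction l with
  | nil => exact rfl
  | cons ι l ih =>
    exact ⟨q, ⟨fun _ _ _ => rfl, fun _ => h ι List.mem_cons_self, hq⟩,
      ih fun κ hκ => h κ (List.mem_cons_of_mem _ hκ)⟩

end Pool.Agent.Lib.MP_f25cb6_lc.X
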