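import Pool.Agent.Lib.MP_f25cb6_lc.X.Value
import Pool.Agent.Lib.MP_f25cb6_lc.X.RunLemmas

/-! # A run without waiting gives a full schedule -/

namespace Pool.Agent.Lib.MP_f25cb6_lc.X

open MP_634427_lc MP_be4430_lc

/-- The job of machine `c` in phase `p`, if the states are given by `s` (`s t c` is the state of
machine `c` before instruction `t`). -/
def pathJob (N : ℕ) (l : List Instr) (s : ℕ → ℕ → ℕ) (c p : ℕ) : RJob :=
  if p = 3 * l.length then
    ((6 * N * l.length + s l.length c, 6 * N * l.length + 2 * N), [c])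
  else
    if p % 3 = 0 then
      ((6 * N * (p / 3) + s (p / 3) c,
        6 * N * (p / 3) + mid N (l.getD (p / 3) (reset 0)) c (s (p / 3) c)), [c])
    else if p % 3 = 1 then
      if priv (l.getD (p / 3) (reset 0)) c (s (p / 3) c) then
        ((6 * N * (p / 3) + mid N (l.getD (p / 3) (reset 0)) c (s (p / 3) c),
          6 * N * (p / 3) + mid N (l.getD (p / 3) (reset 0)) c (s (p / 3) c) + 2 * N), [c])
      else ((6 * N * (p / 3) + 2 * N, 6 * N * (p / 3) + 4 * N),
        [(l.getD (p / 3) (reset 0)).1.1, (l.getD (p / 3) (reset 0)).2.1])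
    else
      ((6 * N * (p / 3) + mid N (l.getD (p / 3) (reset 0)) c (s (p / 3) c) + 2 * N,
        6 * N * (p / 3) + 6 * N + s (p / 3 + 1) c), [c])

section

variable {N m : ℕ} {l : List Instr} {s : ℕ → ℕ → ℕ}

private theorem pj_A {t : ℕ} (ht : t < l.length) (c : ℕ) : pathJob N l s c (3 * t) =
    ((6 * N * t + s t c, 6 * N * t + mid N l[t] c (s t c)), [c]) := by
  have h1 : 3 * t ≠ 3 * l.length := by omega
  have h2 : 3 * t % 3 = 0 := by omega
  have h3 : 3 * t / 3 = t := by omega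
  unfold pathJob
  rw [if_neg h1, if_pos h2, h3, List.getD_eq_getElem _ _ ht]

private theorem pj_B {t : ℕ} (ht : t < l.length) (c : ℕ) : pathJob N l s c (3 * t + 1) =
    if priv l[t] c (s t c) then
      ((6 * N * t + mid N l[t] c (s t c), 6 * N * t + mid N l[t] c (s t c) + 2 * N), [c])
    else ((6 * N * t + 2 * N, 6 * N * t + 4 * N), [l[t].1.1, l[t].2.1]) := by
  have h1 : 3 * t + 1 ≠ 3 * l.length := by omega
  have h2 : ¬ (3 * t + 1) % 3 = 0 := by omega
  have h2' : (3 * t + 1) % 3 = 1 := by omega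
  have h3 : (3 * t + 1) / 3 = t := by omega
  unfold pathJob
  rw [if_neg h1, if_neg h2, if_pos h2', h3, List.getD_eq_getElem _ _ ht]

private theorem pj_C {t : ℕ} (ht : t < l.length) (c : ℕ) : pathJob N l s c (3 * t + 2) =
    ((6 * N * t + mid N l[t] c (s t c) + 2 * N, 6 * N * t + 6 * N + s (t + 1) c), [c]) := by
  have h1 : 3 * t + 2 ≠ 3 * l.length := by omega
  have h2 : ¬ (3 * t + 2) % 3 = 0 := by omega
  have h2' : ¬ (3 * t + 2) % 3 = 1 := by omega
  have h3 : (3 * t + 2) / 3 = t := by omega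
  unfold pathJob
  rw [if_neg h1, if_neg h2, if_neg h2', h3, List.getD_eq_getElem _ _ ht]

private theorem pj_F (c : ℕ) : pathJob N l s c (3 * l.length) =
    ((6 * N * l.length + s l.length c, 6 * N * l.length + 2 * N), [c]) := by
  unfold pathJob
  rw [if_pos rfl]

private theorem phase_cases {L p : ℕ} (hp : p ≤ 3 * L) :
    (∃ t < L, p = 3 * t) ∨ (∃ t < L, p = 3 * t + 1) ∨ (∃ t < L, p = 3 * t + 2) ∨ p = 3 * L := by
  by_cases h : p = 3 * L
  · exact Or.inr (Or.inr (Or.inr h))
  · have h3 : p % 3 = 0 ∨ p % 3 = 1 ∨ p % 3 = 2 := by omega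
    rcases h3 with h3 | h3 | h3
    · exact Or.inl ⟨p / 3, by omega, by omega⟩
    · exact Or.inr (Or.inl ⟨p / 3, by omega, by omega⟩)
    · exact Or.inr (Or.inr (Or.inl ⟨p / 3, by omega, by omega⟩))

private theorem s_lt (hs : ∀ t, ∀ ht : t < l.length, XStep N m l[t] (s t) (s (t + 1)))
    (h0 : ∀ c < m, s 0 c < N) {t : ℕ} (ht : t ≤ l.length) {c : ℕ} (hc : c < m) : s t c < N := by
  cases t with
  | zero => exact h0 c hc
  | succ t => exact (hs t ht).2.2 c hc

private theorem priv_false {ι : Instr} {c x : ℕ} (h : priv ι c x = false) :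
    ι.1.1 ≠ ι.2.1 ∧ ((c = ι.1.1 ∧ x = ι.1.2) ∨ (c = ι.2.1 ∧ x = ι.2.2)) := by
  unfold priv at h
  simp only [Bool.or_eq_false_iff, decide_eq_false_iff_not, Bool.not_eq_false', Bool.or_eq_true,
    Bool.and_eq_true, decide_eq_true_eq] at h
  exact h

private theorem mid_of_priv {ι : Instr} {c x : ℕ} (h : priv ι c x = false) :
    mid N ι c x = 2 * N := by
  obtain ⟨h1, h2⟩ := priv_false h
  have h3 : sh ι c = x := by
    unfold sh
    rcases h2 with ⟨h2, h4⟩ | ⟨h2, h4⟩
    · rw [if_pos h2, h4]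
    · have h5 : c ≠ ι.1.1 := by rw [h2]; exact h1.symm
      rw [if_neg h5, if_pos h2, h4]
  have h4 : ¬ Rs ι c := fun h => h1 h.1
  unfold mid
  rw [if_neg h4, h3]
  omega

private theorem mid_next {ι : Instr} {c : ℕ} {q q' : ℕ → ℕ} (h : XStep N m ι q q') (hc : c < m) :
    mid N ι c (q c) = mid N ι c (q' c) := by
  by_cases hr : Rs ι c
  · unfold mid
    rw [if_pos hr, if_pos hr]
  · rw [h.1 c hc hr]

/-- The jobs of the path are jobs of the program that `c` may process, in the right phase.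
(For `p % 3 = 2` distinguish whether `c` is reset: then `mid = 2N` for all states, else
`s (t+1) c = s t c`.) -/
theorem pathJob_mem (hN : 0 < N) (hl : ∀ ι ∈ l, Wf N m ι)
    (hs : ∀ t, ∀ ht : t < l.length, XStep N m l[t] (s t) (s (t + 1)))
    (h0 : ∀ c < m, s 0 c < N) {c p : ℕ} (hc : c < m) (hp : p ≤ 3 * l.length) :
    pathJob N l s c p ∈ jobs N m l ∧ c ∈ (pathJob N l s c p).2 ∧
      Loc N p (pathJob N l s c p).1.1 (pathJob N l s c p).1.2 := by
  rcases phase_cases hp with ⟨t, ht, rfl⟩ | ⟨t, ht, rfl⟩ | ⟨t, ht, rfl⟩ | rfl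
  · have h1 : pathJob N l s c (3 * t) ∈ jobsA N m (6 * N * t) l[t] := by
      rw [pj_A ht]
      exact mem_jobsA.2 ⟨c, hc, s t c, s_lt hs h0 ht.le hc, rfl⟩
    refine ⟨mem_jobs.2 (Or.inl ⟨t, ht, Or.inl h1⟩), ?_, loc_jobsA hN (hl _ (List.getElem_mem _)) h1⟩
    rw [pj_A ht]
    exact List.mem_singleton.2 rfl
  · have h1 : pathJob N l s c (3 * t + 1) ∈ jobsB N m (6 * N * t) l[t] := by
      rw [pj_B ht]
      split_ifs with hpr
      · exact mem_jobsB.2 (Or.inl ⟨c, hc, s t c, s_lt hs h0 ht.le hc, hpr, rfl⟩)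
      · rw [Bool.not_eq_true] at hpr
        exact mem_jobsB.2 (Or.inr ⟨(priv_false hpr).1, rfl⟩)
    refine ⟨mem_jobs.2 (Or.inl ⟨t, ht, Or.inr (Or.inl h1)⟩), ?_,
      loc_jobsB hN (hl _ (List.getElem_mem _)) h1⟩
    rw [pj_B ht]
    split_ifs with hpr
    · exact List.mem_singleton.2 rfl
    · rw [Bool.not_eq_true] at hpr
      rcases (priv_false hpr).2 with h2 | h2
      · simp only [h2.1]
        exact List.mem_cons_self
      · simp only [h2.1]
        exact List.mem_cons_of_mem _ List.mem_cons_self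
  · have h1 : pathJob N l s c (3 * t + 2) ∈ jobsC N m (6 * N * t) l[t] := by
      rw [pj_C ht, mid_next (hs t ht) hc]
      exact mem_jobsC.2 ⟨c, hc, s (t + 1) c, s_lt hs h0 ht hc, rfl⟩
    refine ⟨mem_jobs.2 (Or.inl ⟨t, ht, Or.inr (Or.inr h1)⟩), ?_,
      loc_jobsC hN (hl _ (List.getElem_mem _)) h1⟩
    rw [pj_C ht]
    exact List.mem_singleton.2 rfl
  · have h1 : pathJob N l s c (3 * l.length) ∈ jobsF N m (6 * N * l.length) := by
      rw [pj_F]
      exact mem_jobsF.2 ⟨c, hc, s l.length c, s_lt hs h0 le_rfl hc, rfl⟩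
    refine ⟨mem_jobs.2 (Or.inr h1), ?_, loc_jobsF hN h1⟩
    rw [pj_F]
    exact List.mem_singleton.2 rfl

/-- Consecutive jobs of the path do not overlap. -/
theorem pathJob_le (hN : 0 < N) (hl : ∀ ι ∈ l, Wf N m ι)
    (hs : ∀ t, ∀ ht : t < l.length, XStep N m l[t] (s t) (s (t + 1)))
    (h0 : ∀ c < m, s 0 c < N) {c p : ℕ} (hc : c < m) (hp : p < 3 * l.length) :
    (pathJob N l s c p).1.2 ≤ (pathJob N l s c (p + 1)).1.1 := by
  rcases phase_cases hp.le with ⟨t, ht, rfl⟩ | ⟨t, ht, rfl⟩ | ⟨t, ht, rfl⟩ | rfl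
  · rw [pj_A ht, pj_B ht]
    split_ifs with hpr
    · exact le_rfl
    · rw [Bool.not_eq_true] at hpr
      simp only [mid_of_priv hpr]
      exact le_rfl
  · have h1 : 3 * t + 1 + 1 = 3 * t + 2 := rfl
    rw [h1, pj_B ht, pj_C ht]
    split_ifs with hpr
    · exact le_rfl
    · rw [Bool.not_eq_true] at hpr
      simp only [mid_of_priv hpr]
      omega
  · have h1 : 3 * t + 2 + 1 = 3 * (t + 1) := by ring
    rw [h1, pj_C ht]
    have h2 : 6 * N * t + 6 * N + s (t + 1) c ≤ 6 * N * (t + 1) + s (t + 1) c := by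
      rw [Nat.mul_succ]
    by_cases h3 : t + 1 < l.length
    · rw [pj_A h3]
      exact h2
    · have h4 : t + 1 = l.length := by omega
      rw [h4, pj_F]
      rw [h4] at h2
      exact h2
  · exact absurd hp (lt_irrefl _)

/-- Jobs of the path of `c` for different phases do not overlap (induction from `pathJob_le`; each
job is a nonempty interval by `Loc`). -/
theorem pathJob_disj (hN : 0 < N) (hl : ∀ ι ∈ l, Wf N m ι)
    (hs : ∀ t, ∀ ht : t < l.length, XStep N m l[t] (s t) (s (t + 1)))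
    (h0 : ∀ c < m, s 0 c < N) {c p p' : ℕ} (hc : c < m) (hpp : p < p')
    (hp : p' ≤ 3 * l.length) :
    (pathJob N l s c p).1.2 ≤ (pathJob N l s c p').1.1 := by
  induction p', hpp using Nat.le_induction with
  | base => exact pathJob_le hN hl hs h0 hc (by omega)
  | succ n hn ih =>
    have h1 := ih (by omega)
    obtain ⟨-, -, h2⟩ := pathJob_mem hN hl hs h0 hc (p := n) (by omega)
    have h3 := pathJob_le hN hl hs h0 hc (p := n) (by omega)
    have h4 := h2.2.1
    have h5 := h2.2.2.1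
    omega

/-- The paths of different machines have no job in common.
(By `Loc` a common job is in the same phase `p` for both machines.  If its list of machines is `[c]`
then `c = c'`.  Else it is the common job `[a, b]`, both `priv` are false, so
`{c, c'} = {a, b}`, `s t a = u`, `s t b = v`, contradicting `XStep`.) -/
theorem pathJob_ne (hN : 0 < N) (hl : ∀ ι ∈ l, Wf N m ι)
    (hs : ∀ t, ∀ ht : t < l.length, XStep N m l[t] (s t) (s (t + 1)))
    (h0 : ∀ c < m, s 0 c < N) {c c' p p' : ℕ} (hc : c < m) (hc' : c' < m) (hcc : c ≠ c')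
    (hp : p ≤ 3 * l.length) (hp' : p' ≤ 3 * l.length) :
    pathJob N l s c p ≠ pathJob N l s c' p' := by
  intro he
  obtain ⟨-, -, h1⟩ := pathJob_mem hN hl hs h0 hc hp
  obtain ⟨-, -, h2⟩ := pathJob_mem hN hl hs h0 hc' hp'
  rw [← he] at h2
  obtain rfl : p = p' := h1.unique h2
  have hne : ∀ x y : ℕ × ℕ, ((x, [c]) : RJob) ≠ (y, [c']) := by
    intro x y h
    exact hcc (List.singleton_injective (Prod.ext_iff.1 h).2)
  rcases phase_cases hp with ⟨t, ht, rfl⟩ | ⟨t, ht, rfl⟩ | ⟨t, ht, rfl⟩ | rfl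
  · rw [pj_A ht, pj_A ht] at he
    exact hne _ _ he
  · rw [pj_B ht, pj_B ht] at he
    have hlen : ∀ x y : ℕ × ℕ, ∀ a b d : ℕ, ((x, [a]) : RJob) ≠ (y, [b, d]) := by
      intro x y a b d h
      have := congrArg List.length (Prod.ext_iff.1 h).2
      simp at this
    split_ifs at he with h3 h4 h4
    · exact hne _ _ he
    · exact hlen _ _ _ _ _ he
    · exact hlen _ _ _ _ _ he.symm
    · rw [Bool.not_eq_true] at h3 h4
      obtain ⟨h5, h6⟩ := priv_false h3
      obtain ⟨-, h7⟩ := priv_false h4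
      have h8 := (hs t ht).2.1 h5
      rcases h6 with ⟨h6, h6'⟩ | ⟨h6, h6'⟩
      · rcases h7 with ⟨h7, h7'⟩ | ⟨h7, h7'⟩
        · exact hcc (h6.trans h7.symm)
        · exact h8 ⟨by rw [← h6]; exact h6', by rw [← h7]; exact h7'⟩
      · rcases h7 with ⟨h7, h7'⟩ | ⟨h7, h7'⟩
        · exact h8 ⟨by rw [← h7]; exact h7', by rw [← h6]; exact h6'⟩
        · exact hcc (h6.trans h7.symm)
  · rw [pj_C ht, pj_C ht] at he
    exact hne _ _ he
  · rw [pj_F, pj_F] at he
    exact hne _ _ he

end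

/-- **Completeness.**  A run without waiting gives a feasible schedule in which every machine is
busy in each phase.

Proof.  Take `s` from `seq_of_run`.  Let `σ i = some c` if `J.get i = toJob (pathJob N l s c p)` for
some `p ≤ 3L` (a choice; by `pathJob_ne` and `toJob_injective` the machine `c` is unique), and
`none` otherwise.  Feasibility: `elig` from `pathJob_mem`; `disj`: the phases are different since
otherwise `J.get i = J.get i'`, and `J` has no duplicates; use `pathJob_disj`.  `Covers`: the job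
`pathJob N l s c p` is in `jobs`, hence its `toJob` is in `J`, and its interval contains
`2Np + N` by `Loc`. -/
theorem exists_schedule_of_run {N m : ℕ} {l : List Instr} (hN : 0 < N) (hl : ∀ ι ∈ l, Wf N m ι)
    {J : List Job} (hJ : J = jobList N m l) {q q' : ℕ → ℕ} (hq : ∀ c < m, q c < N)
    (h : Run (XStep N m) l q q') :
    ∃ σ : Fin J.length → Option (Fin m), Feasible m J σ ∧ Covers N m (3 * l.length) J σ := by
  classical
  obtain ⟨s, hs0, -, hs⟩ := seq_of_run l q q' h
  have h0 : ∀ c < m, s 0 c < N := by rw [hs0]; exact hq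
  set σ : Fin J.length → Option (Fin m) := fun i =>
    if h : ∃ c : Fin m, ∃ p ≤ 3 * l.length, J.get i = toJob (pathJob N l s c p) then
      some h.choose else none with hσ
  have h1 : ∀ i a, σ i = some a → ∃ p ≤ 3 * l.length, J.get i = toJob (pathJob N l s a p) := by
    intro i a hi
    simp only [hσ] at hi
    split_ifs at hi with hex
    have h2 := hex.choose_spec
    rw [Option.some_injective _ hi] at h2
    exact h2
  have h2 : ∀ i (a : Fin m) p, p ≤ 3 * l.length → J.get i = toJob (pathJob N l s a p) →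
      σ i = some a := by
    intro i a p hp hi
    have hex : ∃ c : Fin m, ∃ p ≤ 3 * l.length, J.get i = toJob (pathJob N l s c p) :=
      ⟨a, p, hp, hi⟩
    simp only [hσ]
    rw [dif_pos hex]
    obtain ⟨p', hp', h3⟩ := hex.choose_spec
    have h4 := toJob_injective (hi.symm.trans h3)
    congr 1
    by_contra hne
    exact pathJob_ne hN hl hs h0 a.2 hex.choose.2 (fun h => hne (Fin.ext h.symm)) hp hp' h4
  refine ⟨σ, ⟨?_, ?_⟩, ?_⟩
  · intro i a hi
    obtain ⟨p, hp, h3⟩ := h1 i a hi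
    rw [h3, eligible_toJob]
    exact (pathJob_mem hN hl hs h0 a.2 hp).2.1
  · intro i j a hij hi hj
    obtain ⟨p, hp, h3⟩ := h1 i a hi
    obtain ⟨p', hp', h4⟩ := h1 j a hj
    rw [h3, h4, due_toJob, due_toJob, release_toJob, release_toJob]
    rcases lt_trichotomy p p' with h5 | rfl | h5
    · exact Or.inl (pathJob_disj hN hl hs h0 a.2 h5 hp')
    · exfalso
      apply hij
      have h6 : J.get i = J.get j := by rw [h3, h4]
      have h7 : J.Nodup := by rw [hJ]; exact nodup_jobList N m l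
      exact h7.injective_get h6
    · exact Or.inr (pathJob_disj hN hl hs h0 a.2 h5 hp)
  · intro a p hp
    obtain ⟨h3, -, h4⟩ := pathJob_mem hN hl hs h0 a.2 hp
    have h5 : toJob (pathJob N l s a p) ∈ J := by
      rw [hJ]
      exact mem_jobList.2 ⟨_, h3, rfl⟩
    obtain ⟨i, hi⟩ := List.mem_iff_get.1 h5
    refine ⟨i, h2 i a p hp hi, ?_, ?_⟩
    · rw [hi, release_toJob]
      exact h4.2.1.le
    · rw [hi, due_toJob]
      exact h4.2.2.1

end Pool.Agent.Lib.MP_f25cb6_lc.X
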