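import Mathlib

/-! # Counting the weight of a schedule by time slots -/

namespace Pool.Agent.Lib.MP_f25cb6_lc.X

open Finset

/-- The total weight of the accepted jobs is at most `m * |U|` if the weight of each job is the
number of slots of `U` that it occupies, and it is reached only if every machine is busy in each
slot of `U`. -/
theorem count_cover {n m : ℕ} (U : Finset ℕ) (S : Fin n → Finset ℕ) (hS : ∀ i, S i ⊆ U)
    (σ : Fin n → Option (Fin m))
    (hd : ∀ i j a, i ≠ j → σ i = some a → σ j = some a → Disjoint (S i) (S j)) :
    (m * U.card ≤ ∑ i, (if σ i = none then 0 else (S i).card)) ↔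
      ∀ a : Fin m, ∀ s ∈ U, ∃ i, σ i = some a ∧ s ∈ S i := by
  classical
  have h1 : ∑ i, (if σ i = none then 0 else (S i).card)
      = ∑ a : Fin m, ((univ.filter fun i => σ i = some a).biUnion S).card := by
    have h2 : ∀ a : Fin m, ((univ.filter fun i => σ i = some a).biUnion S).card
        = ∑ i, (if σ i = some a then (S i).card else 0) := by
      intro a
      rw [card_biUnion, sum_filter]
      intro i hi j hj hij
      simp only [mem_filter, mem_univ, true_and, mem_coe] at hi hj
      exact hd i j a hij hi hj
    simp only [h2]
    rw [sum_comm]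
    refine sum_congr rfl fun i _ => ?_
    rcases h : σ i with _ | a
    · simp
    · simp
  rw [h1]
  have h3 : ∀ a : Fin m, ((univ.filter fun i => σ i = some a).biUnion S) ⊆ U := by
    intro a s hs
    simp only [mem_biUnion, mem_filter, mem_univ, true_and] at hs
    obtain ⟨i, _, hi⟩ := hs
    exact hS i hi
  have h4 : ∀ a : Fin m, ((univ.filter fun i => σ i = some a).biUnion S).card ≤ U.card :=
    fun a => card_le_card (h3 a)
  constructor
  · intro h a s hs
    have h5 : ((univ.filter fun i => σ i = some a).biUnion S).card = U.card := by
      refine le_antisymm (h4 a) ?_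
      by_contra hlt
      push Not at hlt
      have h6 : ∑ b : Fin m, ((univ.filter fun i => σ i = some b).biUnion S).card
          < ∑ _b : Fin m, U.card :=
        sum_lt_sum (fun b _ => h4 b) ⟨a, mem_univ _, hlt⟩
      simp at h6
      omega
    have h7 := eq_of_subset_of_card_le (h3 a) h5.ge
    rw [← h7] at hs
    simp only [mem_biUnion, mem_filter, mem_univ, true_and] at hs
    exact hs
  · intro h
    have h5 : ∀ a : Fin m, ((univ.filter fun i => σ i = some a).biUnion S) = U := by
      intro a
      refine Subset.antisymm (h3 a) fun s hs => ?_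
      obtain ⟨i, hi, hs'⟩ := h a s hs
      simp only [mem_biUnion, mem_filter, mem_univ, true_and]
      exact ⟨i, hi, hs'⟩
    simp [h5]

end Pool.Agent.Lib.MP_f25cb6_lc.X
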