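import Pool.Agent.Lib.MP_f25cb6_lc.Defs

/-!
# More problems: chained cliques, weighted satisfiability, small weights

Chained multicoloured cliques, weighted satisfiability of arbitrary Boolean formulas, the
scheduling problem with small weights, and polynomial-time reductions between parameterized
problems.
-/

namespace Pool.Agent.Lib.MP_f25cb6_lc

open MP_634427_lc

/-! ## Chained multicoloured cliques -/

/-- A vertex of a chained graph: `((i, j), x)` is the vertex with name `x` in the part `V_i` that
has colour `j`. -/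
abbrev Vtx := (ℕ × ℕ) × ℕ

/-- `u` and `v` are adjacent in the graph with the list of edges `E`. -/
def Adj (E : List (Vtx × Vtx)) (u v : Vtx) : Prop := (u, v) ∈ E ∨ (v, u) ∈ E

/-- `(r, V, E)` is a chained graph with `k` colours: its list of vertices `V` is partitioned into
the parts `V_0, …, V_{r-1}`, each vertex has one of the colours `0, …, k-1`, and each edge joins
two different vertices, in the same part or in consecutive parts. -/
def IsChained (k r : ℕ) (V : List Vtx) (E : List (Vtx × Vtx)) : Prop :=
  (∀ u ∈ V, u.1.1 < r ∧ u.1.2 < k) ∧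
    ∀ e ∈ E, e.1 ∈ V ∧ e.2 ∈ V ∧ e.1 ≠ e.2 ∧ e.1.1.1 ≤ e.2.1.1 + 1 ∧ e.2.1.1 ≤ e.1.1.1 + 1

/-- `x i j` is the name of a vertex of colour `j` in the part `V_i`, and the chosen vertices of two
consecutive parts are pairwise adjacent. -/
def IsChainedClique (k r : ℕ) (V : List Vtx) (E : List (Vtx × Vtx)) (x : ℕ → ℕ → ℕ) : Prop :=
  (∀ i < r, ∀ j < k, ((i, j), x i j) ∈ V) ∧
    ∀ i < r, ∀ j < k, ∀ i' < r, ∀ j' < k, (i, j) ≠ (i', j') → i ≤ i' + 1 → i' ≤ i + 1 →
      Adj E ((i, j), x i j) ((i', j'), x i' j')

/-- The chained multicoloured clique problem (Bodlaender, Groenland, Nederlof, Swennenhuis), the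
standard complete problem for the class XNLP: the input is a chained graph with parts
`V_0, …, V_{r-1}` and `k` colours; the question is whether one can choose one vertex of each colour
in each part so that the chosen vertices in `V_i ∪ V_{i+1}` form a clique, for all `i`.  The
parameter, the second component of the pair, is the number `k` of colours. -/
def CMC : Set (Word × ℕ) :=
  {p | ∃ (r : ℕ) (V : List Vtx) (E : List (Vtx × Vtx)), p.1 = code (enc (r, (V, E))) ∧
    IsChained p.2 r V E ∧ ∃ x : ℕ → ℕ → ℕ, IsChainedClique p.2 r V E x}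

/-! ## Weighted satisfiability -/

/-- Boolean formulas. -/
inductive BF : Type
  | var : ℕ → BF
  | neg : BF → BF
  | and : BF → BF → BF
  | or : BF → BF → BF

/-- The formula is true if exactly the variables in `S` are true. -/
def BF.Holds (S : Finset ℕ) : BF → Prop
  | .var i => i ∈ S
  | .neg φ => ¬ φ.Holds S
  | .and φ ψ => φ.Holds S ∧ ψ.Holds S
  | .or φ ψ => φ.Holds S ∨ ψ.Holds S

/-- All variables of the formula are among `x₀, …, x_{n-1}`. -/
def BF.Below (n : ℕ) : BF → Prop
  | .var i => i < n
  | .neg φ => φ.Below n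
  | .and φ ψ => φ.Below n ∧ ψ.Below n
  | .or φ ψ => φ.Below n ∧ ψ.Below n

/-- The syntax tree of a formula. -/
def BF.toBT : BF → BT
  | .var i => .node (enc (0 : ℕ)) (enc i)
  | .neg φ => .node (enc (1 : ℕ)) φ.toBT
  | .and φ ψ => .node (enc (2 : ℕ)) (.node φ.toBT ψ.toBT)
  | .or φ ψ => .node (enc (3 : ℕ)) (.node φ.toBT ψ.toBT)

instance : Enc BF := ⟨BF.toBT⟩

/-- Weighted satisfiability of Boolean formulas, the standard complete problem for the class
`W[SAT]`, which contains all classes `W[t]`: the input is a Boolean formula in the variables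
`x₀, …, x_{n-1}`; the question is whether it has a satisfying assignment in which exactly `k`
variables are true.  The parameter, the second component of the pair, is `k`. -/
def WSAT : Set (Word × ℕ) :=
  {p | ∃ (n : ℕ) (φ : BF), p.1 = code (enc (n, φ)) ∧ φ.Below n ∧
    ∃ S : Finset ℕ, (∀ i ∈ S, i < n) ∧ S.card = p.2 ∧ φ.Holds S}

/-! ## Scheduling with small weights -/

/-- The restriction of the scheduling problem `SCHED` to instances in which all weights are at most
`|x| ^ c`, where `|x|` is the length of the input.  The parameter is the number of machines. -/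
def SCHEDPoly (c : ℕ) : Set (Word × ℕ) :=
  {p | ∃ (J : List Job) (b : Word), p.1 = code (enc ((p.2, J), b)) ∧ Valid p.2 J ∧
    (∀ t ∈ J, weight t ≤ p.1.length ^ c) ∧
    ∃ σ : Fin J.length → Option (Fin p.2), Feasible p.2 J σ ∧ bval b ≤ value J σ}

/-! ## Reductions -/

/-- `Q` is reducible to `Q'` in polynomial time, by a reduction that maps the parameter `k` to the
parameter `g k`. -/
def PolyReduces (g : ℕ → ℕ) (Q Q' : Set (Word × ℕ)) : Prop :=
  ∃ R : Word × ℕ → Word × ℕ, PT R ∧ ∀ p, (R p).2 = g p.2 ∧ (p ∈ Q ↔ R p ∈ Q')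

end Pool.Agent.Lib.MP_f25cb6_lc
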