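import Pool.Agent.Lib.MP_f25cb6_lc.X.SchedChain

/-! # A schedule gives a chained clique -/

namespace Pool.Agent.Lib.MP_f25cb6_lc.X

open MP_634427_lc MP_be4430_lc

private theorem SC_jb {J : List Job} {t : ℕ} (ht : t < J.length) : jb J t = J.get ⟨t, ht⟩ := by
  rw [jb, List.getD_eq_getElem _ _ ht, List.get_eq_getElem]

/-- the decisions -/
private def SC_d {m : ℕ} (J : List Job) (σ : Fin J.length → Option (Fin m)) (i : ℕ) : ℕ :=
  if h : i < J.length then ((σ ⟨od J i, od_lt J h⟩).elim 0 fun a => (a : ℕ) + 1) else 0

private theorem SC_d_eq {m : ℕ} {J : List Job} {σ : Fin J.length → Option (Fin m)} {i a : ℕ}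
    (h : SC_d J σ i = a + 1) : ∃ (hi : i < J.length) (ha : a < m),
      σ ⟨od J i, od_lt J hi⟩ = some ⟨a, ha⟩ := by
  unfold SC_d at h
  split_ifs at h with hi
  refine ⟨hi, ?_⟩
  cases hs : σ ⟨od J i, od_lt J hi⟩ with
  | none => rw [hs] at h; simp at h
  | some b =>
    rw [hs] at h
    simp only [Option.elim_some, Nat.add_right_cancel_iff] at h
    exact ⟨h ▸ b.2, by congr 1; exact Fin.ext h⟩

private theorem SC_d_le {m : ℕ} {J : List Job} {σ : Fin J.length → Option (Fin m)} (i : ℕ) :
    SC_d J σ i ≤ m := by
  rcases hd : SC_d J σ i with _ | a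
  · exact Nat.zero_le _
  · obtain ⟨_, ha, _⟩ := SC_d_eq hd
    exact ha

/-- the last jobs on the machines -/
private def SC_q {m : ℕ} (J : List Job) (σ : Fin J.length → Option (Fin m)) : ℕ → ℕ → ℕ
  | 0, _ => 0
  | i + 1, a => if SC_d J σ i = a + 1 then od J i + 1 else SC_q J σ i a

private theorem SC_q_spec {m : ℕ} {J : List Job} {σ : Fin J.length → Option (Fin m)} (i a : ℕ) :
    SC_q J σ i a = 0 ∨ ∃ s < i, SC_d J σ s = a + 1 ∧ SC_q J σ i a = od J s + 1 := by
  induction i with
  | zero => exact Or.inl rfl
  | succ i ih =>
    rw [SC_q]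
    split_ifs with h
    · exact Or.inr ⟨i, Nat.lt_succ_self i, h, rfl⟩
    · rcases ih with h0 | ⟨s, hs, h1, h2⟩
      · exact Or.inl h0
      · exact Or.inr ⟨s, Nat.lt_succ_of_lt hs, h1, h2⟩

private theorem SC_q_le {m : ℕ} {J : List Job} {σ : Fin J.length → Option (Fin m)} (i a : ℕ) :
    SC_q J σ i a ≤ J.length := by
  rcases SC_q_spec (J := J) (σ := σ) i a with h | ⟨s, _, h1, h2⟩
  · rw [h]; exact Nat.zero_le _
  · obtain ⟨hs, _, _⟩ := SC_d_eq h1
    rw [h2]
    exact od_lt J hs

/-- the weight of the decision number `i` -/
private def SC_w {m : ℕ} (J : List Job) (σ : Fin J.length → Option (Fin m)) (i : ℕ) : ℕ :=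
  if SC_d J σ i = 0 then 0 else weight (jb J (od J i))

/-- the sums -/
private def SC_c {m : ℕ} (J : List Job) (σ : Fin J.length → Option (Fin m)) (i : ℕ) : ℕ :=
  ∑ s ∈ Finset.range i, SC_w J σ s

/-- the weight of a job -/
private def SC_g {m : ℕ} (J : List Job) (σ : Fin J.length → Option (Fin m)) (t : ℕ) : ℕ :=
  if h : t < J.length then (if (σ ⟨t, h⟩).isSome then weight (J.get ⟨t, h⟩) else 0) else 0

private theorem SC_w_eq {m : ℕ} {J : List Job} {σ : Fin J.length → Option (Fin m)} {i : ℕ}
    (hi : i < J.length) : SC_w J σ i = SC_g J σ (od J i) := by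
  unfold SC_w SC_g SC_d
  rw [dif_pos hi, dif_pos (od_lt J hi), SC_jb (od_lt J hi)]
  cases hs : σ ⟨od J i, od_lt J hi⟩ with
  | none => simp
  | some b => simp

private theorem SC_c_length {m : ℕ} {J : List Job} {σ : Fin J.length → Option (Fin m)} :
    SC_c J σ J.length = value J σ := by
  have h1 : SC_c J σ J.length = ∑ t ∈ Finset.range J.length, SC_g J σ t := by
    unfold SC_c
    refine Finset.sum_nbij (od J) ?_ ?_ ?_ ?_
    · intro i hi
      exact Finset.mem_range.2 (od_lt J (Finset.mem_range.1 hi))
    · intro i hi i' hi' h
      exact od_inj J (by simpa using hi) (by simpa using hi') h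
    · intro t ht
      obtain ⟨i, hi, h⟩ := od_surj J (t := t) (by simpa using ht)
      exact ⟨i, by simpa using hi, h⟩
    · intro i hi
      exact SC_w_eq (Finset.mem_range.1 hi)
  rw [h1, Finset.sum_range]
  unfold value
  refine Finset.sum_congr rfl fun j _ => ?_
  unfold SC_g
  rw [dif_pos j.2]

private theorem SC_value_le {m : ℕ} {J : List Job} {σ : Fin J.length → Option (Fin m)} :
    value J σ ≤ (J.map weight).sum := by
  rw [← Fin.sum_univ_fun_getElem]
  unfold value
  refine Finset.sum_le_sum fun j _ => ?_
  split_ifs
  · exact le_of_eq (by rw [List.get_eq_getElem])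
  · exact Nat.zero_le _

private theorem SC_c_le {m : ℕ} {J : List Job} {σ : Fin J.length → Option (Fin m)} {i : ℕ}
    (hi : i ≤ J.length) : SC_c J σ i ≤ (J.map weight).sum := by
  refine le_trans ?_ (SC_value_le (σ := σ))
  rw [← SC_c_length]
  exact Finset.sum_le_sum_of_subset (Finset.range_subset_range.2 hi)

/-- **A schedule gives a chained clique.**

Proof.  Let `d i = 0` if `i ≥ n` or `σ (od J i) = none`, and `d i = a + 1` if
`σ (od J i) = some a`.  Let `q 0 a = 0`, `q (i+1) a = od J i + 1` if `d i = a + 1`, and
`q (i+1) a = q i a` otherwise; `c 0 = 0`, `c (i+1) = c i + (if d i = 0 then 0 else w (od J i))`.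
Let `f i a = (q i a, 0)` for `a < m` and `f i m = (d i, c i)`.  By induction, `q i a = 0` or
`q i a = od J s + 1` for some `s < i` with `d s = a + 1`; in the second case, if `d i = a + 1`, the
jobs `od J s ≠ od J i` are on the same machine and do not overlap, and since
`release (od J s) ≤ release (od J i) < due (od J i)` (by `od_sorted` and validity) the job `od J s`
is due before the release of `od J i`.  The sums `c i` are at most the sum of all weights, and
`c n = value J σ` (reindex with `od J`, by `od_lt`, `od_inj`, `od_surj`). -/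
theorem exists_labels_of_schedule {m : ℕ} {J : List Job} {W : ℕ} (hv : Valid m J)
    {σ : Fin J.length → Option (Fin m)} (hf : Feasible m J σ) (hW : W ≤ value J σ) :
    ∃ f : ℕ → ℕ → ℕ × ℕ,
      (∀ i < J.length + 1, ∀ j < m + 1,
        ((i, j), f i j) ∈ slabs m J (J.map weight).sum W) ∧
      (∀ i < J.length + 1, ∀ j < m + 1, ∀ j' < m + 1, j ≠ j' →
        sadj m J (J.map weight) ((i, j), f i j) ((i, j'), f i j') = true ∨
          sadj m J (J.map weight) ((i, j'), f i j') ((i, j), f i j) = true) ∧
      ∀ i, i + 1 < J.length + 1 → ∀ j < m + 1, ∀ j' < m + 1,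
        sadj m J (J.map weight) ((i, j), f i j) ((i + 1, j'), f (i + 1) j') = true := by
  refine ⟨fun i a => if a < m then (SC_q J σ i a, 0) else (SC_d J σ i, SC_c J σ i), ?_, ?_, ?_⟩
  · intro i hi j hj
    beta_reduce
    by_cases hjm : j < m
    · rw [if_pos hjm, mem_slabs]
      have h1 := SC_q_le (J := J) (σ := σ) i j
      refine ⟨⟨by omega, by omega, by omega, Nat.zero_le _⟩, ?_⟩
      unfold okLab
      rw [if_pos (show (((i, j), (SC_q J σ i j, 0)) : Lab).1.2 < m from hjm)]
      simp only [decide_true, Bool.true_and, Bool.and_eq_true, Bool.or_eq_true, decide_eq_true_eq]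
      refine ⟨h1, ?_⟩
      rcases Nat.eq_zero_or_pos i with rfl | hpos
      · exact Or.inr rfl
      · exact Or.inl (by omega)
    · rw [if_neg hjm, mem_slabs]
      have h1 := SC_d_le (J := J) (σ := σ) i
      refine ⟨⟨by omega, by omega, by omega, SC_c_le (by omega)⟩, ?_⟩
      unfold okLab
      rw [if_neg (show ¬ (((i, j), (SC_d J σ i, SC_c J σ i)) : Lab).1.2 < m from hjm)]
      simp only [Bool.and_eq_true, Bool.or_eq_true, decide_eq_true_eq]
      constructor
      · rcases Nat.eq_zero_or_pos i with rfl | hpos
        · exact Or.inr (by simp [SC_c])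
        · exact Or.inl (by omega)
      · by_cases hin : i < J.length
        · rw [if_pos hin]
          simp only [Bool.or_eq_true, decide_eq_true_eq]
          rcases hd : SC_d J σ i with _ | a
          · exact Or.inl rfl
          · right
            obtain ⟨hi', ha, hs⟩ := SC_d_eq hd
            rw [Nat.add_sub_cancel, SC_jb (od_lt J hi')]
            exact hf.elig _ _ hs
        · rw [if_neg hin]
          obtain rfl : i = J.length := by omega
          simp only [Bool.and_eq_true, decide_eq_true_eq]
          refine ⟨?_, ?_⟩
          · unfold SC_d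
            rw [dif_neg (lt_irrefl _)]
          · rw [SC_c_length]
            exact hW
  · intro i _ j _ j' _ hne
    left
    unfold sadj
    simp [hne]
  · intro i hi j hj j' hj'
    have hin : i < J.length := by omega
    have key : ∀ x y : ℕ × ℕ, sadj m J (J.map weight) ((i, j), x) ((i + 1, j'), y) =
        if j < m then
          if j' < m then
            !decide (j = j') || (decide (y.1 = x.1) ||
              (decide (y.1 = od J i + 1) && (decide (x.1 = 0) ||
                decide (due (jb J (x.1 - 1)) ≤ release (jb J (od J i))))))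
          else true
        else
          if j' < m then
            decide (x.1 = j' + 1) == decide (y.1 = od J i + 1)
          else decide (y.2 = x.2 + (if x.1 = 0 then 0 else (J.map weight).getD (od J i) 0)) := by
      intro x y
      unfold sadj
      dsimp only
      rw [if_neg (by omega), if_pos rfl]
    beta_reduce
    by_cases h1 : j < m
    · by_cases h2 : j' < m
      · rw [if_pos h1, if_pos h2, key, if_pos h1, if_pos h2]
        by_cases hjj : j = j'
        · subst hjj
          simp only [decide_true, Bool.not_true, Bool.false_or, Bool.or_eq_true, Bool.and_eq_true,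
            decide_eq_true_eq]
          rw [SC_q]
          split_ifs with hd
          · right
            refine ⟨rfl, ?_⟩
            rcases SC_q_spec (J := J) (σ := σ) i j with h0 | ⟨s, hs, hds, hqs⟩
            · exact Or.inl h0
            · right
              obtain ⟨hs', ha, e1⟩ := SC_d_eq hds
              obtain ⟨hi', _, e2⟩ := SC_d_eq hd
              rw [hqs, Nat.add_sub_cancel, SC_jb (od_lt J hs'), SC_jb (od_lt J hi')]
              have hne : (⟨od J s, od_lt J hs'⟩ : Fin J.length) ≠ ⟨od J i, od_lt J hi'⟩ := by
                intro h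
                have := od_inj J hs' hi' (congrArg Fin.val h)
                omega
              rcases hf.disj _ _ _ hne e1 e2 with h | h
              · exact h
              · exfalso
                have h3 := od_sorted J hs hi'
                rw [SC_jb (od_lt J hs'), SC_jb (od_lt J hi')] at h3
                have h4 := (hv (J.get ⟨od J i, od_lt J hi'⟩) (List.get_mem _ _)).1
                omega
          · exact Or.inl rfl
        · simp [hjj]
      · rw [key, if_pos h1, if_neg h2]
    · by_cases h2 : j' < m
      · rw [if_neg h1, if_pos h2, key, if_neg h1, if_pos h2]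
        rw [beq_iff_eq, decide_eq_decide]
        dsimp only
        rw [SC_q]
        constructor
        · intro h
          rw [if_pos h]
        · intro h
          by_contra hno
          rw [if_neg hno] at h
          rcases SC_q_spec (J := J) (σ := σ) i j' with h0 | ⟨s, hs, hds, hqs⟩
          · omega
          · obtain ⟨hs', _, _⟩ := SC_d_eq hds
            have := od_inj J hs' hin (by omega)
            omega
      · rw [if_neg h1, if_neg h2, key, if_neg h1, if_neg h2]
        rw [decide_eq_true_eq]
        dsimp only
        unfold SC_c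
        rw [Finset.sum_range_succ]
        congr 1
        unfold SC_w
        split_ifs
        · rfl
        · rw [List.getD_eq_getElem _ _ (by rw [List.length_map]; exact od_lt J hin),
            List.getElem_map, SC_jb (od_lt J hin), List.get_eq_getElem]

end Pool.Agent.Lib.MP_f25cb6_lc.X
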