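import Pool.Agent.Lib.MP_f25cb6_lc.X.SchedSound
import Pool.Agent.Lib.MP_f25cb6_lc.X.SchedComplete
import Pool.Agent.Lib.MP_be4430_lc.M7_Parse

/-! # Scheduling with small weights reduces to the chained clique problem -/

namespace Pool.Agent.Lib.MP_f25cb6_lc.X

open MP_634427_lc MP_be4430_lc

/-! ### The graph is computable in polynomial time -/

section PT

variable {γ : Type} [Enc γ]

theorem pt_release {t : γ → Job} {u : γ → Job} (ht : PT t) (hu : PT u) :
    PT fun g => decide (due (t g) ≤ release (u g)) := by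
  unfold due release
  exact pt_bvalLe (PT.snd' (PT.fst' ht)) (PT.fst' (PT.fst' hu))

theorem pt_okLab {m W : γ → ℕ} {J : γ → List Job} {l : γ → Lab} (hm : PT m) (hJ : PT J) (hW : PT W)
    (hl : PT l) : PT fun g => okLab (m g) (J g) (W g) (l g) := by
  have hi : PT fun g => (l g).1.1 := PT.fst' (PT.fst' hl)
  have ha : PT fun g => (l g).1.2 := PT.snd' (PT.fst' hl)
  have hp : PT fun g => (l g).2.1 := PT.fst' (PT.snd' hl)
  have hc : PT fun g => (l g).2.2 := PT.snd' (PT.snd' hl)
  have hn : PT fun g => (J g).length := PT.length hJ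
  have hne : ∀ {f : γ → ℕ}, PT f → PT fun g => decide (f g ≠ 0) := fun hf =>
    (PT.not (PT.isZero hf)).of_eq fun g => by simp
  unfold okLab
  refine PT.ite (PT.lt ha hm) ?_ ?_
  · exact PT.and (PT.isZero hc) (PT.and (PT.le hp hn) (PT.or (hne hi) (PT.isZero hp)))
  · refine PT.and (PT.or (hne hi) (PT.isZero hc)) (PT.ite (PT.lt hi hn) ?_ ?_)
    · unfold eligible
      exact PT.or (PT.isZero hp) (pt_memD (PT.sub hp (PT.const 1))
        (PT.snd' (PT.snd' (pt_jb hJ (pt_od hJ hi)))))
    · exact PT.and (PT.isZero hp) (PT.le hW hc)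

theorem pt_slabs {m B W : γ → ℕ} {J : γ → List Job} (hm : PT m) (hJ : PT J) (hB : PT B)
    (hW : PT W) : PT fun g => slabs (m g) (J g) (B g) (W g) := by
  unfold slabs
  refine PT.filter (p := fun g l => okLab (m g) (J g) (W g) l) ?_
    (pt_okLab (hm.comp PT.fst) (hJ.comp PT.fst) (hW.comp PT.fst) PT.snd)
  refine PT.flatMap (f := fun g i => (List.range (m g + 1)).flatMap fun a =>
    (List.range ((J g).length + m g + 1)).flatMap fun p => (List.range (B g + 1)).map fun c =>
      ((i, a), (p, c))) (PT.range (PT.succ (PT.length hJ))) ?_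
  refine PT.flatMap (f := fun (q : γ × ℕ) a =>
    (List.range ((J q.1).length + m q.1 + 1)).flatMap fun p =>
      (List.range (B q.1 + 1)).map fun c => ((q.2, a), (p, c)))
      (PT.range (PT.succ (hm.comp PT.fst))) ?_
  refine PT.flatMap (f := fun (q : (γ × ℕ) × ℕ) p =>
      (List.range (B q.1.1 + 1)).map fun c => ((q.1.2, q.2), (p, c)))
      (PT.range (PT.succ (PT.add (PT.length (hJ.comp (PT.fst' PT.fst)))
        (hm.comp (PT.fst' PT.fst))))) ?_
  refine PT.map (f := fun (q : ((γ × ℕ) × ℕ) × ℕ) c => ((q.1.1.2, q.1.2), (q.2, c)))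
      (PT.range (PT.succ (hB.comp (PT.fst' (PT.fst' PT.fst))))) ?_
  exact PT.pair (PT.pair (PT.snd' (PT.fst' (PT.fst' PT.fst))) (PT.snd' (PT.fst' PT.fst)))
    (PT.pair (PT.snd' PT.fst) PT.snd)

theorem pt_sadj {m : γ → ℕ} {J : γ → List Job} {ws : γ → List ℕ} {l l' : γ → Lab} (hm : PT m)
    (hJ : PT J) (hws : PT ws) (hl : PT l) (hl' : PT l') :
    PT fun g => sadj (m g) (J g) (ws g) (l g) (l' g) := by
  have hi : PT fun g => (l g).1.1 := PT.fst' (PT.fst' hl)
  have ha : PT fun g => (l g).1.2 := PT.snd' (PT.fst' hl)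
  have hp : PT fun g => (l g).2.1 := PT.fst' (PT.snd' hl)
  have hc : PT fun g => (l g).2.2 := PT.snd' (PT.snd' hl)
  have hi' : PT fun g => (l' g).1.1 := PT.fst' (PT.fst' hl')
  have ha' : PT fun g => (l' g).1.2 := PT.snd' (PT.fst' hl')
  have hp' : PT fun g => (l' g).2.1 := PT.fst' (PT.snd' hl')
  have hc' : PT fun g => (l' g).2.2 := PT.snd' (PT.snd' hl')
  have ho := pt_od hJ hi
  unfold sadj
  refine PT.ite (PT.eqNat hi hi') (PT.not (PT.eqNat ha ha')) (PT.ite (PT.eqNat (PT.succ hi) hi')
    (PT.ite (PT.lt ha hm) (PT.ite (PT.lt ha' hm) ?_ (PT.const true))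
      (PT.ite (PT.lt ha' hm) ?_ ?_)) (PT.const false))
  · exact PT.or (PT.not (PT.eqNat ha ha')) (PT.or (PT.eqNat hp' hp)
      (PT.and (PT.eqNat hp' (PT.succ ho)) (PT.or (PT.isZero hp)
        (pt_release (pt_jb hJ (PT.sub hp (PT.const 1))) (pt_jb hJ ho)))))
  · exact PT.beqBool (PT.eqNat hp (PT.succ ha')) (PT.eqNat hp' (PT.succ ho))
  · exact PT.eqNat hc' (PT.add hc (PT.ite (PT.isZero hp) (PT.const 0)
      (PT.getLD ho hws (PT.const 0))))

end PT

/-! ### The reduction -/

/-- the type of the instances of `SCHED` -/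
abbrev SInst := (ℕ × List Job) × Word

/-- Boolean version of the conditions of `SCHEDPoly`; `B` is the bound for the weights -/
def schedB (m B : ℕ) (I : SInst) : Bool :=
  decide (I.1.1 = m) && I.1.2.all fun t => (!decide (due t ≤ release t) &&
    (eligible t).all fun i => decide (i < m)) && decide (min (weight t) (B + 1) ≤ B)

theorem schedB_iff (m B : ℕ) (I : SInst) : schedB m B I = true ↔
    I.1.1 = m ∧ Valid m I.1.2 ∧ ∀ t ∈ I.1.2, weight t ≤ B := by
  simp only [schedB, Valid, Bool.and_eq_true, List.all_eq_true, decide_eq_true_eq,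
    Bool.not_eq_true', decide_eq_false_iff_not, not_le]
  refine and_congr_right fun _ => ?_
  constructor
  · intro h
    refine ⟨fun t ht => (h t ht).1, fun t ht => ?_⟩
    have := (h t ht).2
    omega
  · rintro ⟨h1, h2⟩ t ht
    refine ⟨h1 t ht, ?_⟩
    have := h2 t ht
    omega

/-- the weights, cut off at `B` -/
def weights (B : ℕ) (J : List Job) : List ℕ := J.map fun t => min (weight t) B

/-- the sum of a list -/
def total (l : List ℕ) : ℕ := l.foldr (fun a n => a + n) 0

theorem total_eq (l : List ℕ) : total l = l.sum := rfl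

theorem weights_eq {B : ℕ} {J : List Job} (h : ∀ t ∈ J, weight t ≤ B) :
    weights B J = J.map weight := by
  unfold weights
  exact List.map_congr_left fun t ht => min_eq_left (h t ht)

/-- the chained graph of an instance -/
def schedGraph (m : ℕ) (J : List Job) (ws : List ℕ) (W : ℕ) :
    ℕ × (List Vtx × List (Vtx × Vtx)) :=
  (J.length + 1, (mkV (J.length + m + 1) (slabs m J (total ws) W),
    mkE (J.length + m + 1) (slabs m J (total ws) W) (sadj m J ws)))

/-- the reduction from `SCHEDPoly c` to `CMC` -/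
def red2 (c : ℕ) (p : Word × ℕ) : Word × ℕ :=
  (bif isCode SInst p.1 && schedB p.2 (p.1.length ^ c) (parse SInst p.1) then
    code (enc (schedGraph p.2 (parse SInst p.1).1.2
      (weights (p.1.length ^ c) (parse SInst p.1).1.2)
      (min (bval (parse SInst p.1).2)
        (total (weights (p.1.length ^ c) (parse SInst p.1).1.2) + 1))))
    else [], p.2 + 1)

theorem value_le {m : ℕ} (J : List Job) (σ : Fin J.length → Option (Fin m)) :
    value J σ ≤ (J.map weight).sum := by
  unfold value
  have h1 : (J.map weight).sum = ∑ j : Fin J.length, weight (J.get j) := by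
    conv_lhs => rw [← List.ofFn_get J, List.map_ofFn, List.sum_ofFn]
    rfl
  rw [h1]
  refine Finset.sum_le_sum fun j _ => ?_
  split_ifs
  · exact le_rfl
  · exact Nat.zero_le _

/-- **Correctness of the construction.** -/
theorem schedGraph_iff {m : ℕ} {J : List Job} (hv : Valid m J) (b : ℕ) :
    (∃ x, IsChainedClique (m + 1) (J.length + 1)
      (mkV (J.length + m + 1) (slabs m J (J.map weight).sum (min b ((J.map weight).sum + 1))))
      (mkE (J.length + m + 1) (slabs m J (J.map weight).sum (min b ((J.map weight).sum + 1)))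
        (sadj m J (J.map weight))) x) ↔
    ∃ σ : Fin J.length → Option (Fin m), Feasible m J σ ∧ b ≤ value J σ := by
  rw [mk_clique_iff slabs_props (sadj_props _)]
  constructor
  · rintro ⟨f, h1, _, h3⟩
    obtain ⟨σ, hf, hW⟩ := exists_schedule_of_plan hv (plan_of_labels h1 h3)
    refine ⟨σ, hf, ?_⟩
    have := value_le J σ
    omega
  · rintro ⟨σ, hf, hb⟩
    exact exists_labels_of_schedule hv hf (le_trans (min_le_left _ _) hb)

theorem red2_iff (c : ℕ) (p : Word × ℕ) : p ∈ SCHEDPoly c ↔ red2 c p ∈ CMC := by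
  obtain ⟨w, m⟩ := p
  by_cases hc : (isCode SInst w && schedB m (w.length ^ c) (parse SInst w)) = true
  · have h1 : red2 c (w, m) = (code (enc (schedGraph m (parse SInst w).1.2
      (weights (w.length ^ c) (parse SInst w).1.2)
      (min (bval (parse SInst w).2)
        (total (weights (w.length ^ c) (parse SInst w).1.2) + 1)))), m + 1) := by
      unfold red2
      simp only [hc, cond_true]
    rw [Bool.and_eq_true] at hc
    obtain ⟨⟨⟨m', J⟩, b⟩, rfl⟩ := (isCode_iff w).1 hc.1
    rw [parse_code] at h1 hc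
    obtain ⟨h2, hv, hw⟩ := (schedB_iff _ _ _).1 hc.2
    simp only at h2 hv hw
    subst h2
    rw [h1, weights_eq hw, total_eq]
    have key := schedGraph_iff hv (bval b)
    constructor
    · rintro ⟨J', b', hw', _, _, σ, hf, hb⟩
      have h3 := codeEnc_injective (α := SInst) hw'
      simp only [Prod.mk.injEq] at h3
      obtain ⟨⟨_, rfl⟩, rfl⟩ := h3
      exact ⟨_, _, _, rfl, mk_isChained slabs_props (sadj_props _), key.2 ⟨σ, hf, hb⟩⟩
    · rintro ⟨r, V, E, hw', _, hx⟩
      have h3 := codeEnc_injective (α := ℕ × (List Vtx × List (Vtx × Vtx))) hw'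
      simp only [schedGraph, Prod.mk.injEq] at h3
      obtain ⟨rfl, rfl, rfl⟩ := h3
      obtain ⟨σ, hf, hb⟩ := key.1 hx
      exact ⟨J, b, rfl, hv, hw, σ, hf, hb⟩
  · have h1 : red2 c (w, m) = ([], m + 1) := by
      unfold red2
      simp only [Bool.not_eq_true] at hc
      simp only [hc, cond_false]
    rw [h1]
    constructor
    · rintro ⟨J, b, hw, hv, hww, _⟩
      exfalso
      apply hc
      rw [Bool.and_eq_true]
      simp only at hw hv hww
      subst hw
      refine ⟨(isCode_iff _).2 ⟨((m, J), b), rfl⟩, ?_⟩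
      rw [parse_code]
      exact (schedB_iff _ _ _).2 ⟨rfl, hv, hww⟩
    · rintro ⟨r, V, E, hw, _⟩
      exact absurd hw (nil_ne_code _)

theorem pt_total {γ : Type} [Enc γ] {l : γ → List ℕ} (hl : PT l) : PT fun g => total (l g) := by
  unfold total
  refine PT.foldr_add (f := fun (_ : γ) (a n : ℕ) => a + n) hl (PT.const 0)
    (PT.add (PT.fst' PT.snd) (PT.snd' PT.snd)) ?_
  obtain ⟨k, hk⟩ := hl.size_le
  refine ⟨k, fun g a n ha => ?_⟩
  have h1 := sz_mem_le ha
  have h2 := hk g
  rw [sz_nat] at h1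
  rw [sz_nat, sz_nat]
  omega

theorem pt_schedB {γ : Type} [Enc γ] {m B : γ → ℕ} {I : γ → SInst} (hm : PT m) (hB : PT B)
    (hI : PT I) : PT fun g => schedB (m g) (B g) (I g) := by
  unfold schedB
  refine PT.and (PT.eqNat (PT.fst' (PT.fst' hI)) hm) (PT.all (p := fun g t =>
    (!decide (due t ≤ release t) && (eligible t).all fun i => decide (i < m g)) &&
      decide (min (weight t) (B g + 1) ≤ B g)) (PT.snd' (PT.fst' hI)) ?_)
  refine PT.and (PT.and (PT.not (pt_release PT.snd PT.snd)) ?_) ?_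
  · unfold eligible
    exact PT.all (p := fun (q : γ × Job) i => decide (i < m q.1)) (PT.snd' (PT.snd' PT.snd))
      (PT.lt PT.snd (hm.comp (PT.fst' PT.fst)))
  · unfold weight
    exact PT.le (pt_minBval (PT.fst' (PT.snd' PT.snd)) (PT.succ (hB.comp PT.fst)))
      (hB.comp PT.fst)

theorem pt_weights {γ : Type} [Enc γ] {B : γ → ℕ} {J : γ → List Job} (hB : PT B) (hJ : PT J) :
    PT fun g => weights (B g) (J g) := by
  unfold weights weight
  exact PT.map (f := fun g t => min (bval t.2.1) (B g)) hJ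
    (pt_minBval (PT.fst' (PT.snd' PT.snd)) (hB.comp PT.fst))

theorem pt_schedGraph {γ : Type} [Enc γ] {m W : γ → ℕ} {J : γ → List Job} {ws : γ → List ℕ}
    (hm : PT m) (hJ : PT J) (hws : PT ws) (hW : PT W) :
    PT fun g => schedGraph (m g) (J g) (ws g) (W g) := by
  have hP : PT fun g => (J g).length + m g + 1 := PT.succ (PT.add (PT.length hJ) hm)
  have hL := pt_slabs hm hJ (pt_total hws) hW
  unfold schedGraph
  refine PT.pair (PT.succ (PT.length hJ)) (PT.pair (pt_mkV hP hL)
    (pt_mkE (A := fun g => sadj (m g) (J g) (ws g)) hP hL ?_))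
  exact pt_sadj (hm.comp PT.fst) (hJ.comp PT.fst) (hws.comp PT.fst) (PT.fst' PT.snd)
    (PT.snd' PT.snd)

theorem pt_red2 (c : ℕ) : PT (red2 c) := by
  have hI : PT fun p : Word × ℕ => parse SInst p.1 := pt_parse PT.fst
  have hm : PT fun p : Word × ℕ => p.2 := PT.snd
  have hB : PT fun p : Word × ℕ => p.1.length ^ c := PT.pow (PT.length PT.fst) c
  have hJ : PT fun p : Word × ℕ => (parse SInst p.1).1.2 := PT.snd' (PT.fst' hI)
  have hws := pt_weights hB hJ
  unfold red2
  exact PT.pair (PT.cond (PT.and (pt_isCode PT.fst) (pt_schedB hm hB hI))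
    (pt_codeEnc (pt_schedGraph hm hJ hws (pt_minBval (PT.snd' hI) (PT.succ (pt_total hws)))))
    (PT.const [])) (PT.succ hm)

/-- Scheduling jobs with weights at most `|x| ^ c` on `m` machines reduces to chained multicoloured
clique with `m + 1` colours. -/
theorem schedPoly_le_cmc (c : ℕ) : PolyReduces (fun m => m + 1) (SCHEDPoly c) CMC :=
  ⟨red2 c, pt_red2 c, fun p => ⟨rfl, red2_iff c p⟩⟩

end Pool.Agent.Lib.MP_f25cb6_lc.X
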