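import Pool.Agent.Lib.MP_634427_lc.Data
import Pool.Agent.Lib.MP_be4430_lc.P2_Lists

/-! # Parsing words -/

namespace Pool.Agent.Lib.MP_f25cb6_lc.X

open MP_634427_lc MP_be4430_lc

/-- A polynomial-time decoding function. -/
class Dec (α : Type) [Enc α] where
  /-- the decoding function -/
  dec : BT → α
  dec_enc : ∀ a, dec (enc a) = a
  pt_dec : PT dec

export Dec (dec dec_enc pt_dec)

attribute [simp] dec_enc

section

variable {α β γ : Type} [Enc α] [Enc β] [Enc γ]

instance : Dec Bool where
  dec t := decide (t ≠ .nil)
  dec_enc b := by cases b <;> simp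
  pt_dec := (PT.not (pt_eqBT PT.id (PT.const BT.nil))).of_eq fun c => by simp

instance : Dec ℕ where
  dec t := spine t
  dec_enc n := by rw [enc_nat, spine_un]
  pt_dec := pt_spine PT.id

instance [Dec α] [Dec β] : Dec (α × β) where
  dec t := (dec t.left, dec t.right)
  dec_enc p := by
    obtain ⟨a, b⟩ := p
    show (dec (enc a), dec (enc b)) = (a, b)
    rw [dec_enc, dec_enc]
  pt_dec := PT.pair (pt_dec.comp (pt_left PT.id)) (pt_dec.comp (pt_right PT.id))

/-- the list of the left subtrees along the right spine -/
def toL : BT → List BT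
  | .nil => []
  | .node a b => a :: toL b

theorem enc_toL (T : BT) : enc (toL T) = T := by
  induction T with
  | nil => rfl
  | node a b _ ih =>
    show BT.node a (enc (toL b)) = _
    rw [ih]

theorem toL_enc (l : List α) : toL (enc l) = l.map enc := by
  induction l with
  | nil => rfl
  | cons a l ih =>
    rw [enc_cons, List.map_cons, ← ih]
    rfl

theorem pt_toL {t : γ → BT} (ht : PT t) : PT fun c => toL (t c) := by
  obtain ⟨F, hF, h⟩ := ht
  refine ⟨F, hF, fun c => ?_⟩
  rw [h, enc_toL]
  rfl

instance [Dec α] : Dec (List α) where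
  dec t := (toL t).map dec
  dec_enc l := by
    rw [toL_enc, List.map_map]
    refine (List.map_congr_left (g := id) fun e _ => ?_).trans (List.map_id _)
    exact dec_enc e
  pt_dec := PT.map (f := fun _ u => dec u) (pt_toL PT.id) (pt_dec.comp PT.snd)

/-- The object coded by a word. -/
def parse (α : Type) [Enc α] [Dec α] (w : Word) : α := dec (decode w)

/-- Is the word the code of an object of type `α`? -/
def isCode (α : Type) [Enc α] [Dec α] (w : Word) : Bool :=
  decide (code (enc (parse α w)) = w)

@[simp] theorem parse_code [Dec α] (a : α) : parse α (code (enc a)) = a := by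
  unfold parse
  rw [decode_code, dec_enc]

theorem isCode_iff [Dec α] (w : Word) : isCode α w = true ↔ ∃ a : α, w = code (enc a) := by
  unfold isCode
  rw [decide_eq_true_iff]
  constructor
  · intro h
    exact ⟨_, h.symm⟩
  · rintro ⟨a, rfl⟩
    rw [parse_code]

theorem pt_parse [Dec α] {w : γ → Word} (hw : PT w) : PT fun c => parse α (w c) :=
  pt_dec.comp (PT.decode hw)

theorem pt_enc {f : γ → α} (hf : PT f) : PT fun c => (enc (f c) : BT) := by
  obtain ⟨F, hF, h⟩ := hf
  exact ⟨F, hF, h⟩

theorem pt_codeEnc {f : γ → α} (hf : PT f) : PT fun c => code (enc (f c)) :=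
  PT.code (pt_enc hf)

theorem pt_isCode [Dec α] {w : γ → Word} (hw : PT w) : PT fun c => isCode α (w c) :=
  PT.eqWord (pt_codeEnc (pt_parse hw)) hw

theorem enc_injective_of_dec [Dec α] : Function.Injective (enc : α → BT) := fun a b h => by
  rw [← dec_enc a, h, dec_enc]

theorem codeEnc_injective [Dec α] {a b : α} (h : code (enc a) = code (enc b)) : a = b :=
  enc_injective_of_dec (code_injective h)

/-- a word that codes nothing -/
theorem nil_ne_code (t : BT) : ([] : Word) ≠ code t := by
  intro h
  have h := congrArg List.length h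
  rw [length_code] at h
  simp at h

end

end Pool.Agent.Lib.MP_f25cb6_lc.X
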