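import Pool.Agent.Lib.MP_f25cb6_lc.X.Compile
import Pool.Agent.Lib.MP_f25cb6_lc.X.Parse
import Pool.Agent.Lib.MP_be4430_lc.P1_TreeRec

/-! # Relative branching programs are computed in polynomial time -/

namespace Pool.Agent.Lib.MP_f25cb6_lc.X

open MP_634427_lc MP_be4430_lc

theorem toBT_injective : Function.Injective BF.toBT := by
  have hne : ∀ {m n : ℕ}, m ≠ n → (enc m : BT) ≠ enc n := fun h h' => h (enc_nat_injective h')
  intro φ
  induction φ with
  | var i =>
    intro ψ h
    cases ψ with
    | var j =>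
      obtain ⟨_, h2⟩ := BT.node.inj h
      rw [enc_nat_injective h2]
    | neg ψ => exact absurd (BT.node.inj h).1 (hne (by norm_num))
    | and ψ χ => exact absurd (BT.node.inj h).1 (hne (by norm_num))
    | or ψ χ => exact absurd (BT.node.inj h).1 (hne (by norm_num))
  | neg φ ih =>
    intro ψ h
    cases ψ with
    | var j => exact absurd (BT.node.inj h).1 (hne (by norm_num))
    | neg ψ => rw [ih (BT.node.inj h).2]
    | and ψ χ => exact absurd (BT.node.inj h).1 (hne (by norm_num))
    | or ψ χ => exact absurd (BT.node.inj h).1 (hne (by norm_num))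
  | and φ φ' ih ih' =>
    intro ψ h
    cases ψ with
    | var j => exact absurd (BT.node.inj h).1 (hne (by norm_num))
    | neg ψ => exact absurd (BT.node.inj h).1 (hne (by norm_num))
    | and ψ χ =>
      obtain ⟨h1, h2⟩ := BT.node.inj (BT.node.inj h).2
      rw [ih h1, ih' h2]
    | or ψ χ => exact absurd (BT.node.inj h).1 (hne (by norm_num))
  | or φ φ' ih ih' =>
    intro ψ h
    cases ψ with
    | var j => exact absurd (BT.node.inj h).1 (hne (by norm_num))
    | neg ψ => exact absurd (BT.node.inj h).1 (hne (by norm_num))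
    | and ψ χ => exact absurd (BT.node.inj h).1 (hne (by norm_num))
    | or ψ χ =>
      obtain ⟨h1, h2⟩ := BT.node.inj (BT.node.inj h).2
      rw [ih h1, ih' h2]

private theorem forall_relocAll (n b T F : ℕ) (C : List Node) :
    (∀ x ∈ relocAll b T F C, x.1 < n) ↔ ∀ x ∈ C, x.1 < n := by
  unfold relocAll
  constructor
  · intro h x hx
    exact h (x.1, (reloc b T F x.2.1, reloc b T F x.2.2)) (List.mem_map.2 ⟨x, hx, rfl⟩)
  · intro h x hx
    obtain ⟨y, hy, rfl⟩ := List.mem_map.1 hx
    exact h y hy

/-- all variables of the formula are below `n` iff all variables of its program are -/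
theorem below_iff (n : ℕ) (φ : BF) : φ.Below n ↔ ∀ x ∈ rel φ, x.1 < n := by
  induction φ with
  | var i =>
    show i < n ↔ ∀ x ∈ [((i, (0, 1)) : Node)], x.1 < n
    simp
  | neg φ ih =>
    show φ.Below n ↔ ∀ x ∈ relocAll 2 1 0 (rel φ), x.1 < n
    rw [forall_relocAll, ih]
  | and φ ψ ih ih' =>
    show φ.Below n ∧ ψ.Below n ↔ ∀ x ∈ relocAll 2 (2 + (rel φ).length) 1 (rel φ) ++
      relocAll (2 + (rel φ).length) 0 1 (rel ψ), x.1 < n
    rw [List.forall_mem_append, forall_relocAll, forall_relocAll, ih, ih']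
  | or φ ψ ih ih' =>
    show φ.Below n ∧ ψ.Below n ↔ ∀ x ∈ relocAll 2 0 (2 + (rel φ).length) (rel φ) ++
      relocAll (2 + (rel φ).length) 0 1 (rel ψ), x.1 < n
    rw [List.forall_mem_append, forall_relocAll, forall_relocAll, ih, ih']

/-- `0 ↦ 2 + length`, and so on: the program of a conjunction -/
def andC (c d : List Node) : List Node :=
  relocAll 2 (2 + c.length) 1 c ++ relocAll (2 + c.length) 0 1 d

/-- the program of a disjunction -/
def orC (c d : List Node) : List Node :=
  relocAll 2 0 (2 + c.length) c ++ relocAll (2 + c.length) 0 1 d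

/-- combine two optional programs -/
def both (g : List Node → List Node → List Node) (x y : Option (List Node)) :
    Option (List Node) :=
  match x with
  | none => none
  | some c => match y with
    | none => none
    | some d => some (g c d)

/-- The first component is the relative program of the tree, if the tree is the syntax tree of a
formula; the second and the third component are those of the left and of the right subtree. -/
abbrev TVal := Option (List Node) × (Option (List Node) × Option (List Node))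

/-- the step of the recursion -/
def tstep (a b : BT) (x y : TVal) : TVal :=
  (if a = enc (0 : ℕ) then (if enc (spine b) = b then some [(spine b, (0, 1))] else none)
    else if a = enc (1 : ℕ) then both (fun c _ => relocAll 2 1 0 c) y.1 y.1
    else if a = enc (2 : ℕ) then both andC y.2.1 y.2.2
    else if a = enc (3 : ℕ) then both orC y.2.1 y.2.2
    else none, (x.1, y.1))

/-- the relative program of a syntax tree -/
def relT (T : BT) : Option (List Node) := (trec (none, (none, none)) tstep T).1

private theorem relT_nil : relT .nil = none := rfl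

private theorem trec_eq (T : BT) : trec (none, (none, none)) tstep T =
    (relT T, (relT T.left, relT T.right)) := by
  cases T <;> rfl

private theorem relT_node (a b : BT) : relT (.node a b) =
    (if a = enc (0 : ℕ) then (if enc (spine b) = b then some [(spine b, (0, 1))] else none)
    else if a = enc (1 : ℕ) then both (fun c _ => relocAll 2 1 0 c) (relT b) (relT b)
    else if a = enc (2 : ℕ) then both andC (relT b.left) (relT b.right)
    else if a = enc (3 : ℕ) then both orC (relT b.left) (relT b.right)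
    else none) := by
  show (tstep a b (trec (none, (none, none)) tstep a) (trec (none, (none, none)) tstep b)).1 = _
  rw [trec_eq b]
  rfl

private theorem both_eq_some (g : List Node → List Node → List Node)
    (x y : Option (List Node)) (e : List Node) :
    both g x y = some e ↔ ∃ c d, x = some c ∧ y = some d ∧ g c d = e := by
  cases x with
  | none => simp [both]
  | some c =>
    cases y with
    | none => simp [both]
    | some d => simp [both]

private theorem toBT_ne_nil (φ : BF) : φ.toBT ≠ .nil := by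
  cases φ <;> exact fun h => BT.noConfusion h

private theorem relT_toBT (φ : BF) : relT φ.toBT = some (rel φ) := by
  have hne : ∀ {m n : ℕ}, m ≠ n → (enc m : BT) ≠ enc n := fun h h' => h (enc_nat_injective h')
  induction φ with
  | var i =>
    show relT (.node (enc (0 : ℕ)) (enc i)) = some [(i, (0, 1))]
    have hs : spine (enc i) = i := by rw [enc_nat, spine_un]
    rw [relT_node, if_pos rfl, hs, if_pos rfl]
  | neg φ ih =>
    show relT (.node (enc (1 : ℕ)) φ.toBT) = some (relocAll 2 1 0 (rel φ))
    rw [relT_node, if_neg (hne (by norm_num)), if_pos rfl, ih]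
    rfl
  | and φ ψ ih ih' =>
    show relT (.node (enc (2 : ℕ)) (.node φ.toBT ψ.toBT)) = some (andC (rel φ) (rel ψ))
    rw [relT_node, if_neg (hne (by norm_num)), if_neg (hne (by norm_num)), if_pos rfl]
    show both andC (relT φ.toBT) (relT ψ.toBT) = _
    rw [ih, ih']
    rfl
  | or φ ψ ih ih' =>
    show relT (.node (enc (3 : ℕ)) (.node φ.toBT ψ.toBT)) = some (orC (rel φ) (rel ψ))
    rw [relT_node, if_neg (hne (by norm_num)), if_neg (hne (by norm_num)),
      if_neg (hne (by norm_num)), if_pos rfl]
    show both orC (relT φ.toBT) (relT ψ.toBT) = _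
    rw [ih, ih']
    rfl

private theorem relT_some (T : BT) : (∀ c, relT T = some c → ∃ φ : BF, T = φ.toBT) ∧
    (∀ c, relT T.left = some c → ∃ φ : BF, T.left = φ.toBT) ∧
    (∀ c, relT T.right = some c → ∃ φ : BF, T.right = φ.toBT) := by
  induction T with
  | nil =>
    refine ⟨fun c h => ?_, fun c h => ?_, fun c h => ?_⟩ <;>
    · have h' : relT .nil = some c := h
      rw [relT_nil] at h'
      exact absurd h' (by simp)
  | node a b iha ihb =>
    refine ⟨fun c h => ?_, iha.1, ihb.1⟩
    rw [relT_node] at h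
    split_ifs at h with h1 h2 h3 h4 h5
    · exact ⟨.var (spine b), by rw [h1]; show _ = BT.node (enc 0) (enc (spine b)); rw [h2]⟩
    · obtain ⟨c', _, hc', _⟩ := (both_eq_some _ _ _ _).1 h
      obtain ⟨φ, hφ⟩ := ihb.1 c' hc'
      exact ⟨.neg φ, by rw [h3, hφ]; rfl⟩
    · obtain ⟨c', d', hc', hd', _⟩ := (both_eq_some _ _ _ _).1 h
      obtain ⟨φ, hφ⟩ := ihb.2.1 c' hc'
      obtain ⟨ψ, hψ⟩ := ihb.2.2 d' hd'
      refine ⟨.and φ ψ, ?_⟩
      cases b with
      | nil => exact absurd hφ.symm (toBT_ne_nil φ)
      | node b1 b2 =>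
        have hb1 : b1 = φ.toBT := hφ
        have hb2 : b2 = ψ.toBT := hψ
        rw [h4, hb1, hb2]
        rfl
    · obtain ⟨c', d', hc', hd', _⟩ := (both_eq_some _ _ _ _).1 h
      obtain ⟨φ, hφ⟩ := ihb.2.1 c' hc'
      obtain ⟨ψ, hψ⟩ := ihb.2.2 d' hd'
      refine ⟨.or φ ψ, ?_⟩
      cases b with
      | nil => exact absurd hφ.symm (toBT_ne_nil φ)
      | node b1 b2 =>
        have hb1 : b1 = φ.toBT := hφ
        have hb2 : b2 = ψ.toBT := hψ
        rw [h5, hb1, hb2]
        rfl

/-- the recursion computes the relative programs of the formulas, and detects other trees -/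
theorem relT_iff (T : BT) (c : List Node) : relT T = some c ↔ ∃ φ : BF, T = φ.toBT ∧ c = rel φ := by
  constructor
  · intro h
    obtain ⟨φ, hφ⟩ := (relT_some T).1 c h
    refine ⟨φ, hφ, ?_⟩
    rw [hφ, relT_toBT] at h
    exact (Option.some.inj h).symm
  · rintro ⟨φ, rfl, rfl⟩
    exact relT_toBT φ

private theorem fst_relocAll (b T F : ℕ) (C : List Node) :
    ((relocAll b T F C).map fun x => x.1).sum = (C.map fun x => x.1).sum := by
  unfold relocAll
  rw [List.map_map]
  rfl

private theorem sum_add_leaves_le (φ : BF) :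
    ((rel φ).map fun x => x.1).sum + leaves φ ≤ φ.toBT.size := by
  induction φ with
  | var i =>
    show ([((i, (0, 1)) : Node)].map fun x => x.1).sum + 1 ≤
      (BT.node (enc (0 : ℕ)) (enc i)).size
    have h : (enc i : BT).size = i := by rw [enc_nat, size_un]
    rw [BT.size_node, h]
    simp
  | neg φ ih =>
    show ((relocAll 2 1 0 (rel φ)).map fun x => x.1).sum + leaves φ ≤
      (BT.node (enc (1 : ℕ)) φ.toBT).size
    rw [fst_relocAll, BT.size_node]
    omega
  | and φ ψ ih ih' =>
    show ((relocAll 2 (2 + (rel φ).length) 1 (rel φ) ++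
      relocAll (2 + (rel φ).length) 0 1 (rel ψ)).map fun x => x.1).sum + (leaves φ + leaves ψ) ≤
      (BT.node (enc (2 : ℕ)) (BT.node φ.toBT ψ.toBT)).size
    rw [List.map_append, List.sum_append, fst_relocAll, fst_relocAll, BT.size_node, BT.size_node]
    omega
  | or φ ψ ih ih' =>
    show ((relocAll 2 0 (2 + (rel φ).length) (rel φ) ++
      relocAll (2 + (rel φ).length) 0 1 (rel ψ)).map fun x => x.1).sum + (leaves φ + leaves ψ) ≤
      (BT.node (enc (3 : ℕ)) (BT.node φ.toBT ψ.toBT)).size
    rw [List.map_append, List.sum_append, fst_relocAll, fst_relocAll, BT.size_node, BT.size_node]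
    omega

private theorem reloc_le {b T F t B B' : ℕ} (hT : T ≤ B') (hF : F ≤ B') (ht : t ≤ B)
    (hb : b + B ≤ B' + 2) : reloc b T F t ≤ B' := by
  unfold reloc
  split_ifs <;> omega

private theorem targets_relocAll {b T F B B' : ℕ} {C : List Node} (hT : T ≤ B') (hF : F ≤ B')
    (hb : b + B ≤ B' + 2) (h : ∀ x ∈ C, x.2.1 ≤ B ∧ x.2.2 ≤ B) :
    ∀ x ∈ relocAll b T F C, x.2.1 ≤ B' ∧ x.2.2 ≤ B' := by
  intro x hx
  obtain ⟨y, hy, rfl⟩ := List.mem_map.1 hx
  exact ⟨reloc_le hT hF (h y hy).1 hb, reloc_le hT hF (h y hy).2 hb⟩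

private theorem targets_le (φ : BF) : ∀ x ∈ rel φ, x.2.1 ≤ leaves φ + 1 ∧ x.2.2 ≤ leaves φ + 1 := by
  induction φ with
  | var i =>
    intro x hx
    have hx' : x ∈ [((i, (0, 1)) : Node)] := hx
    rw [List.mem_singleton] at hx'
    subst hx'
    show (0 : ℕ) ≤ 1 + 1 ∧ 1 ≤ 1 + 1
    omega
  | neg φ ih =>
    have hp := leaves_pos φ
    show ∀ x ∈ relocAll 2 1 0 (rel φ), x.2.1 ≤ leaves φ + 1 ∧ x.2.2 ≤ leaves φ + 1
    exact targets_relocAll (by omega) (by omega) (by omega) ih
  | and φ ψ ih ih' =>
    have hp := leaves_pos φ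
    have hp' := leaves_pos ψ
    show ∀ x ∈ relocAll 2 (2 + (rel φ).length) 1 (rel φ) ++
      relocAll (2 + (rel φ).length) 0 1 (rel ψ), x.2.1 ≤ leaves φ + leaves ψ + 1 ∧
        x.2.2 ≤ leaves φ + leaves ψ + 1
    rw [List.forall_mem_append, length_rel]
    exact ⟨targets_relocAll (by omega) (by omega) (by omega) ih,
      targets_relocAll (by omega) (by omega) (by omega) ih'⟩
  | or φ ψ ih ih' =>
    have hp := leaves_pos φ
    have hp' := leaves_pos ψ
    show ∀ x ∈ relocAll 2 0 (2 + (rel φ).length) (rel φ) ++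
      relocAll (2 + (rel φ).length) 0 1 (rel ψ), x.2.1 ≤ leaves φ + leaves ψ + 1 ∧
        x.2.2 ≤ leaves φ + leaves ψ + 1
    rw [List.forall_mem_append, length_rel]
    exact ⟨targets_relocAll (by omega) (by omega) (by omega) ih,
      targets_relocAll (by omega) (by omega) (by omega) ih'⟩

private theorem sz_le_of (B : ℕ) (C : List Node) (h : ∀ x ∈ C, x.2.1 ≤ B ∧ x.2.2 ≤ B) :
    sz C ≤ (C.map fun x => x.1).sum + C.length * (2 * B + 3) := by
  induction C with
  | nil => simp
  | cons x C ih =>
    obtain ⟨v, t, f⟩ := x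
    have h1 := h (v, (t, f)) List.mem_cons_self
    have h2 := ih fun y hy => h y (List.mem_cons_of_mem _ hy)
    simp only at h1
    rw [List.map_cons, List.sum_cons, List.length_cons, sz_cons, sz_pair, sz_pair, sz_nat, sz_nat,
      sz_nat, add_mul, one_mul]
    omega

/-- the size of the program is polynomial in the size of the tree -/
theorem sz_rel_le (φ : BF) : sz (rel φ) ≤ (φ.toBT.size + 2) ^ 4 := by
  have h1 := sz_le_of (leaves φ + 1) (rel φ) (targets_le φ)
  have h2 := sum_add_leaves_le φ
  rw [length_rel] at h1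
  generalize φ.toBT.size = S at h2 ⊢
  generalize ((rel φ).map fun x => x.1).sum = V at h1 h2
  generalize leaves φ = L at h1 h2
  have hL : L ≤ S := by omega
  have h3 : L * (2 * (L + 1) + 3) ≤ S * (2 * (S + 1) + 3) := Nat.mul_le_mul hL (by omega)
  have h4 : sz (rel φ) ≤ S + S * (2 * (S + 1) + 3) := by omega
  refine h4.trans ?_
  have h5 : (S + 2) ^ 4 = (S + 2) ^ 2 * (S + 2) ^ 2 := by ring
  have h6 : 4 ≤ (S + 2) ^ 2 := by nlinarith
  rw [h5]
  nlinarith [Nat.mul_le_mul_left ((S + 2) ^ 2) h6]

theorem pt_relocAll {γ : Type} [Enc γ] {b T F : γ → ℕ} {C : γ → List Node} (hb : PT b) (hT : PT T)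
    (hF : PT F) (hC : PT C) : PT fun g => relocAll (b g) (T g) (F g) (C g) := by
  have hr : ∀ {t : γ × Node → ℕ}, PT t →
      PT fun p : γ × Node => reloc (b p.1) (T p.1) (F p.1) (t p) := by
    intro t ht
    exact PT.ite (PT.isZero ht) (hT.comp PT.fst) (PT.ite (PT.eqNat ht (PT.const 1))
      (hF.comp PT.fst) (PT.add (hb.comp PT.fst) (PT.sub ht (PT.const 2))))
  exact PT.map (f := fun g x => (x.1, (reloc (b g) (T g) (F g) x.2.1,
    reloc (b g) (T g) (F g) x.2.2))) hC
    (PT.pair (PT.fst' PT.snd) (PT.pair (hr (PT.fst' (PT.snd' PT.snd)))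
      (hr (PT.snd' (PT.snd' PT.snd)))))

private theorem pt_both {γ : Type} [Enc γ] {g : List Node → List Node → List Node}
    {x y : γ → Option (List Node)} (hg : PT fun p : List Node × List Node => g p.1 p.2)
    (hx : PT x) (hy : PT y) : PT fun c => both g (x c) (y c) := by
  have h := PT.casesOption (f := fun _ : γ => (none : Option (List Node)))
    (g := fun c a => match y c with
      | none => none
      | some d => some (g a d)) hx (PT.const none)
    ((PT.casesOption (o := fun p : γ × List Node => y p.1)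
      (f := fun _ => (none : Option (List Node))) (g := fun p d => some (g p.2 d))
      (hy.comp PT.fst) (PT.const none)
      (PT.some (hg.comp (PT.pair (PT.snd' PT.fst) PT.snd)))).of_eq fun p => by
        cases y p.1 <;> rfl)
  refine h.of_eq fun c => ?_
  unfold both
  cases x c <;> rfl

private theorem pt_andC : PT fun p : List Node × List Node => andC p.1 p.2 :=
  PT.append (pt_relocAll (PT.const 2) (PT.add (PT.const 2) (PT.length PT.fst)) (PT.const 1) PT.fst)
    (pt_relocAll (PT.add (PT.const 2) (PT.length PT.fst)) (PT.const 0) (PT.const 1) PT.snd)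

private theorem pt_orC : PT fun p : List Node × List Node => orC p.1 p.2 :=
  PT.append (pt_relocAll (PT.const 2) (PT.const 0) (PT.add (PT.const 2) (PT.length PT.fst)) PT.fst)
    (pt_relocAll (PT.add (PT.const 2) (PT.length PT.fst)) (PT.const 0) (PT.const 1) PT.snd)

private theorem sz_relT_le (T : BT) : sz (relT T) ≤ (T.size + 2) ^ 4 + 1 := by
  cases h : relT T with
  | none => simp
  | some c =>
    obtain ⟨φ, rfl, rfl⟩ := (relT_iff T c).1 h
    rw [sz_some]
    exact Nat.add_le_add_right (sz_rel_le φ) 1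

/-- (Use `pt_treeRec`; the size bound follows from `relT_iff` and `sz_rel_le`, applied to the tree
and its subtrees.) -/
theorem pt_relT {γ : Type} [Enc γ] {T : γ → BT} (hT : PT T) : PT fun g => relT (T g) := by
  have hstep : PT fun p : γ × BT × BT × TVal × TVal =>
      tstep p.2.1 p.2.2.1 p.2.2.2.1 p.2.2.2.2 := by
    have ha : PT fun p : γ × BT × BT × TVal × TVal => p.2.1 := PT.fst' PT.snd
    have hb : PT fun p : γ × BT × BT × TVal × TVal => p.2.2.1 := PT.fst' (PT.snd' PT.snd)
    have hx : PT fun p : γ × BT × BT × TVal × TVal => p.2.2.2.1 :=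
      PT.fst' (PT.snd' (PT.snd' PT.snd))
    have hy : PT fun p : γ × BT × BT × TVal × TVal => p.2.2.2.2 :=
      PT.snd' (PT.snd' (PT.snd' PT.snd))
    refine PT.pair ?_ (PT.pair (PT.fst' hx) (PT.fst' hy))
    refine PT.ite (pt_eqBT ha (PT.const _)) ?_ ?_
    · refine PT.ite (pt_eqBT (pt_enc (pt_spine hb)) hb) ?_ (PT.const none)
      exact PT.some (PT.cons (PT.pair (pt_spine hb) (PT.const (0, 1))) (PT.const []))
    refine PT.ite (pt_eqBT ha (PT.const _)) ?_ ?_
    · exact pt_both (pt_relocAll (PT.const 2) (PT.const 1) (PT.const 0) PT.fst) (PT.fst' hy)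
        (PT.fst' hy)
    refine PT.ite (pt_eqBT ha (PT.const _)) ?_ ?_
    · exact pt_both pt_andC (PT.fst' (PT.snd' hy)) (PT.snd' (PT.snd' hy))
    refine PT.ite (pt_eqBT ha (PT.const _)) ?_ (PT.const none)
    exact pt_both pt_orC (PT.fst' (PT.snd' hy)) (PT.snd' (PT.snd' hy))
  have h := pt_treeRec (s := fun _ : γ => ((none, (none, none)) : TVal))
    (f := fun _ => tstep) (t := T) (PT.const _) hstep hT ⟨7, fun c T => by
      rw [trec_eq, sz_pair, sz_pair]
      have h1 := sz_relT_le T
      have h2 := sz_relT_le T.left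
      have h3 := sz_relT_le T.right
      have h4 : (T.left.size + 2) ^ 4 ≤ (T.size + 2) ^ 4 :=
        Nat.pow_le_pow_left (by have := BT.size_left_le T; omega) 4
      have h5 : (T.right.size + 2) ^ 4 ≤ (T.size + 2) ^ 4 :=
        Nat.pow_le_pow_left (by have := BT.size_right_le T; omega) 4
      have h6 : (T.size + 2) ^ 7 ≤ (sz c + T.size + 2) ^ 7 :=
        Nat.pow_le_pow_left (by omega) 7
      refine le_trans ?_ h6
      have h7 : (T.size + 2) ^ 7 = (T.size + 2) ^ 4 * (T.size + 2) ^ 3 := by ring
      have h8 : 2 ^ 3 ≤ (T.size + 2) ^ 3 := Nat.pow_le_pow_left (by omega) 3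
      have h9 : 2 ^ 4 ≤ (T.size + 2) ^ 4 := Nat.pow_le_pow_left (by omega) 4
      have h10 : (T.size + 2) ^ 4 * 2 ^ 3 ≤ (T.size + 2) ^ 4 * (T.size + 2) ^ 3 :=
        Nat.mul_le_mul_left _ h8
      rw [h7]
      omega⟩
  exact PT.fst' h

end Pool.Agent.Lib.MP_f25cb6_lc.X
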