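import Pool.Agent.Lib.MP_f25cb6_lc.X.SatChain
import Pool.Agent.Lib.MP_f25cb6_lc.X.SatTree

/-! # Weighted satisfiability reduces to the chained clique problem -/

namespace Pool.Agent.Lib.MP_f25cb6_lc.X

open MP_634427_lc MP_be4430_lc

section PT

variable {γ : Type} [Enc γ]

theorem pt_ne0 {f : γ → ℕ} (hf : PT f) : PT fun g => decide (f g ≠ 0) :=
  (PT.not (PT.isZero hf)).of_eq fun g => by simp

theorem pt_neNat {f h : γ → ℕ} (hf : PT f) (hh : PT h) : PT fun g => decide (f g ≠ h g) :=
  (PT.not (PT.eqNat hf hh)).of_eq fun g => by simp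

theorem pt_okSat {n k : γ → ℕ} {C : γ → List Node} {l : γ → Lab} (hn : PT n) (hk : PT k)
    (hC : PT C) (hl : PT l) : PT fun g => okSat (n g) (k g) (C g) (l g) := by
  have hi : PT fun g => (l g).1.1 := PT.fst' (PT.fst' hl)
  have ha : PT fun g => (l g).1.2 := PT.snd' (PT.fst' hl)
  have hp : PT fun g => (l g).2.1 := PT.fst' (PT.snd' hl)
  have hc : PT fun g => (l g).2.2 := PT.snd' (PT.snd' hl)
  have hL : PT fun g => (C g).length := PT.length hC
  unfold okSat
  exact PT.ite (PT.lt ha hk) (PT.and (PT.lt hp hn) (PT.isZero hc))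
    (PT.and (PT.or (pt_ne0 hi) (PT.isZero hp)) (PT.and (PT.or (pt_neNat hi hL) (PT.eqNat hp hL))
      (PT.or (pt_neNat hi hL) (PT.isZero hc))))

theorem pt_satLabs {n k : γ → ℕ} {C : γ → List Node} (hn : PT n) (hk : PT k) (hC : PT C) :
    PT fun g => satLabs (n g) (k g) (C g) := by
  unfold satLabs
  refine PT.filter (p := fun g l => okSat (n g) (k g) (C g) l) ?_
    (pt_okSat (hn.comp PT.fst) (hk.comp PT.fst) (hC.comp PT.fst) PT.snd)
  refine PT.flatMap (f := fun g i => (List.range (k g + 1)).flatMap fun a =>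
    (List.range (n g + (C g).length + 2)).flatMap fun p => (List.range (k g + 1)).map fun w =>
      ((i, a), (p, w))) (PT.range (PT.succ (PT.length hC))) ?_
  refine PT.flatMap (f := fun (q : γ × ℕ) a =>
    (List.range (n q.1 + (C q.1).length + 2)).flatMap fun p =>
      (List.range (k q.1 + 1)).map fun w => ((q.2, a), (p, w)))
      (PT.range (PT.succ (hk.comp PT.fst))) ?_
  refine PT.flatMap (f := fun (q : (γ × ℕ) × ℕ) p =>
      (List.range (k q.1.1 + 1)).map fun w => ((q.1.2, q.2), (p, w)))
      (PT.range (PT.succ (PT.succ (PT.add (hn.comp (PT.fst' PT.fst))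
        (PT.length (hC.comp (PT.fst' PT.fst))))))) ?_
  refine PT.map (f := fun (q : ((γ × ℕ) × ℕ) × ℕ) w => ((q.1.1.2, q.1.2), (q.2, w)))
      (PT.range (PT.succ (hk.comp (PT.fst' (PT.fst' PT.fst))))) ?_
  exact PT.pair (PT.pair (PT.snd' (PT.fst' (PT.fst' PT.fst))) (PT.snd' (PT.fst' PT.fst)))
    (PT.pair (PT.snd' PT.fst) PT.snd)

theorem pt_node {C : γ → List Node} {i : γ → ℕ} (hC : PT C) (hi : PT i) :
    PT fun g => (C g).getD (i g) (0, (0, 0)) := PT.getLD hi hC (PT.const _)

theorem pt_nextNode {C : γ → List Node} {i p w : γ → ℕ} (hC : PT C) (hi : PT i) (hp : PT p)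
    (hw : PT w) : PT fun g => nextNode (C g) (i g) (p g) (w g) := by
  unfold nextNode
  exact PT.ite (PT.eqNat hp hi) (PT.ite (PT.isZero hw) (PT.snd' (PT.snd' (pt_node hC hi)))
    (PT.fst' (PT.snd' (pt_node hC hi)))) hp

theorem pt_satAdj {k : γ → ℕ} {C : γ → List Node} {l l' : γ → Lab} (hk : PT k)
    (hC : PT C) (hl : PT l) (hl' : PT l') : PT fun g => satAdj (k g) (C g) (l g) (l' g) := by
  have hi : PT fun g => (l g).1.1 := PT.fst' (PT.fst' hl)
  have ha : PT fun g => (l g).1.2 := PT.snd' (PT.fst' hl)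
  have hp : PT fun g => (l g).2.1 := PT.fst' (PT.snd' hl)
  have hc : PT fun g => (l g).2.2 := PT.snd' (PT.snd' hl)
  have hi' : PT fun g => (l' g).1.1 := PT.fst' (PT.fst' hl')
  have ha' : PT fun g => (l' g).1.2 := PT.snd' (PT.fst' hl')
  have hp' : PT fun g => (l' g).2.1 := PT.fst' (PT.snd' hl')
  have hc' : PT fun g => (l' g).2.2 := PT.snd' (PT.snd' hl')
  have hL : PT fun g => (C g).length := PT.length hC
  have hv : PT fun g => ((C g).getD (l g).1.1 (0, (0, 0))).1 := PT.fst' (pt_node hC hi)
  unfold satAdj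
  refine PT.ite (PT.eqNat hi hi') (PT.ite (PT.lt ha hk) (PT.ite (PT.lt ha' hk) ?_ ?_)
    (PT.const false)) (PT.ite (PT.eqNat (PT.succ hi) hi') (PT.ite (PT.lt ha hk)
      (PT.ite (PT.lt ha' hk) ?_ (PT.const true)) (PT.ite (PT.lt ha' hk) (PT.const true) ?_))
      (PT.const false))
  · exact PT.and (PT.not (PT.eqNat ha ha')) (PT.not (PT.eqNat hp hp'))
  · exact PT.or (PT.or (PT.not (PT.eqNat hp' hi)) (PT.eqNat hi hL))
      (PT.and (PT.or (PT.not (PT.eqNat hc' (PT.succ ha))) (PT.eqNat hp hv))
        (PT.or (PT.not (PT.isZero hc')) (PT.not (PT.eqNat hp hv))))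
  · exact PT.or (PT.not (PT.eqNat ha ha')) (PT.eqNat hp hp')
  · exact PT.eqNat hp' (pt_nextNode hC hi hp hc)

end PT

/-! ### The reduction -/

/-- the chained graph of a branching program -/
def satGraph (n k : ℕ) (C : List Node) : ℕ × (List Vtx × List (Vtx × Vtx)) :=
  (C.length + 1, (mkV (n + C.length + 2) (satLabs n k C),
    mkE (n + C.length + 2) (satLabs n k C) (satAdj k C)))

/-- **Correctness of the construction.** -/
theorem satGraph_iff {n k : ℕ} {φ : BF} (hn : φ.Below n) :
    (∃ x, IsChainedClique (k + 1) ((bprog φ).length + 1)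
      (mkV (n + (bprog φ).length + 2) (satLabs n k (bprog φ)))
      (mkE (n + (bprog φ).length + 2) (satLabs n k (bprog φ)) (satAdj k (bprog φ))) x) ↔
    ∃ S : Finset ℕ, (∀ i ∈ S, i < n) ∧ S.card = k ∧ φ.Holds S := by
  rw [mk_clique_iff satLabs_props satAdj_props]
  constructor
  · rintro ⟨f, h1, h2, h3⟩
    obtain ⟨S, hS, hk, hb⟩ := sat_sound h1 h2 h3
    exact ⟨S, hS, hk, (bprog_correct S φ).1 hb⟩
  · rintro ⟨S, hS, hk, hφ⟩
    exact sat_complete (bprog_props hn) hS hk ((bprog_correct S φ).2 hφ)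

/-- the branching program of a tree, if it is the syntax tree of a formula -/
def progOf (c : List Node) : List Node := relocAll 0 c.length (c.length + 1) c

theorem progOf_rel (φ : BF) : progOf (rel φ) = bprog φ := (bprog_eq φ).symm

/-- the reduction for the number `n` of variables and the syntax tree `T` -/
def red3Aux (n k : ℕ) (T : BT) : Word :=
  match relT T with
  | none => []
  | some c => bif c.all (fun x => decide (x.1 < n)) then
      code (enc (satGraph n k (progOf c))) else []

/-- the reduction from `WSAT` to `CMC` -/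
def red3 (p : Word × ℕ) : Word × ℕ :=
  (bif decide (code (BT.node (un (spine (decode p.1).left)) (decode p.1).right) = p.1) then
    red3Aux (spine (decode p.1).left) p.2 (decode p.1).right
    else [], p.2 + 1)

theorem relT_toBT (φ : BF) : relT φ.toBT = some (rel φ) := (relT_iff _ _).2 ⟨φ, rfl, rfl⟩

theorem red3Aux_iff (n k : ℕ) (T : BT) : (red3Aux n k T, k + 1) ∈ CMC ↔
    ∃ φ : BF, T = φ.toBT ∧ φ.Below n ∧ ∃ S : Finset ℕ, (∀ i ∈ S, i < n) ∧ S.card = k ∧ φ.Holds S := by
  constructor
  · rintro ⟨r, V, E, hw, _, hx⟩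
    simp only at hw hx
    unfold red3Aux at hw
    rcases hT : relT T with _ | c
    · rw [hT] at hw
      exact absurd hw (nil_ne_code _)
    · rw [hT] at hw
      obtain ⟨φ, rfl, rfl⟩ := (relT_iff _ _).1 hT
      simp only at hw
      by_cases hb : ((rel φ).all fun x => decide (x.1 < n)) = true
      · rw [hb, cond_true] at hw
        have hb' : φ.Below n := (below_iff n φ).2 (by simpa using hb)
        have h3 := codeEnc_injective (α := ℕ × (List Vtx × List (Vtx × Vtx))) hw
        rw [progOf_rel] at h3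
        simp only [satGraph, Prod.mk.injEq] at h3
        obtain ⟨rfl, rfl, rfl⟩ := h3
        exact ⟨φ, rfl, hb', (satGraph_iff hb').1 hx⟩
      · simp only [Bool.not_eq_true] at hb
        rw [hb, cond_false] at hw
        exact absurd hw (nil_ne_code _)
  · rintro ⟨φ, rfl, hb, hS⟩
    have h1 : red3Aux n k φ.toBT = code (enc (satGraph n k (bprog φ))) := by
      unfold red3Aux
      rw [relT_toBT]
      have h2 : ((rel φ).all fun x => decide (x.1 < n)) = true := by
        simpa using (below_iff n φ).1 hb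
      simp only [h2, cond_true, progOf_rel]
    rw [h1]
    exact ⟨_, _, _, rfl, mk_isChained satLabs_props satAdj_props, (satGraph_iff hb).2 hS⟩

theorem red3_iff (p : Word × ℕ) : p ∈ WSAT ↔ red3 p ∈ CMC := by
  obtain ⟨w, k⟩ := p
  unfold red3
  simp only
  by_cases hc : code (BT.node (un (spine (decode w).left)) (decode w).right) = w
  · have hc' := hc
    have h0 : decode w = BT.node (un (spine (decode w).left)) (decode w).right := by
      conv_lhs => rw [← hc, decode_code]
    rw [decide_eq_true hc, cond_true, red3Aux_iff]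
    constructor
    · rintro ⟨n, φ, hw, hb, hS⟩
      simp only at hw
      have h1 : decode w = BT.node (enc n) φ.toBT := by
        rw [hw, decode_code]
        rfl
      rw [h1] at hc ⊢
      refine ⟨φ, rfl, ?_, ?_⟩
      · show φ.Below (spine (enc n))
        rw [enc_nat, spine_un]
        exact hb
      · show ∃ S : Finset ℕ, (∀ i ∈ S, i < spine (enc n)) ∧ _
        rw [enc_nat, spine_un]
        exact hS
    · rintro ⟨φ, hφ, hb, hS⟩
      refine ⟨_, φ, ?_, hb, hS⟩
      simp only
      rw [← hc']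
      congr 1
      rw [hc', hφ]
      rfl
  · rw [decide_eq_false hc, cond_false]
    constructor
    · rintro ⟨n, φ, hw, _⟩
      exfalso
      apply hc
      simp only at hw
      have h1 : decode w = BT.node (enc n) φ.toBT := by
        rw [hw, decode_code]
        rfl
      rw [h1, hw]
      show code (BT.node (un (spine (enc n))) φ.toBT) = _
      rw [enc_nat, spine_un]
      rfl
    · rintro ⟨r, V, E, hw, _⟩
      exact absurd hw (nil_ne_code _)

theorem pt_satGraph {γ : Type} [Enc γ] {n k : γ → ℕ} {C : γ → List Node} (hn : PT n) (hk : PT k)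
    (hC : PT C) : PT fun g => satGraph (n g) (k g) (C g) := by
  have hP : PT fun g => n g + (C g).length + 2 := PT.succ (PT.succ (PT.add hn (PT.length hC)))
  have hL := pt_satLabs hn hk hC
  unfold satGraph
  refine PT.pair (PT.succ (PT.length hC)) (PT.pair (pt_mkV hP hL)
    (pt_mkE (A := fun g => satAdj (k g) (C g)) hP hL ?_))
  exact pt_satAdj (hk.comp PT.fst) (hC.comp PT.fst) (PT.fst' PT.snd) (PT.snd' PT.snd)

theorem pt_progOf {γ : Type} [Enc γ] {C : γ → List Node} (hC : PT C) :
    PT fun g => progOf (C g) := by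
  unfold progOf
  exact pt_relocAll (PT.const 0) (PT.length hC) (PT.succ (PT.length hC)) hC

theorem pt_red3Aux {γ : Type} [Enc γ] {n k : γ → ℕ} {T : γ → BT} (hn : PT n) (hk : PT k)
    (hT : PT T) : PT fun g => red3Aux (n g) (k g) (T g) := by
  refine (PT.casesOption (g := fun g c => bif c.all (fun x => decide (x.1 < n g)) then
      code (enc (satGraph (n g) (k g) (progOf c))) else []) (pt_relT hT) (PT.const [])
      ?_).of_eq fun g => by unfold red3Aux; cases relT (T g) <;> rfl
  refine PT.cond (PT.all (p := fun (q : γ × List Node) x => decide (x.1 < n q.1)) PT.snd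
    (PT.lt (PT.fst' PT.snd) (hn.comp (PT.fst' PT.fst)))) ?_ (PT.const [])
  exact pt_codeEnc (pt_satGraph (hn.comp PT.fst) (hk.comp PT.fst) (pt_progOf PT.snd))

theorem pt_red3 : PT red3 := by
  have hd : PT fun p : Word × ℕ => decode p.1 := PT.decode PT.fst
  have hl : PT fun p : Word × ℕ => spine (decode p.1).left := pt_spine (pt_left hd)
  have hr : PT fun p : Word × ℕ => (decode p.1).right := pt_right hd
  unfold red3
  exact PT.pair (PT.cond (PT.eqWord (PT.code (PT.pairBT (pt_un hl) hr)) PT.fst)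
    (pt_red3Aux hl PT.snd hr) (PT.const [])) (PT.succ PT.snd)

/-- Weighted satisfiability of Boolean formulas, with weight `k`, reduces to chained multicoloured
clique with `k + 1` colours. -/
theorem wsat_le_cmc : PolyReduces (fun k => k + 1) WSAT CMC :=
  ⟨red3, pt_red3, fun p => ⟨rfl, red3_iff p⟩⟩

end Pool.Agent.Lib.MP_f25cb6_lc.X
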