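import Pool.Agent.Lib.MP_f25cb6_lc.X.Red1
import Pool.Agent.Lib.MP_f25cb6_lc.X.Red2
import Pool.Agent.Lib.MP_f25cb6_lc.X.Red3

/-! # The parameterized complexity of interval scheduling with eligibility sets -/

namespace Pool.Agent.Lib.MP_f25cb6_lc.X

open MP_634427_lc MP_be4430_lc

/-! ### Reductions -/

theorem polyReduces_trans {g h : ℕ → ℕ} {Q Q' Q'' : Set (Word × ℕ)} (h1 : PolyReduces g Q Q')
    (h2 : PolyReduces h Q' Q'') : PolyReduces (fun k => h (g k)) Q Q'' := by
  obtain ⟨R, hR, h1⟩ := h1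
  obtain ⟨R', hR', h2⟩ := h2
  refine ⟨fun p => R' (R p), hR'.comp hR, fun p => ⟨?_, ?_⟩⟩
  · rw [(h2 (R p)).1, (h1 p).1]
  · rw [(h1 p).2, (h2 (R p)).2]

theorem fpt_of_polyReduces {g : ℕ → ℕ} {Q Q' : Set (Word × ℕ)} (hg : Computable g)
    (h : PolyReduces g Q Q') (h' : FPT Q') : FPT Q := by
  obtain ⟨R, hR, h⟩ := h
  obtain ⟨f, A, hf, hA, h'⟩ := h'
  refine ⟨fun k => f (g k), fun p => A (R p.1, p.2), hf.comp hg,
    hA.comp (PT.pair (hR.comp PT.fst) PT.snd), fun x k => ?_⟩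
  rw [(h (x, k)).2]
  have h1 : R (x, k) = ((R (x, k)).1, g k) := Prod.ext rfl (h (x, k)).1
  show R (x, k) ∈ Q' ↔ A (R (x, k), f (g k)) = true
  rw [h1]
  exact h' _ _

theorem fptReduces_of_polyReduces {g : ℕ → ℕ} {Q Q' Q'' : Set (Word × ℕ)} (hg : Computable g)
    (hm : Monotone g) (h : FptReduces Q Q') (h' : PolyReduces g Q' Q'') : FptReduces Q Q'' := by
  obtain ⟨f, b, R, hf, hb, hR, h⟩ := h
  obtain ⟨R', hR', h'⟩ := h'
  refine ⟨f, fun k => g (b k), fun p => R' (R p), hf, hg.comp hb, hR'.comp hR, fun x k => ?_⟩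
  have h1 := h x k
  have h2 := h' (R ((x, k), f k))
  exact ⟨by rw [h2.1]; exact hm h1.1, h1.2.trans h2.2⟩

theorem computable_mul4 : Computable fun k : ℕ => 4 * k :=
  (Primrec.nat_mul.comp (Primrec.const 4) Primrec.id).to_comp

theorem computable_add1 : Computable fun k : ℕ => k + 1 := Primrec.succ.to_comp

/-! ### The restricted problems -/

theorem one_le_pow_length {t : BT} (c : ℕ) : 1 ≤ (code t).length ^ c :=
  Nat.one_le_pow _ _ (by rw [length_code]; omega)

theorem schedTwo_sub_schedPoly (c : ℕ) : SCHEDTwo ⊆ SCHEDPoly c := by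
  rintro ⟨w, m⟩ ⟨J, b, hw, hv, h2, hσ⟩
  refine ⟨J, b, hw, hv, fun t ht => ?_, hσ⟩
  rw [(h2 t ht).1, hw]
  exact one_le_pow_length c

theorem schedPoly_sub_sched (c : ℕ) : SCHEDPoly c ⊆ SCHED := by
  rintro ⟨w, m⟩ ⟨J, b, hw, hv, _, hσ⟩
  exact ⟨J, b, hw, hv, hσ⟩

theorem mem_schedTwo_of_red1 {p : Word × ℕ} (h : red1 p ∈ SCHED) : red1 p ∈ SCHEDTwo := by
  obtain ⟨J, b, hw, hv, hσ⟩ := h
  refine ⟨J, b, hw, hv, ?_, hσ⟩
  by_cases hc : (isCode CInst p.1 && chainedB p.2 (parse CInst p.1)) = true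
  · unfold red1 at hw
    simp only [hc, cond_true] at hw
    have h2 := codeEnc_injective (α := (ℕ × List Job) × Word) hw
    simp only [Prod.mk.injEq] at h2
    rw [← h2.1.2]
    exact two_jobList (bound_pos _) (wf_prog (bound_pos _))
  · unfold red1 at hw
    simp only [Bool.not_eq_true] at hc
    simp only [hc, cond_false] at hw
    exact absurd hw (nil_ne_code _)

theorem cmc_le_sched : PolyReduces (fun k => 4 * k) CMC SCHED :=
  ⟨red1, pt_red1, fun p => ⟨rfl, (red1_iff p).trans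
    ⟨fun h => schedPoly_sub_sched 0 (schedTwo_sub_schedPoly 0 h), mem_schedTwo_of_red1⟩⟩⟩

theorem cmc_le_schedPoly (c : ℕ) : PolyReduces (fun k => 4 * k) CMC (SCHEDPoly c) :=
  ⟨red1, pt_red1, fun p => ⟨rfl, (red1_iff p).trans
    ⟨fun h => schedTwo_sub_schedPoly c h,
      fun h => mem_schedTwo_of_red1 (schedPoly_sub_sched c h)⟩⟩⟩

/-- Do all jobs have weight one and at most two eligible machines? -/
def twoB (I : SInst) : Bool :=
  I.1.2.all fun t => decide (min (weight t) 2 = 1) && decide ((eligible t).length ≤ 2)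

theorem twoB_iff (I : SInst) : twoB I = true ↔
    ∀ t ∈ I.1.2, weight t = 1 ∧ (eligible t).length ≤ 2 := by
  simp only [twoB, List.all_eq_true, Bool.and_eq_true, decide_eq_true_eq]
  refine forall₂_congr fun t _ => and_congr_left fun _ => ?_
  omega

theorem pt_twoB {γ : Type} [Enc γ] {I : γ → SInst} (hI : PT I) : PT fun g => twoB (I g) := by
  unfold twoB
  refine PT.all (p := fun _ t => decide (min (weight t) 2 = 1) && decide ((eligible t).length ≤ 2))
    (PT.snd' (PT.fst' hI)) ?_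
  unfold weight eligible
  exact PT.and (PT.eqNat (pt_minBval (PT.fst' (PT.snd' PT.snd)) (PT.const 2)) (PT.const 1))
    (PT.le (PT.length (PT.snd' (PT.snd' PT.snd))) (PT.const 2))

theorem mem_schedTwo_iff (p : Word × ℕ) : p ∈ SCHEDTwo ↔
    p ∈ SCHEDPoly 0 ∧ (isCode SInst p.1 && twoB (parse SInst p.1)) = true := by
  obtain ⟨w, m⟩ := p
  constructor
  · intro h
    refine ⟨schedTwo_sub_schedPoly 0 h, ?_⟩
    obtain ⟨J, b, hw, _, h2, _⟩ := h
    simp only at hw
    subst hw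
    rw [Bool.and_eq_true]
    refine ⟨(isCode_iff _).2 ⟨((m, J), b), rfl⟩, ?_⟩
    rw [parse_code]
    exact (twoB_iff _).2 h2
  · rintro ⟨⟨J, b, hw, hv, _, hσ⟩, h⟩
    simp only at hw
    subst hw
    rw [Bool.and_eq_true, parse_code] at h
    exact ⟨J, b, rfl, hv, (twoB_iff _).1 h.2, hσ⟩

/-- the reduction from `SCHEDTwo` to `CMC` -/
def red2' (p : Word × ℕ) : Word × ℕ :=
  bif isCode SInst p.1 && twoB (parse SInst p.1) then red2 0 p else ([], p.2 + 1)

theorem schedTwo_le_cmc : PolyReduces (fun m => m + 1) SCHEDTwo CMC := by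
  refine ⟨red2', ?_, fun p => ⟨?_, ?_⟩⟩
  · unfold red2'
    exact PT.cond (PT.and (pt_isCode PT.fst) (pt_twoB (pt_parse PT.fst))) (pt_red2 0)
      (PT.pair (PT.const []) (PT.succ PT.snd))
  · unfold red2'
    cases (isCode SInst p.1 && twoB (parse SInst p.1)) <;> rfl
  · rw [mem_schedTwo_iff]
    unfold red2'
    by_cases hc : (isCode SInst p.1 && twoB (parse SInst p.1)) = true
    · rw [hc, cond_true]
      simp only [and_true]
      exact red2_iff 0 p
    · simp only [Bool.not_eq_true] at hc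
      rw [hc, cond_false]
      simp only [Bool.false_eq_true, and_false, false_iff]
      rintro ⟨r, V, E, hw, _⟩
      exact absurd hw (nil_ne_code _)

/-! ### Summary -/

theorem fpt_schedTwo_iff : FPT SCHEDTwo ↔ FPT CMC :=
  ⟨fpt_of_polyReduces computable_mul4 cmc_le_schedTwo,
    fpt_of_polyReduces computable_add1 schedTwo_le_cmc⟩

theorem fpt_schedPoly_iff (c : ℕ) : FPT (SCHEDPoly c) ↔ FPT CMC :=
  ⟨fpt_of_polyReduces computable_mul4 (cmc_le_schedPoly c),
    fpt_of_polyReduces computable_add1 (schedPoly_le_cmc c)⟩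

theorem fpt_cmc_of_sched : FPT SCHED → FPT CMC := fpt_of_polyReduces computable_mul4 cmc_le_sched

theorem wsat_le_schedTwo : PolyReduces (fun k => 4 * (k + 1)) WSAT SCHEDTwo :=
  polyReduces_trans wsat_le_cmc cmc_le_schedTwo

/-- `SCHEDTwo` is hard for every problem that is reducible to weighted satisfiability. -/
theorem schedTwo_wsat_hard (Q : Set (Word × ℕ)) (h : FptReduces Q WSAT) :
    FptReduces Q SCHEDTwo := by
  refine fptReduces_of_polyReduces ?_ ?_ h wsat_le_schedTwo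
  · exact computable_mul4.comp computable_add1
  · intro a b hab
    simp only
    omega

end Pool.Agent.Lib.MP_f25cb6_lc.X
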