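import Pool.Agent.Lib.MP_f25cb6_lc.X.Prog
import Pool.Agent.Lib.MP_f25cb6_lc.X.Parse

/-! # The job list of a program is computable in polynomial time -/

namespace Pool.Agent.Lib.MP_f25cb6_lc.X

open MP_634427_lc MP_be4430_lc

variable {γ : Type} [Enc γ]

theorem pt_Rs {ι : γ → Instr} {c : γ → ℕ} (hι : PT ι) (hc : PT c) :
    PT fun g => decide (Rs (ι g) (c g)) := by
  refine (PT.and (PT.eqNat (PT.fst' (PT.fst' hι)) (PT.fst' (PT.snd' hι)))
    (PT.eqNat hc (PT.fst' (PT.fst' hι)))).of_eq fun g => ?_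
  rw [← Bool.decide_and]
  exact decide_eq_decide.2 Iff.rfl

theorem pt_sh {ι : γ → Instr} {c : γ → ℕ} (hι : PT ι) (hc : PT c) :
    PT fun g => sh (ι g) (c g) := by
  unfold sh
  exact PT.ite (PT.eqNat hc (PT.fst' (PT.fst' hι))) (PT.snd' (PT.fst' hι))
    (PT.ite (PT.eqNat hc (PT.fst' (PT.snd' hι))) (PT.snd' (PT.snd' hι)) (PT.const 0))

theorem pt_mid {N c x : γ → ℕ} {ι : γ → Instr} (hN : PT N) (hι : PT ι) (hc : PT c) (hx : PT x) :
    PT fun g => mid (N g) (ι g) (c g) (x g) := by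
  unfold mid
  exact PT.ite (pt_Rs hι hc) (PT.mul (PT.const 2) hN)
    (PT.sub (PT.add (PT.mul (PT.const 2) hN) hx) (pt_sh hι hc))

theorem pt_priv {c x : γ → ℕ} {ι : γ → Instr} (hι : PT ι) (hc : PT c) (hx : PT x) :
    PT fun g => priv (ι g) (c g) (x g) := by
  unfold priv
  exact PT.or (PT.eqNat (PT.fst' (PT.fst' hι)) (PT.fst' (PT.snd' hι)))
    (PT.not (PT.or (PT.and (PT.eqNat hc (PT.fst' (PT.fst' hι))) (PT.eqNat hx (PT.snd' (PT.fst' hι))))
      (PT.and (PT.eqNat hc (PT.fst' (PT.snd' hι))) (PT.eqNat hx (PT.snd' (PT.snd' hι))))))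

theorem pt_jobsA {N m β : γ → ℕ} {ι : γ → Instr} (hN : PT N) (hm : PT m) (hβ : PT β) (hι : PT ι) :
    PT fun g => jobsA (N g) (m g) (β g) (ι g) := by
  unfold jobsA
  refine PT.flatMap (f := fun g c => (List.range (N g)).map fun x =>
    ((β g + x, β g + mid (N g) (ι g) c x), [c])) (PT.range hm) ?_
  refine PT.map (f := fun (p : γ × ℕ) x =>
    ((β p.1 + x, β p.1 + mid (N p.1) (ι p.1) p.2 x), [p.2])) (PT.range (hN.comp PT.fst)) ?_
  have h1 : PT fun p : (γ × ℕ) × ℕ => p.1.1 := PT.fst' PT.fst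
  have h2 : PT fun p : (γ × ℕ) × ℕ => p.1.2 := PT.snd' PT.fst
  have h3 : PT fun p : (γ × ℕ) × ℕ => p.2 := PT.snd
  exact PT.pair (PT.pair (PT.add (hβ.comp h1) h3)
    (PT.add (hβ.comp h1) (pt_mid (hN.comp h1) (hι.comp h1) h2 h3))) (PT.cons h2 (PT.const []))

theorem pt_jobsB {N m β : γ → ℕ} {ι : γ → Instr} (hN : PT N) (hm : PT m) (hβ : PT β) (hι : PT ι) :
    PT fun g => jobsB (N g) (m g) (β g) (ι g) := by
  unfold jobsB
  refine PT.append ?_ ?_
  · refine PT.flatMap (f := fun g c => ((List.range (N g)).filter fun x => priv (ι g) c x).map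
      fun x => ((β g + mid (N g) (ι g) c x, β g + mid (N g) (ι g) c x + 2 * N g), [c]))
      (PT.range hm) ?_
    refine PT.map (f := fun (p : γ × ℕ) x =>
      ((β p.1 + mid (N p.1) (ι p.1) p.2 x, β p.1 + mid (N p.1) (ι p.1) p.2 x + 2 * N p.1), [p.2]))
      (PT.filter (p := fun (p : γ × ℕ) x => priv (ι p.1) p.2 x) (PT.range (hN.comp PT.fst))
        (pt_priv (hι.comp (PT.fst' PT.fst)) (PT.snd' PT.fst) PT.snd)) ?_
    have h1 : PT fun p : (γ × ℕ) × ℕ => p.1.1 := PT.fst' PT.fst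
    have h2 : PT fun p : (γ × ℕ) × ℕ => p.1.2 := PT.snd' PT.fst
    have h3 : PT fun p : (γ × ℕ) × ℕ => p.2 := PT.snd
    have h4 := PT.add (hβ.comp h1) (pt_mid (hN.comp h1) (hι.comp h1) h2 h3)
    exact PT.pair (PT.pair h4 (PT.add h4 (PT.mul (PT.const 2) (hN.comp h1))))
      (PT.cons h2 (PT.const []))
  · exact PT.ite (PT.eqNat (PT.fst' (PT.fst' hι)) (PT.fst' (PT.snd' hι))) (PT.const [])
      (PT.cons (PT.pair (PT.pair (PT.add hβ (PT.mul (PT.const 2) hN))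
        (PT.add hβ (PT.mul (PT.const 4) hN)))
        (PT.cons (PT.fst' (PT.fst' hι)) (PT.cons (PT.fst' (PT.snd' hι)) (PT.const []))))
        (PT.const []))

theorem pt_jobsC {N m β : γ → ℕ} {ι : γ → Instr} (hN : PT N) (hm : PT m) (hβ : PT β) (hι : PT ι) :
    PT fun g => jobsC (N g) (m g) (β g) (ι g) := by
  unfold jobsC
  refine PT.flatMap (f := fun g c => (List.range (N g)).map fun x =>
    ((β g + mid (N g) (ι g) c x + 2 * N g, β g + 6 * N g + x), [c])) (PT.range hm) ?_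
  refine PT.map (f := fun (p : γ × ℕ) x =>
    ((β p.1 + mid (N p.1) (ι p.1) p.2 x + 2 * N p.1, β p.1 + 6 * N p.1 + x), [p.2]))
    (PT.range (hN.comp PT.fst)) ?_
  have h1 : PT fun p : (γ × ℕ) × ℕ => p.1.1 := PT.fst' PT.fst
  have h2 : PT fun p : (γ × ℕ) × ℕ => p.1.2 := PT.snd' PT.fst
  have h3 : PT fun p : (γ × ℕ) × ℕ => p.2 := PT.snd
  exact PT.pair (PT.pair (PT.add (PT.add (hβ.comp h1)
    (pt_mid (hN.comp h1) (hι.comp h1) h2 h3)) (PT.mul (PT.const 2) (hN.comp h1)))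
    (PT.add (PT.add (hβ.comp h1) (PT.mul (PT.const 6) (hN.comp h1))) h3))
    (PT.cons h2 (PT.const []))

theorem pt_jobsF {N m β : γ → ℕ} (hN : PT N) (hm : PT m) (hβ : PT β) :
    PT fun g => jobsF (N g) (m g) (β g) := by
  unfold jobsF
  refine PT.flatMap (f := fun g c => (List.range (N g)).map fun x =>
    ((β g + x, β g + 2 * N g), [c])) (PT.range hm) ?_
  refine PT.map (f := fun (p : γ × ℕ) x =>
    ((β p.1 + x, β p.1 + 2 * N p.1), [p.2])) (PT.range (hN.comp PT.fst)) ?_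
  have h1 : PT fun p : (γ × ℕ) × ℕ => p.1.1 := PT.fst' PT.fst
  have h2 : PT fun p : (γ × ℕ) × ℕ => p.1.2 := PT.snd' PT.fst
  have h3 : PT fun p : (γ × ℕ) × ℕ => p.2 := PT.snd
  exact PT.pair (PT.pair (PT.add (hβ.comp h1) h3)
    (PT.add (hβ.comp h1) (PT.mul (PT.const 2) (hN.comp h1)))) (PT.cons h2 (PT.const []))

theorem pt_jobs {N m : γ → ℕ} {l : γ → List Instr} (hN : PT N) (hm : PT m) (hl : PT l) :
    PT fun g => jobs (N g) (m g) (l g) := by
  unfold jobs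
  refine PT.append ?_ ?_
  · refine PT.flatMap (f := fun g t =>
      jobsA (N g) (m g) (6 * N g * t) ((l g).getD t (reset 0)) ++
      (jobsB (N g) (m g) (6 * N g * t) ((l g).getD t (reset 0)) ++
        jobsC (N g) (m g) (6 * N g * t) ((l g).getD t (reset 0)))) (PT.range (PT.length hl)) ?_
    have h1 : PT fun p : γ × ℕ => N p.1 := hN.comp PT.fst
    have h2 : PT fun p : γ × ℕ => m p.1 := hm.comp PT.fst
    have h3 : PT fun p : γ × ℕ => 6 * N p.1 * p.2 := PT.mul (PT.mul (PT.const 6) h1) PT.snd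
    have h4 : PT fun p : γ × ℕ => (l p.1).getD p.2 (reset 0) :=
      PT.getLD PT.snd (hl.comp PT.fst) (PT.const _)
    exact PT.append (pt_jobsA h1 h2 h3 h4) (PT.append (pt_jobsB h1 h2 h3 h4) (pt_jobsC h1 h2 h3 h4))
  · exact pt_jobsF hN hm (PT.mul (PT.mul (PT.const 6) hN) (PT.length hl))

theorem pt_toJob {j : γ → RJob} (hj : PT j) : PT fun g => toJob (j g) := by
  unfold toJob
  exact PT.pair (PT.pair (pt_toBin (PT.fst' (PT.fst' hj))) (pt_toBin (PT.snd' (PT.fst' hj))))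
    (PT.pair (PT.const [true]) (PT.snd' hj))

theorem pt_jobList {N m : γ → ℕ} {l : γ → List Instr} (hN : PT N) (hm : PT m) (hl : PT l) :
    PT fun g => jobList (N g) (m g) (l g) := by
  unfold jobList
  exact pt_dedup enc_injective_of_dec (PT.map (f := fun _ j => toJob j) (pt_jobs hN hm hl)
    (pt_toJob PT.snd))

end Pool.Agent.Lib.MP_f25cb6_lc.X
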