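import Pool.Agent.Lib.MP_f25cb6_lc.X.Chain
import Pool.Agent.Lib.MP_f25cb6_lc.X.PTJobs

/-! # The program for chained cliques is computable in polynomial time -/

namespace Pool.Agent.Lib.MP_f25cb6_lc.X

open MP_634427_lc MP_be4430_lc

variable {γ : Type} [Enc γ]

/-- membership, for any instance of decidability -/
theorem pt_memD {α : Type} [Enc α] [Dec α] [DecidableEq α] {a : γ → α} {l : γ → List α}
    [∀ g, Decidable (a g ∈ l g)] (ha : PT a) (hl : PT l) : PT fun g => decide (a g ∈ l g) :=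
  (pt_mem enc_injective_of_dec ha hl).of_eq fun g => by congr

theorem pt_mach {j e f : γ → ℕ} (hj : PT j) (he : PT e) (hf : PT f) :
    PT fun g => mach (j g) (e g) (f g) := by
  unfold mach
  exact PT.add (PT.add (PT.mul (PT.const 4) hj) (PT.mul (PT.const 2) he)) hf

theorem pt_mod2 {n : γ → ℕ} (hn : PT n) : PT fun g => n g % 2 := by
  have h := PT.natRec (s := fun _ => (0 : ℕ)) (f := fun (_ : γ) (_ r : ℕ) => 1 - r) hn (PT.const 0)
    (PT.sub (PT.const 1) (PT.snd' PT.snd)) ⟨1, fun c i _ => by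
      have : (Nat.rec (motive := fun _ => ℕ) 0 (fun _ r => 1 - r) i : ℕ) ≤ 1 := by
        cases i with
        | zero => exact Nat.zero_le _
        | succ i => exact Nat.sub_le _ _
      rw [sz_nat, pow_one]
      omega⟩
  refine h.of_eq fun c => ?_
  have key : ∀ i : ℕ, (Nat.rec (motive := fun _ => ℕ) 0 (fun _ r => 1 - r) i : ℕ) = i % 2 := by
    intro i
    induction i with
    | zero => rfl
    | succ i ih =>
      show 1 - (Nat.rec (motive := fun _ => ℕ) 0 (fun _ r => 1 - r) i : ℕ) = _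
      rw [ih]
      omega
  exact key _

theorem pt_resets {k e : γ → ℕ} (hk : PT k) (he : PT e) : PT fun g => resets (k g) (e g) := by
  unfold resets
  refine PT.map (f := fun _ a => reset a) (PT.flatMap (f := fun g j => [mach j (e g) 0, mach j (e g) 1])
    (PT.range hk) ?_) ?_
  · exact PT.cons (pt_mach PT.snd (he.comp PT.fst) (PT.const 0))
      (PT.cons (pt_mach PT.snd (he.comp PT.fst) (PT.const 1)) (PT.const []))
  · unfold reset
    exact PT.pair (PT.pair PT.snd (PT.const 0)) (PT.pair PT.snd (PT.const 0))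

theorem pt_level {N s : γ → ℕ} (hN : PT N) (hs : PT s) : PT fun g => level (N g) (s g) := by
  unfold level
  refine PT.map (f := fun g x => (x, s g - x)) (PT.filter (p := fun g x =>
    decide (x ≤ s g) && decide (s g - x < N g)) (PT.range hN) ?_) ?_
  · exact PT.and (PT.le PT.snd (hs.comp PT.fst))
      (PT.lt (PT.sub (hs.comp PT.fst) PT.snd) (hN.comp PT.fst))
  · exact PT.pair PT.snd (PT.sub (hs.comp PT.fst) PT.snd)

theorem pt_checkLevel {N a a' s : γ → ℕ} (hN : PT N) (ha : PT a) (ha' : PT a') (hs : PT s) :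
    PT fun g => checkLevel (N g) (a g) (a' g) (s g) := by
  unfold checkLevel
  refine PT.map (f := fun g (p : ℕ × ℕ) => ((a g, p.1), (a' g, p.2))) (pt_level hN hs) ?_
  exact PT.pair (PT.pair (ha.comp PT.fst) (PT.fst' PT.snd))
    (PT.pair (ha'.comp PT.fst) (PT.snd' PT.snd))

theorem pt_check {N a a' : γ → ℕ} (hN : PT N) (ha : PT a) (ha' : PT a') :
    PT fun g => check (N g) (a g) (a' g) := by
  unfold check
  refine PT.flatMap (f := fun g s => if s = N g - 1 then [] else checkLevel (N g) (a g) (a' g) s)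
    (PT.range (PT.sub (PT.mul (PT.const 2) hN) (PT.const 1))) ?_
  exact PT.ite (PT.eqNat PT.snd (PT.sub (hN.comp PT.fst) (PT.const 1))) (PT.const [])
    (pt_checkLevel (hN.comp PT.fst) (ha.comp PT.fst) (ha'.comp PT.fst) PT.snd)

theorem pt_checkAll {N k : γ → ℕ} (hN : PT N) (hk : PT k) :
    PT fun g => checkAll (N g) (k g) := by
  unfold checkAll
  refine PT.flatMap (f := fun g j => check (N g) (mach j 0 0) (mach j 0 1) ++
    check (N g) (mach j 1 0) (mach j 1 1)) (PT.range hk) ?_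
  exact PT.append (pt_check (hN.comp PT.fst) (pt_mach PT.snd (PT.const 0) (PT.const 0))
      (pt_mach PT.snd (PT.const 0) (PT.const 1)))
    (pt_check (hN.comp PT.fst) (pt_mach PT.snd (PT.const 1) (PT.const 0))
      (pt_mach PT.snd (PT.const 1) (PT.const 1)))

theorem pt_adjb {E : γ → List (Vtx × Vtx)} {u v : γ → Vtx} (hE : PT E) (hu : PT u) (hv : PT v) :
    PT fun g => adjb (E g) (u g) (v g) := by
  unfold adjb
  exact PT.or (pt_memD (PT.pair hu hv) hE) (pt_memD (PT.pair hv hu) hE)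

theorem pt_allPairs {N : γ → ℕ} (hN : PT N) : PT fun g => allPairs (N g) := by
  unfold allPairs
  refine PT.flatMap (f := fun g x => (List.range (N g)).map fun x' => (x, x')) (PT.range hN) ?_
  exact PT.map (f := fun (p : γ × ℕ) x' => (p.2, x')) (PT.range (hN.comp PT.fst))
    (PT.pair (PT.snd' PT.fst) PT.snd)

theorem pt_testsV {N k i : γ → ℕ} {V : γ → List Vtx} (hN : PT N) (hk : PT k) (hV : PT V)
    (hi : PT i) : PT fun g => testsV (N g) (k g) (V g) (i g) := by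
  unfold testsV
  refine PT.flatMap (f := fun g j =>
    ((List.range (N g)).filter fun z => !decide (((i g, j), z) ∈ V g)).map fun z =>
      ((mach j (i g % 2) 0, z), (mach j (i g % 2) 1, N g - 1 - z))) (PT.range hk) ?_
  refine PT.map (f := fun (p : γ × ℕ) z =>
      ((mach p.2 (i p.1 % 2) 0, z), (mach p.2 (i p.1 % 2) 1, N p.1 - 1 - z)))
    (PT.filter (p := fun (p : γ × ℕ) z => !decide (((i p.1, p.2), z) ∈ V p.1))
      (PT.range (hN.comp PT.fst)) ?_) ?_
  · have h1 : PT fun p : (γ × ℕ) × ℕ => p.1.1 := PT.fst' PT.fst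
    exact PT.not (pt_memD
      (PT.pair (PT.pair (hi.comp h1) (PT.snd' PT.fst)) PT.snd) (hV.comp h1))
  · have h1 : PT fun p : (γ × ℕ) × ℕ => p.1.1 := PT.fst' PT.fst
    have h2 : PT fun p : (γ × ℕ) × ℕ => p.1.2 := PT.snd' PT.fst
    exact PT.pair (PT.pair (pt_mach h2 (pt_mod2 (hi.comp h1)) (PT.const 0)) PT.snd)
      (PT.pair (pt_mach h2 (pt_mod2 (hi.comp h1)) (PT.const 1))
        (PT.sub (PT.sub (hN.comp h1) (PT.const 1)) PT.snd))

theorem pt_testsS {N k i : γ → ℕ} {E : γ → List (Vtx × Vtx)} (hN : PT N) (hk : PT k) (hE : PT E)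
    (hi : PT i) : PT fun g => testsS (N g) (k g) (E g) (i g) := by
  unfold testsS
  refine PT.flatMap (f := fun g j => (List.range (k g)).flatMap fun j' =>
    if j = j' then [] else
      ((allPairs (N g)).filter fun x => !adjb (E g) ((i g, j), x.1) ((i g, j'), x.2)).map fun x =>
        ((mach j (i g % 2) 0, x.1), (mach j' (i g % 2) 0, x.2))) (PT.range hk) ?_
  refine PT.flatMap (f := fun (p : γ × ℕ) j' =>
    if p.2 = j' then [] else
      ((allPairs (N p.1)).filter fun x =>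
        !adjb (E p.1) ((i p.1, p.2), x.1) ((i p.1, j'), x.2)).map fun x =>
        ((mach p.2 (i p.1 % 2) 0, x.1), (mach j' (i p.1 % 2) 0, x.2)))
      (PT.range (hk.comp PT.fst)) ?_
  refine PT.ite (PT.eqNat (PT.snd' PT.fst) PT.snd) (PT.const []) ?_
  have h1 : PT fun p : ((γ × ℕ) × ℕ) × (ℕ × ℕ) => p.1.1.1 := PT.fst' (PT.fst' PT.fst)
  have h2 : PT fun p : ((γ × ℕ) × ℕ) × (ℕ × ℕ) => p.1.1.2 := PT.snd' (PT.fst' PT.fst)
  have h3 : PT fun p : ((γ × ℕ) × ℕ) × (ℕ × ℕ) => p.1.2 := PT.snd' PT.fst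
  have h4 : PT fun p : ((γ × ℕ) × ℕ) × (ℕ × ℕ) => p.2.1 := PT.fst' PT.snd
  have h5 : PT fun p : ((γ × ℕ) × ℕ) × (ℕ × ℕ) => p.2.2 := PT.snd' PT.snd
  refine PT.map (f := fun (p : (γ × ℕ) × ℕ) (x : ℕ × ℕ) =>
        ((mach p.1.2 (i p.1.1 % 2) 0, x.1), (mach p.2 (i p.1.1 % 2) 0, x.2)))
    (PT.filter (p := fun (p : (γ × ℕ) × ℕ) (x : ℕ × ℕ) =>
      !adjb (E p.1.1) ((i p.1.1, p.1.2), x.1) ((i p.1.1, p.2), x.2))
      (pt_allPairs (hN.comp (PT.fst' PT.fst))) ?_) ?_
  · exact PT.not (pt_adjb (hE.comp h1) (PT.pair (PT.pair (hi.comp h1) h2) h4)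
      (PT.pair (PT.pair (hi.comp h1) h3) h5))
  · exact PT.pair (PT.pair (pt_mach h2 (pt_mod2 (hi.comp h1)) (PT.const 0)) h4)
      (PT.pair (pt_mach h3 (pt_mod2 (hi.comp h1)) (PT.const 0)) h5)

theorem pt_testsP {N k i : γ → ℕ} {E : γ → List (Vtx × Vtx)} (hN : PT N) (hk : PT k) (hE : PT E)
    (hi : PT i) : PT fun g => testsP (N g) (k g) (E g) (i g) := by
  unfold testsP
  refine PT.ite (PT.isZero hi) (PT.const []) ?_
  refine PT.flatMap (f := fun g j => (List.range (k g)).flatMap fun j' =>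
      ((allPairs (N g)).filter fun x =>
        !adjb (E g) ((i g, j), x.1) ((i g - 1, j'), x.2)).map fun x =>
        ((mach j (i g % 2) 0, x.1), (mach j' ((i g + 1) % 2) 0, x.2))) (PT.range hk) ?_
  refine PT.flatMap (f := fun (p : γ × ℕ) j' =>
      ((allPairs (N p.1)).filter fun x =>
        !adjb (E p.1) ((i p.1, p.2), x.1) ((i p.1 - 1, j'), x.2)).map fun x =>
        ((mach p.2 (i p.1 % 2) 0, x.1), (mach j' ((i p.1 + 1) % 2) 0, x.2)))
      (PT.range (hk.comp PT.fst)) ?_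
  have h1 : PT fun p : ((γ × ℕ) × ℕ) × (ℕ × ℕ) => p.1.1.1 := PT.fst' (PT.fst' PT.fst)
  have h2 : PT fun p : ((γ × ℕ) × ℕ) × (ℕ × ℕ) => p.1.1.2 := PT.snd' (PT.fst' PT.fst)
  have h3 : PT fun p : ((γ × ℕ) × ℕ) × (ℕ × ℕ) => p.1.2 := PT.snd' PT.fst
  have h4 : PT fun p : ((γ × ℕ) × ℕ) × (ℕ × ℕ) => p.2.1 := PT.fst' PT.snd
  have h5 : PT fun p : ((γ × ℕ) × ℕ) × (ℕ × ℕ) => p.2.2 := PT.snd' PT.snd
  refine PT.map (f := fun (p : (γ × ℕ) × ℕ) (x : ℕ × ℕ) =>
        ((mach p.1.2 (i p.1.1 % 2) 0, x.1), (mach p.2 ((i p.1.1 + 1) % 2) 0, x.2)))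
    (PT.filter (p := fun (p : (γ × ℕ) × ℕ) (x : ℕ × ℕ) =>
      !adjb (E p.1.1) ((i p.1.1, p.1.2), x.1) ((i p.1.1 - 1, p.2), x.2))
      (pt_allPairs (hN.comp (PT.fst' PT.fst))) ?_) ?_
  · exact PT.not (pt_adjb (hE.comp h1) (PT.pair (PT.pair (hi.comp h1) h2) h4)
      (PT.pair (PT.pair (PT.sub (hi.comp h1) (PT.const 1)) h3) h5))
  · exact PT.pair (PT.pair (pt_mach h2 (pt_mod2 (hi.comp h1)) (PT.const 0)) h4)
      (PT.pair (pt_mach h3 (pt_mod2 (PT.succ (hi.comp h1))) (PT.const 0)) h5)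

theorem pt_prog {N k r : γ → ℕ} {V : γ → List Vtx} {E : γ → List (Vtx × Vtx)} (hN : PT N)
    (hk : PT k) (hr : PT r) (hV : PT V) (hE : PT E) :
    PT fun g => prog (N g) (k g) (r g) (V g) (E g) := by
  unfold prog
  refine PT.flatMap (f := fun g i => seg (N g) (k g) (V g) (E g) i) (PT.range hr) ?_
  have h1 : PT fun p : γ × ℕ => N p.1 := hN.comp PT.fst
  have h2 : PT fun p : γ × ℕ => k p.1 := hk.comp PT.fst
  have h3 : PT fun p : γ × ℕ => V p.1 := hV.comp PT.fst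
  have h4 : PT fun p : γ × ℕ => E p.1 := hE.comp PT.fst
  unfold seg tests
  exact PT.append (pt_resets h2 (pt_mod2 PT.snd)) (PT.append (pt_checkAll h1 h2)
    (PT.append (PT.append (pt_testsV h1 h2 h3 PT.snd) (PT.append (pt_testsS h1 h2 h4 PT.snd)
      (pt_testsP h1 h2 h4 PT.snd))) (pt_checkAll h1 h2)))

end Pool.Agent.Lib.MP_f25cb6_lc.X
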