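import Pool.Agent.Lib.MP_f25cb6_lc.X.Defs
import Pool.Agent.Lib.MP_f25cb6_lc.X.PTChain

/-!
# Chained graphs from labels

A label is `((i, j), (p, c))`: a vertex of colour `j` in the part `V_i` with the data `(p, c)`.
-/

namespace Pool.Agent.Lib.MP_f25cb6_lc.X

open MP_634427_lc MP_be4430_lc

/-- A label. -/
abbrev Lab := (ℕ × ℕ) × (ℕ × ℕ)

/-- the vertex of a label; `P` is larger than all first numbers of the data -/
def toVtx (P : ℕ) (l : Lab) : Vtx := (l.1, l.2.1 + P * l.2.2)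

/-- the vertices -/
def mkV (P : ℕ) (L : List Lab) : List Vtx := L.map (toVtx P)

/-- the edges: `A l l'` says that there is an edge between the labels `l` and `l'` -/
def mkE (P : ℕ) (L : List Lab) (A : Lab → Lab → Bool) : List (Vtx × Vtx) :=
  L.flatMap fun l => (L.filter fun l' => A l l').map fun l' => (toVtx P l, toVtx P l')

theorem toVtx_inj {P : ℕ} {l l' : Lab} (h : l.2.1 < P) (h' : l'.2.1 < P)
    (he : toVtx P l = toVtx P l') : l = l' := by
  obtain ⟨a, b, c⟩ := l
  obtain ⟨a', b', c'⟩ := l'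
  have he1 : a = a' := congrArg Prod.fst he
  have he2 : b + P * c = b' + P * c' := congrArg Prod.snd he
  have hb : b = b' := by
    have := congrArg (· % P) he2
    simp only [Nat.add_mul_mod_self_left] at this
    rwa [Nat.mod_eq_of_lt h, Nat.mod_eq_of_lt h'] at this
  have hP : 0 < P := Nat.lt_of_le_of_lt (Nat.zero_le _) h
  subst hb
  have hc : c = c' := Nat.eq_of_mul_eq_mul_left hP (Nat.add_left_cancel he2)
  rw [he1, hc]

private theorem mem_mkV {P : ℕ} {L : List Lab} {u : Vtx} :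
    u ∈ mkV P L ↔ ∃ l ∈ L, toVtx P l = u := by
  unfold mkV
  exact List.mem_map

private theorem mem_mkE {P : ℕ} {L : List Lab} {A : Lab → Lab → Bool} {e : Vtx × Vtx} :
    e ∈ mkE P L A ↔ ∃ l ∈ L, ∃ l' ∈ L, A l l' = true ∧ (toVtx P l, toVtx P l') = e := by
  unfold mkE
  simp only [List.mem_flatMap, List.mem_map, List.mem_filter, and_assoc]

/-- The graph is a chained graph. -/
theorem mk_isChained {k r P : ℕ} {L : List Lab} {A : Lab → Lab → Bool}
    (hL : ∀ l ∈ L, l.1.1 < r ∧ l.1.2 < k ∧ l.2.1 < P)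
    (hA : ∀ l ∈ L, ∀ l' ∈ L, A l l' = true →
      (l.1.1 = l'.1.1 ∧ l.1.2 ≠ l'.1.2) ∨ l.1.1 + 1 = l'.1.1) :
    IsChained k r (mkV P L) (mkE P L A) := by
  constructor
  · intro u hu
    obtain ⟨l, hl, rfl⟩ := mem_mkV.1 hu
    exact ⟨(hL l hl).1, (hL l hl).2.1⟩
  · intro e he
    obtain ⟨l, hl, l', hl', hA', rfl⟩ := mem_mkE.1 he
    refine ⟨mem_mkV.2 ⟨l, hl, rfl⟩, mem_mkV.2 ⟨l', hl', rfl⟩, ?_, ?_, ?_⟩
    · intro h
      have h1 : l.1 = l'.1 := congrArg (fun v : Vtx => v.1) h
      rcases hA l hl l' hl' hA' with h2 | h2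
      · exact h2.2 (by rw [h1])
      · rw [h1] at h2
        omega
    · show l.1.1 ≤ l'.1.1 + 1
      rcases hA l hl l' hl' hA' with h2 | h2 <;> omega
    · show l'.1.1 ≤ l.1.1 + 1
      rcases hA l hl l' hl' hA' with h2 | h2 <;> omega

private theorem adj_lab {k r P : ℕ} {L : List Lab} {A : Lab → Lab → Bool}
    (hL : ∀ l ∈ L, l.1.1 < r ∧ l.1.2 < k ∧ l.2.1 < P) {i j i' j' : ℕ} {a b : ℕ × ℕ}
    (ha : ((i, j), a) ∈ L) (hb : ((i', j'), b) ∈ L)
    (h : (toVtx P ((i, j), a), toVtx P ((i', j'), b)) ∈ mkE P L A) :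
    A ((i, j), a) ((i', j'), b) = true := by
  obtain ⟨l, hl, l', hl', hA', he⟩ := mem_mkE.1 h
  have h1 : l = ((i, j), a) :=
    toVtx_inj (hL l hl).2.2 (hL _ ha).2.2 (congrArg Prod.fst he)
  have h2 : l' = ((i', j'), b) :=
    toVtx_inj (hL l' hl').2.2 (hL _ hb).2.2 (congrArg Prod.snd he)
  rw [← h1, ← h2]
  exact hA'

/-- Chained cliques in terms of labels.
(`x i j = p + P * c` for `f i j = (p, c)`.  Adjacency of two vertices of labels in `L` is `A` in one
of the two directions, by `toVtx_inj`; for two labels of consecutive parts only the direction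
from `i` to `i + 1` is possible, by `hA`.) -/
theorem mk_clique_iff {k r P : ℕ} {L : List Lab} {A : Lab → Lab → Bool}
    (hL : ∀ l ∈ L, l.1.1 < r ∧ l.1.2 < k ∧ l.2.1 < P)
    (hA : ∀ l ∈ L, ∀ l' ∈ L, A l l' = true →
      (l.1.1 = l'.1.1 ∧ l.1.2 ≠ l'.1.2) ∨ l.1.1 + 1 = l'.1.1) :
    (∃ x, IsChainedClique k r (mkV P L) (mkE P L A) x) ↔
      ∃ f : ℕ → ℕ → ℕ × ℕ, (∀ i < r, ∀ j < k, ((i, j), f i j) ∈ L) ∧
        (∀ i < r, ∀ j < k, ∀ j' < k, j ≠ j' →
          A ((i, j), f i j) ((i, j'), f i j') = true ∨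
            A ((i, j'), f i j') ((i, j), f i j) = true) ∧
        ∀ i, i + 1 < r → ∀ j < k, ∀ j' < k,
          A ((i, j), f i j) ((i + 1, j'), f (i + 1) j') = true := by
  constructor
  · rintro ⟨x, hx, hc⟩
    have key : ∀ i < r, ∀ j < k, ((i, j), (x i j % P, x i j / P)) ∈ L ∧
        toVtx P ((i, j), (x i j % P, x i j / P)) = ((i, j), x i j) := by
      intro i hi j hj
      obtain ⟨l, hl, he⟩ := mem_mkV.1 (hx i hi j hj)
      have h3 := (hL l hl).2.2
      obtain ⟨a, b, c⟩ := l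
      have he1 : a = (i, j) := congrArg Prod.fst he
      have he2 : b + P * c = x i j := congrArg Prod.snd he
      have hP : 0 < P := Nat.lt_of_le_of_lt (Nat.zero_le _) h3
      have hm : x i j % P = b := by
        rw [← he2, Nat.add_mul_mod_self_left]
        exact Nat.mod_eq_of_lt h3
      have hd : x i j / P = c := by
        rw [← he2, Nat.add_mul_div_left _ _ hP, Nat.div_eq_of_lt h3, Nat.zero_add]
      rw [hm, hd, ← he1]
      refine ⟨hl, ?_⟩
      rw [he, he1]
    refine ⟨fun i j => (x i j % P, x i j / P), fun i hi j hj => (key i hi j hj).1, ?_, ?_⟩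
    · intro i hi j hj j' hj' hjj
      have h := hc i hi j hj i hi j' hj' (fun h => hjj (congrArg Prod.snd h)) (by omega) (by omega)
      rw [← (key i hi j hj).2, ← (key i hi j' hj').2] at h
      rcases h with h | h
      · exact Or.inl (adj_lab hL (key i hi j hj).1 (key i hi j' hj').1 h)
      · exact Or.inr (adj_lab hL (key i hi j' hj').1 (key i hi j hj).1 h)
    · intro i hi j hj j' hj'
      have hi0 : i < r := by omega
      have h := hc i hi0 j hj (i + 1) hi j' hj'
        (fun h => by have := congrArg Prod.fst h; simp at this) (by omega) (by omega)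
      rw [← (key i hi0 j hj).2, ← (key (i + 1) hi j' hj').2] at h
      rcases h with h | h
      · exact adj_lab hL (key i hi0 j hj).1 (key (i + 1) hi j' hj').1 h
      · exfalso
        have h1 := adj_lab hL (key (i + 1) hi j' hj').1 (key i hi0 j hj).1 h
        rcases hA _ (key (i + 1) hi j' hj').1 _ (key i hi0 j hj).1 h1 with h2 | h2
        · have := h2.1
          simp at this
        · simp at h2
          omega
  · rintro ⟨f, hf, hs, hn⟩
    refine ⟨fun i j => (f i j).1 + P * (f i j).2, fun i hi j hj =>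
      mem_mkV.2 ⟨((i, j), f i j), hf i hi j hj, rfl⟩, ?_⟩
    intro i hi j hj i' hi' j' hj' hne h1 h2
    have hE : ∀ i < r, ∀ j < k, ∀ i' < r, ∀ j' < k,
        A ((i, j), f i j) ((i', j'), f i' j') = true →
        ((((i, j), (f i j).1 + P * (f i j).2), ((i', j'), (f i' j').1 + P * (f i' j').2)) :
          Vtx × Vtx) ∈ mkE P L A := fun i hi j hj i' hi' j' hj' h =>
      mem_mkE.2 ⟨((i, j), f i j), hf i hi j hj, ((i', j'), f i' j'), hf i' hi' j' hj', h, rfl⟩
    rcases Nat.lt_trichotomy i i' with h | h | h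
    · have h3 : i' = i + 1 := by omega
      subst h3
      exact Or.inl (hE i hi j hj (i + 1) hi' j' hj' (hn i hi' j hj j' hj'))
    · subst h
      have hjj : j ≠ j' := fun h => hne (by rw [h])
      rcases hs i hi j hj j' hj' hjj with h | h
      · exact Or.inl (hE i hi j hj i hi j' hj' h)
      · exact Or.inr (hE i hi j' hj' i hi j hj h)
    · have h3 : i = i' + 1 := by omega
      subst h3
      exact Or.inr (hE i' hi' j' hj' (i' + 1) hi j hj (hn i' hi j' hj' j hj))

theorem pt_toVtx {γ : Type} [Enc γ] {P : γ → ℕ} {l : γ → Lab} (hP : PT P) (hl : PT l) :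
    PT fun g => toVtx (P g) (l g) := by
  unfold toVtx
  exact PT.pair (PT.fst' hl) (PT.add (PT.fst' (PT.snd' hl)) (PT.mul hP (PT.snd' (PT.snd' hl))))

theorem pt_mkV {γ : Type} [Enc γ] {P : γ → ℕ} {L : γ → List Lab} (hP : PT P) (hL : PT L) :
    PT fun g => mkV (P g) (L g) := by
  unfold mkV
  exact PT.map (f := fun g l => toVtx (P g) l) hL (pt_toVtx (hP.comp PT.fst) PT.snd)

theorem pt_mkE {γ : Type} [Enc γ] {P : γ → ℕ} {L : γ → List Lab} {A : γ → Lab → Lab → Bool}
    (hP : PT P) (hL : PT L) (hA : PT fun p : γ × (Lab × Lab) => A p.1 p.2.1 p.2.2) :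
    PT fun g => mkE (P g) (L g) (A g) := by
  unfold mkE
  refine PT.flatMap (f := fun g l => ((L g).filter fun l' => A g l l').map fun l' =>
    (toVtx (P g) l, toVtx (P g) l')) hL ?_
  refine PT.map (f := fun (p : γ × Lab) l' => (toVtx (P p.1) p.2, toVtx (P p.1) l'))
    (PT.filter (p := fun (p : γ × Lab) l' => A p.1 p.2 l') (hL.comp PT.fst) ?_) ?_
  · exact hA.comp (PT.pair (PT.fst' PT.fst) (PT.pair (PT.snd' PT.fst) PT.snd))
  · exact PT.pair (pt_toVtx (hP.comp (PT.fst' PT.fst)) (PT.snd' PT.fst))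
      (pt_toVtx (hP.comp (PT.fst' PT.fst)) PT.snd)

end Pool.Agent.Lib.MP_f25cb6_lc.X
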