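import Pool.Agent.Lib.MP_f25cb6_lc.X.Prog

/-! # Where the jobs of a program are -/

namespace Pool.Agent.Lib.MP_f25cb6_lc.X

open MP_634427_lc MP_be4430_lc

theorem release_toJob (j : RJob) : release (toJob j) = j.1.1 := bval_toBin _

theorem due_toJob (j : RJob) : due (toJob j) = j.1.2 := bval_toBin _

theorem weight_toJob (j : RJob) : weight (toJob j) = 1 := rfl

theorem eligible_toJob (j : RJob) : eligible (toJob j) = j.2 := rfl

theorem toJob_injective : Function.Injective toJob := by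
  intro j j' h
  have h1 := release_toJob j
  have h2 := due_toJob j
  have h3 := eligible_toJob j
  rw [h] at h1 h2 h3
  rw [release_toJob] at h1
  rw [due_toJob] at h2
  rw [eligible_toJob] at h3
  exact Prod.ext (Prod.ext h1.symm h2.symm) h3.symm

theorem mem_jobList {N m : ℕ} {l : List Instr} {t : Job} :
    t ∈ jobList N m l ↔ ∃ j ∈ jobs N m l, t = toJob j := by
  simp only [jobList, List.mem_dedup, List.mem_map, eq_comm]

theorem nodup_jobList (N m : ℕ) (l : List Instr) : (jobList N m l).Nodup := List.nodup_dedup _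

/-- The interval `[r, d)` belongs to phase number `p`. -/
def Loc (N p r d : ℕ) : Prop :=
  2 * N * p < r + N ∧ r < 2 * N * p + N ∧ 2 * N * p + N < d ∧ d < 2 * N * p + 3 * N

theorem Loc.slot {N p q r d : ℕ} (h : Loc N p r d) (h1 : r ≤ 2 * N * q + N)
    (h2 : 2 * N * q + N < d) : q = p := by
  obtain ⟨a, b, c, e⟩ := h
  rcases lt_trichotomy q p with hlt | rfl | hlt
  · exfalso
    have : 2 * N * (q + 1) ≤ 2 * N * p := Nat.mul_le_mul_left _ hlt
    rw [Nat.mul_succ] at this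
    omega
  · rfl
  · exfalso
    have : 2 * N * (p + 1) ≤ 2 * N * q := Nat.mul_le_mul_left _ hlt
    rw [Nat.mul_succ] at this
    omega

theorem Loc.unique {N p q r d : ℕ} (h : Loc N p r d) (h' : Loc N q r d) : p = q :=
  h'.slot (by have := h.2.1; omega) h.2.2.1

theorem mid_lt {N : ℕ} {ι : Instr} {c x : ℕ} (hN : 0 < N) (hx : x < N) : mid N ι c x < 3 * N := by
  unfold mid
  split_ifs
  · omega
  · omega

theorem sh_lt {N m : ℕ} {ι : Instr} (hι : Wf N m ι) (c : ℕ) : sh ι c < N := by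
  obtain ⟨_, _, h1, h2⟩ := hι
  unfold sh
  split_ifs
  · exact h1
  · exact h2
  · omega

theorem lt_mid {N m : ℕ} {ι : Instr} (hι : Wf N m ι) (c x : ℕ) : N < mid N ι c x := by
  have h1 := sh_lt hι c
  unfold mid
  split_ifs
  · omega
  · omega

theorem mem_jobsA {N m β : ℕ} {ι : Instr} {j : RJob} : j ∈ jobsA N m β ι ↔
    ∃ c < m, ∃ x < N, j = ((β + x, β + mid N ι c x), [c]) := by
  simp only [jobsA, List.mem_flatMap, List.mem_range, List.mem_map, eq_comm]

theorem mem_jobsB {N m β : ℕ} {ι : Instr} {j : RJob} : j ∈ jobsB N m β ι ↔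
    (∃ c < m, ∃ x < N, priv ι c x = true ∧
      j = ((β + mid N ι c x, β + mid N ι c x + 2 * N), [c])) ∨
    (ι.1.1 ≠ ι.2.1 ∧ j = ((β + 2 * N, β + 4 * N), [ι.1.1, ι.2.1])) := by
  simp only [jobsB, List.mem_append, List.mem_flatMap, List.mem_range, List.mem_map,
    List.mem_filter, and_assoc]
  refine or_congr ?_ ?_
  · constructor
    · rintro ⟨c, hc, x, hx, hp, rfl⟩
      exact ⟨c, hc, x, hx, hp, rfl⟩
    · rintro ⟨c, hc, x, hx, hp, rfl⟩
      exact ⟨c, hc, x, hx, hp, rfl⟩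
  · by_cases h : ι.1.1 = ι.2.1 <;> simp [h]

theorem mem_jobsC {N m β : ℕ} {ι : Instr} {j : RJob} : j ∈ jobsC N m β ι ↔
    ∃ c < m, ∃ x < N, j = ((β + mid N ι c x + 2 * N, β + 6 * N + x), [c]) := by
  simp only [jobsC, List.mem_flatMap, List.mem_range, List.mem_map, eq_comm]

theorem mem_jobsF {N m β : ℕ} {j : RJob} : j ∈ jobsF N m β ↔
    ∃ c < m, ∃ x < N, j = ((β + x, β + 2 * N), [c]) := by
  simp only [jobsF, List.mem_flatMap, List.mem_range, List.mem_map, eq_comm]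

theorem mem_jobs {N m : ℕ} {l : List Instr} {j : RJob} : j ∈ jobs N m l ↔
    (∃ t, ∃ h : t < l.length, j ∈ jobsA N m (6 * N * t) l[t] ∨ j ∈ jobsB N m (6 * N * t) l[t] ∨
      j ∈ jobsC N m (6 * N * t) l[t]) ∨ j ∈ jobsF N m (6 * N * l.length) := by
  simp only [jobs, List.mem_append, List.mem_flatMap, List.mem_range]
  refine or_congr_left ?_
  constructor
  · rintro ⟨t, ht, h⟩
    rw [List.getD_eq_getElem _ _ ht] at h
    exact ⟨t, ht, h⟩
  · rintro ⟨t, ht, h⟩
    refine ⟨t, ht, ?_⟩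
    rw [List.getD_eq_getElem _ _ ht]
    exact h

theorem loc_jobsA {N m t : ℕ} {ι : Instr} (hN : 0 < N) (hι : Wf N m ι) {j : RJob}
    (hj : j ∈ jobsA N m (6 * N * t) ι) : Loc N (3 * t) j.1.1 j.1.2 := by
  obtain ⟨c, _, x, hx, rfl⟩ := mem_jobsA.1 hj
  have h1 := mid_lt (ι := ι) (c := c) hN hx
  have h2 := lt_mid hι c x
  have h3 : 2 * N * (3 * t) = 6 * N * t := by ring
  unfold Loc
  rw [h3]
  refine ⟨?_, ?_, ?_, ?_⟩ <;> simp only <;> omega

theorem loc_jobsB {N m t : ℕ} {ι : Instr} (hN : 0 < N) (hι : Wf N m ι) {j : RJob}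
    (hj : j ∈ jobsB N m (6 * N * t) ι) : Loc N (3 * t + 1) j.1.1 j.1.2 := by
  have h3 : 2 * N * (3 * t + 1) = 6 * N * t + 2 * N := by ring
  unfold Loc
  rw [h3]
  rcases mem_jobsB.1 hj with ⟨c, _, x, hx, _, rfl⟩ | ⟨_, rfl⟩
  · have h1 := mid_lt (ι := ι) (c := c) hN hx
    have h2 := lt_mid hι c x
    refine ⟨?_, ?_, ?_, ?_⟩ <;> simp only <;> omega
  · refine ⟨?_, ?_, ?_, ?_⟩ <;> simp only <;> omega

theorem loc_jobsC {N m t : ℕ} {ι : Instr} (hN : 0 < N) (hι : Wf N m ι) {j : RJob}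
    (hj : j ∈ jobsC N m (6 * N * t) ι) : Loc N (3 * t + 2) j.1.1 j.1.2 := by
  obtain ⟨c, _, x, hx, rfl⟩ := mem_jobsC.1 hj
  have h1 := mid_lt (ι := ι) (c := c) hN hx
  have h2 := lt_mid hι c x
  have h3 : 2 * N * (3 * t + 2) = 6 * N * t + 4 * N := by ring
  unfold Loc
  rw [h3]
  refine ⟨?_, ?_, ?_, ?_⟩ <;> simp only <;> omega

theorem loc_jobsF {N m t : ℕ} (hN : 0 < N) {j : RJob}
    (hj : j ∈ jobsF N m (6 * N * t)) : Loc N (3 * t) j.1.1 j.1.2 := by
  obtain ⟨c, _, x, hx, rfl⟩ := mem_jobsF.1 hj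
  have h3 : 2 * N * (3 * t) = 6 * N * t := by ring
  unfold Loc
  rw [h3]
  refine ⟨?_, ?_, ?_, ?_⟩ <;> simp only <;> omega

/-- every job belongs to exactly one phase -/
theorem exists_loc {N m : ℕ} {l : List Instr} (hN : 0 < N) (hl : ∀ ι ∈ l, Wf N m ι) {j : RJob}
    (hj : j ∈ jobs N m l) : ∃ p ≤ 3 * l.length, Loc N p j.1.1 j.1.2 := by
  rcases mem_jobs.1 hj with ⟨t, ht, h | h | h⟩ | h
  · exact ⟨3 * t, by omega, loc_jobsA hN (hl _ (List.getElem_mem _)) h⟩
  · exact ⟨3 * t + 1, by omega, loc_jobsB hN (hl _ (List.getElem_mem _)) h⟩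
  · exact ⟨3 * t + 2, by omega, loc_jobsC hN (hl _ (List.getElem_mem _)) h⟩
  · exact ⟨3 * l.length, le_rfl, loc_jobsF hN h⟩

/-- the jobs of phase `3 * t` -/
theorem mem_A_of_loc {N m : ℕ} {l : List Instr} (hN : 0 < N) (hl : ∀ ι ∈ l, Wf N m ι) {j : RJob}
    (hj : j ∈ jobs N m l) {t : ℕ} (ht : t < l.length) (h : Loc N (3 * t) j.1.1 j.1.2) :
    j ∈ jobsA N m (6 * N * t) l[t] := by
  rcases mem_jobs.1 hj with ⟨s, hs, h' | h' | h'⟩ | h'
  · have h1 := (loc_jobsA hN (hl _ (List.getElem_mem _)) h').unique h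
    obtain rfl : s = t := by omega
    exact h'
  · have h1 := (loc_jobsB hN (hl _ (List.getElem_mem _)) h').unique h
    omega
  · have h1 := (loc_jobsC hN (hl _ (List.getElem_mem _)) h').unique h
    omega
  · have h1 := (loc_jobsF hN h').unique h
    omega

/-- the jobs of phase `3 * t + 1` -/
theorem mem_B_of_loc {N m : ℕ} {l : List Instr} (hN : 0 < N) (hl : ∀ ι ∈ l, Wf N m ι) {j : RJob}
    (hj : j ∈ jobs N m l) {t : ℕ} (ht : t < l.length) (h : Loc N (3 * t + 1) j.1.1 j.1.2) :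
    j ∈ jobsB N m (6 * N * t) l[t] := by
  rcases mem_jobs.1 hj with ⟨s, hs, h' | h' | h'⟩ | h'
  · have h1 := (loc_jobsA hN (hl _ (List.getElem_mem _)) h').unique h
    omega
  · have h1 := (loc_jobsB hN (hl _ (List.getElem_mem _)) h').unique h
    obtain rfl : s = t := by omega
    exact h'
  · have h1 := (loc_jobsC hN (hl _ (List.getElem_mem _)) h').unique h
    omega
  · have h1 := (loc_jobsF hN h').unique h
    omega

/-- the jobs of phase `3 * t + 2` -/
theorem mem_C_of_loc {N m : ℕ} {l : List Instr} (hN : 0 < N) (hl : ∀ ι ∈ l, Wf N m ι) {j : RJob}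
    (hj : j ∈ jobs N m l) {t : ℕ} (ht : t < l.length) (h : Loc N (3 * t + 2) j.1.1 j.1.2) :
    j ∈ jobsC N m (6 * N * t) l[t] := by
  rcases mem_jobs.1 hj with ⟨s, hs, h' | h' | h'⟩ | h'
  · have h1 := (loc_jobsA hN (hl _ (List.getElem_mem _)) h').unique h
    omega
  · have h1 := (loc_jobsB hN (hl _ (List.getElem_mem _)) h').unique h
    omega
  · have h1 := (loc_jobsC hN (hl _ (List.getElem_mem _)) h').unique h
    obtain rfl : s = t := by omega
    exact h'
  · have h1 := (loc_jobsF hN h').unique h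
    omega

/-- the jobs of the last phase -/
theorem mem_F_of_loc {N m : ℕ} {l : List Instr} (hN : 0 < N) (hl : ∀ ι ∈ l, Wf N m ι) {j : RJob}
    (hj : j ∈ jobs N m l) (h : Loc N (3 * l.length) j.1.1 j.1.2) :
    j ∈ jobsF N m (6 * N * l.length) := by
  rcases mem_jobs.1 hj with ⟨s, hs, h' | h' | h'⟩ | h'
  · have h1 := (loc_jobsA hN (hl _ (List.getElem_mem _)) h').unique h
    omega
  · have h1 := (loc_jobsB hN (hl _ (List.getElem_mem _)) h').unique h
    omega
  · have h1 := (loc_jobsC hN (hl _ (List.getElem_mem _)) h').unique h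
    omega
  · exact h'

end Pool.Agent.Lib.MP_f25cb6_lc.X
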