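import Pool.Agent.Lib.MP_f25cb6_lc.X.PTChain

/-! # Sorting the jobs by their release dates; comparison of binary numbers -/

namespace Pool.Agent.Lib.MP_f25cb6_lc.X

open MP_634427_lc MP_be4430_lc

/-- job number `i` of the list -/
def jb (J : List Job) (i : ℕ) : Job := J.getD i (([], []), ([], []))

/-- insert a number into a sorted list -/
def ins (le : ℕ → ℕ → Bool) (a : ℕ) (l : List ℕ) : List ℕ :=
  (l.filter fun b => le b a) ++ a :: (l.filter fun b => !le b a)

/-- the indices of the jobs, sorted by release date -/
def order (J : List Job) : List ℕ :=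
  (List.range J.length).foldr
    (ins fun a b => decide (release (jb J a) ≤ release (jb J b))) []

/-- the index of the job in position `i` of the order -/
def od (J : List Job) (i : ℕ) : ℕ := (order J).getD i 0

private lemma ins_perm (le : ℕ → ℕ → Bool) (a : ℕ) (l : List ℕ) : (ins le a l).Perm (a :: l) := by
  unfold ins
  exact List.perm_middle.trans (List.Perm.cons a (List.filter_append_perm _ l))

private lemma ins_sorted (f : ℕ → ℕ) (a : ℕ) (l : List ℕ)
    (h : l.Pairwise fun a b => f a ≤ f b) :
    (ins (fun a b => decide (f a ≤ f b)) a l).Pairwise fun a b => f a ≤ f b := by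
  unfold ins
  rw [List.pairwise_append]
  refine ⟨h.filter _, ?_, ?_⟩
  · rw [List.pairwise_cons]
    refine ⟨fun b hb => ?_, h.filter _⟩
    have := (List.mem_filter.1 hb).2
    simp only [Bool.not_eq_true', decide_eq_false_iff_not, not_le] at this
    exact this.le
  · intro x hx y hy
    have h1 := (List.mem_filter.1 hx).2
    simp only [decide_eq_true_eq] at h1
    rcases List.mem_cons.1 hy with rfl | hy
    · exact h1
    · have h2 := (List.mem_filter.1 hy).2
      simp only [Bool.not_eq_true', decide_eq_false_iff_not, not_le] at h2
      exact h1.trans h2.le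

theorem order_perm (J : List Job) : (order J).Perm (List.range J.length) := by
  unfold order
  induction List.range J.length with
  | nil => exact List.Perm.refl _
  | cons a l ih => exact (ins_perm _ a _).trans (List.Perm.cons a ih)

theorem order_sorted (J : List Job) :
    (order J).Pairwise fun a b => release (jb J a) ≤ release (jb J b) := by
  unfold order
  induction List.range J.length with
  | nil => exact List.Pairwise.nil
  | cons a l ih => exact ins_sorted (fun i => release (jb J i)) a _ ih

private lemma order_len (J : List Job) : (order J).length = J.length := by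
  rw [(order_perm J).length_eq, List.length_range]

private lemma od_eq (J : List Job) {i : ℕ} (hi : i < J.length) :
    od J i = (order J)[i]'(by rw [order_len]; exact hi) := by
  unfold od
  rw [List.getD_eq_getElem?_getD, List.getElem?_eq_getElem (by rw [order_len]; exact hi)]
  rfl

/-- `od J` is a bijection of `{0, …, n-1}`, sorted by release date. -/
theorem od_lt (J : List Job) {i : ℕ} (hi : i < J.length) : od J i < J.length := by
  rw [od_eq J hi]
  exact List.mem_range.1 ((order_perm J).subset (List.getElem_mem _))

theorem od_inj (J : List Job) {i i' : ℕ} (hi : i < J.length) (hi' : i' < J.length)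
    (h : od J i = od J i') : i = i' := by
  rw [od_eq J hi, od_eq J hi'] at h
  have hn : (order J).Nodup := (order_perm J).nodup_iff.2 List.nodup_range
  exact (hn.getElem_inj_iff).1 h

theorem od_surj (J : List Job) {t : ℕ} (ht : t < J.length) : ∃ i < J.length, od J i = t := by
  have h : t ∈ order J := (order_perm J).symm.subset (List.mem_range.2 ht)
  obtain ⟨i, hi, h⟩ := List.getElem_of_mem h
  have hi' : i < J.length := by rw [order_len] at hi; exact hi
  exact ⟨i, hi', by rw [od_eq J hi']; exact h⟩

theorem od_sorted (J : List Job) {i i' : ℕ} (h : i < i') (hi' : i' < J.length) :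
    release (jb J (od J i)) ≤ release (jb J (od J i')) := by
  rw [od_eq J (h.trans hi'), od_eq J hi']
  exact List.pairwise_iff_getElem.1 (order_sorted J) i i' _ _ h

variable {γ : Type} [Enc γ]

/-- one step of the comparison -/
private def cmpSt (s : Bool × Word) (a : Bool) : Bool × Word :=
  match s.2 with
  | [] => (s.1 && !a, [])
  | b :: r => (bif a == b then s.1 else b, r)

private lemma any_bval (r : Word) : (r.any fun t => t) = decide (0 < bval r) := by
  induction r with
  | nil => rfl
  | cons b r ih =>
    rw [List.any_cons, ih, bval]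
    cases b
    · simp
    · simp

private lemma cmp_key : ∀ (l r : Word) (x : Bool),
    ((l.foldl cmpSt (x, r)).1 || (l.foldl cmpSt (x, r)).2.any fun t => t)
      = (bif x then decide (bval l ≤ bval r) else decide (bval l < bval r)) := by
  intro l
  induction l with
  | nil =>
    intro r x
    rw [List.foldl_nil]
    show (x || r.any fun t => t) = _
    rw [any_bval]
    cases x
    · show decide (0 < bval r) = decide (bval [] < bval r)
      rfl
    · simp [bval]
  | cons a l ih =>
    intro r x
    rw [List.foldl_cons]
    rcases r with _ | ⟨b, r⟩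
    · show ((l.foldl cmpSt (x && !a, [])).1 || (l.foldl cmpSt (x && !a, [])).2.any fun t => t) = _
      rw [ih]
      cases x <;> cases a <;> simp [bval]
    · show ((l.foldl cmpSt ((bif a == b then x else b), r)).1 ||
        (l.foldl cmpSt ((bif a == b then x else b), r)).2.any fun t => t) = _
      rw [ih]
      have e1 : bval (a :: l) = (if a then 1 else 0) + 2 * bval l := rfl
      have e2 : bval (b :: r) = (if b then 1 else 0) + 2 * bval r := rfl
      rw [e1, e2]
      cases x <;> cases a <;> cases b <;> simp <;> omega

/-- Comparison of binary numbers (least significant bit first, possibly with leading zeros and of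
different lengths) is in polynomial time.  (For instance a left fold over the first number, the
state being the result `≤` so far and the rest of the second number, as in `PT.eqWord`.) -/
theorem pt_bvalLe {v w : γ → Word} (hv : PT v) (hw : PT w) :
    PT fun c => decide (bval (v c) ≤ bval (w c)) := by
  have hst : PT fun p : (Bool × Word) × Bool => cmpSt p.1 p.2 :=
    (PT.casesList (g := fun (p : (Bool × Word) × Bool) b r => (bif p.2 == b then p.1.1 else b, r))
      (PT.snd' PT.fst) (PT.pair (PT.and (PT.fst' PT.fst) (PT.not PT.snd)) (PT.const ([] : Word)))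
      (PT.pair (PT.cond (PT.beqBool (PT.snd' PT.fst) (PT.fst' PT.snd)) (PT.fst' (PT.fst' PT.fst))
        (PT.fst' PT.snd)) (PT.snd' PT.snd))).of_eq fun p => by
      rcases p with ⟨⟨b, _ | ⟨b', r⟩⟩, a⟩ <;> rfl
  have hsuf : ∀ (l : Word) (s : Bool × Word), sz (l.foldl cmpSt s) ≤ sz s.2 + 2 := by
    intro l
    induction l with
    | nil => intro s; have := sz_bool_le s.1; simp [sz_prod s]; omega
    | cons a l ih =>
      intro s
      refine (ih _).trans ?_
      rcases s with ⟨b, _ | ⟨b', r⟩⟩
      · simp [cmpSt]
      · simp [cmpSt]; omega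
  have h1 := PT.foldl (f := fun (_ : γ) s a => cmpSt s a) hv (PT.pair (PT.const true) hw)
    (hst.comp PT.snd) (by
      obtain ⟨k, hk⟩ := hw.size_le
      obtain ⟨e, he⟩ := PB.add (F := fun n => (n + 2) ^ k) ⟨k, fun n => le_rfl⟩ (PB.const 2)
      refine ⟨e, fun c l' _ => (hsuf _ _).trans ?_⟩
      have := hk c
      have := he (sz c)
      beta_reduce at this
      simp only
      omega)
  have h2 := PT.or (PT.fst' h1) (PT.any (p := fun _ t => t) (PT.snd' h1) PT.snd)
  refine h2.of_eq fun c => ?_
  rw [cmp_key]
  rfl

theorem pt_jb {J : γ → List Job} {i : γ → ℕ} (hJ : PT J) (hi : PT i) :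
    PT fun g => jb (J g) (i g) := by
  unfold jb
  exact PT.getLD hi hJ (PT.const _)

private lemma sz_ins (le : ℕ → ℕ → Bool) (a : ℕ) (l : List ℕ) :
    sz (ins le a l) = sz l + sz a + 1 := by
  have key : ∀ (p : ℕ → Bool) (l : List ℕ),
      sz (l.filter p) + sz (l.filter fun b => !p b) = sz l := by
    intro p l
    induction l with
    | nil => simp
    | cons b l ih =>
      cases h : p b
      · rw [List.filter_cons_of_neg (by simp [h]), List.filter_cons_of_pos (by simp [h])]
        simp only [sz_cons]
        omega
      · rw [List.filter_cons_of_pos h, List.filter_cons_of_neg (by simp [h])]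
        simp only [sz_cons]
        omega
  have h := key (fun b => le b a) l
  unfold ins
  simp only [sz_append, sz_cons]
  omega

/-- (Use `PT.foldr_add`; `sz (ins le a l) = sz l + sz a + 1`.) -/
theorem pt_order {J : γ → List Job} (hJ : PT J) : PT fun g => order (J g) := by
  have hrel : ∀ {δ : Type} [Enc δ] {K : δ → List Job} {a b : δ → ℕ}, PT K → PT a → PT b →
      PT fun d => decide (release (jb (K d) (a d)) ≤ release (jb (K d) (b d))) := by
    intro δ _ K a b hK ha hb
    have h1 : ∀ {n : δ → ℕ}, PT n → PT fun d => (jb (K d) (n d)).1.1 := by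
      intro n hn
      unfold jb
      exact PT.fst' (PT.fst' (PT.getLD hn hK (PT.const _)))
    exact pt_bvalLe (h1 ha) (h1 hb)
  have hJ1 : PT fun q : (γ × ℕ × List ℕ) × ℕ => J q.1.1 := hJ.comp (PT.fst' PT.fst)
  have ha1 : PT fun q : (γ × ℕ × List ℕ) × ℕ => q.1.2.1 := PT.fst' (PT.snd' PT.fst)
  refine PT.foldr_add (f := fun c a r =>
    ins (fun a b => decide (release (jb (J c) a) ≤ release (jb (J c) b))) a r)
    (PT.range (PT.length hJ)) (PT.const []) ?_ ?_
  · unfold ins
    exact PT.append
      (PT.filter (p := fun (q : γ × ℕ × List ℕ) b =>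
        decide (release (jb (J q.1) b) ≤ release (jb (J q.1) q.2.1))) (PT.snd' PT.snd)
        (hrel hJ1 PT.snd ha1))
      (PT.cons (PT.fst' PT.snd) (PT.filter (p := fun (q : γ × ℕ × List ℕ) b =>
        !decide (release (jb (J q.1) b) ≤ release (jb (J q.1) q.2.1))) (PT.snd' PT.snd)
        (PT.not (hrel hJ1 PT.snd ha1))))
  · obtain ⟨k, hk⟩ := hJ.size_le
    refine ⟨k, fun c a r ha => ?_⟩
    rw [sz_ins]
    have h1 := List.mem_range.1 ha
    have h2 := length_le_sz (J c)
    have h3 := hk c
    have h4 : sz a = a := sz_nat a
    omega

theorem pt_od {J : γ → List Job} {i : γ → ℕ} (hJ : PT J) (hi : PT i) :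
    PT fun g => od (J g) (i g) := by
  unfold od
  exact PT.getLD hi (pt_order hJ) (PT.const 0)

end Pool.Agent.Lib.MP_f25cb6_lc.X
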