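import Pool.Agent.Lib.MP_f25cb6_lc.X.Defs
import Pool.Agent.Lib.MP_be4430_lc.P2_Lists
import Pool.Agent.Lib.MP_be4430_lc.P3_ToBin

/-!
# Programs for machines that store numbers, and the jobs that simulate them

Each of `m` machines stores a number `< N` (its state).  An instruction `((a, u), (b, v))` with
`a ≠ b` forbids that machine `a` is in state `u` and machine `b` is in state `v`.  An instruction
with `a = b` lets machine `a` choose a new state.

Instruction number `t` is simulated in the time interval `[6Nt, 6N(t+1))`, which has three phases: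
a machine in state `x` processes one job in each phase, with start times
`β + x`, `β + mid`, `β + mid + 2N` and end `β + 6N + x`, where `β = 6Nt` and
`mid = 2N + x - shift`.  The shift is chosen so that the jobs of the second phase of machine `a`
in state `u` and of machine `b` in state `v` are one and the same job `[β + 2N, β + 4N)`.
-/

namespace Pool.Agent.Lib.MP_f25cb6_lc.X

open MP_634427_lc MP_be4430_lc

/-- An instruction. -/
abbrev Instr := (ℕ × ℕ) × (ℕ × ℕ)

/-- the instruction which lets machine `a` choose a new state -/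
def reset (a : ℕ) : Instr := ((a, 0), (a, 0))

/-- machine `c` may choose a new state in the instruction `ι` -/
def Rs (ι : Instr) (c : ℕ) : Prop := ι.1.1 = ι.2.1 ∧ c = ι.1.1

instance (ι : Instr) (c : ℕ) : Decidable (Rs ι c) := by unfold Rs; infer_instance

/-- the shift of the middle part of the block for machine `c` -/
def sh (ι : Instr) (c : ℕ) : ℕ := if c = ι.1.1 then ι.1.2 else if c = ι.2.1 then ι.2.2 else 0

/-- the time within the block at which machine `c` in state `x` starts its second job -/
def mid (N : ℕ) (ι : Instr) (c x : ℕ) : ℕ := if Rs ι c then 2 * N else 2 * N + x - sh ι c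

/-- machine `c` in state `x` has a private second job -/
def priv (ι : Instr) (c x : ℕ) : Bool :=
  decide (ι.1.1 = ι.2.1) || !((decide (c = ι.1.1) && decide (x = ι.1.2)) ||
    (decide (c = ι.2.1) && decide (x = ι.2.2)))

/-- A raw job: release date, due date and eligible machines. -/
abbrev RJob := (ℕ × ℕ) × List ℕ

/-- the jobs of the first phase of the block that starts at time `β` -/
def jobsA (N m β : ℕ) (ι : Instr) : List RJob :=
  (List.range m).flatMap fun c => (List.range N).map fun x => ((β + x, β + mid N ι c x), [c])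

/-- the jobs of the second phase -/
def jobsB (N m β : ℕ) (ι : Instr) : List RJob :=
  ((List.range m).flatMap fun c => ((List.range N).filter fun x => priv ι c x).map fun x =>
    ((β + mid N ι c x, β + mid N ι c x + 2 * N), [c])) ++
  (if ι.1.1 = ι.2.1 then [] else [((β + 2 * N, β + 4 * N), [ι.1.1, ι.2.1])])

/-- the jobs of the third phase -/
def jobsC (N m β : ℕ) (ι : Instr) : List RJob :=
  (List.range m).flatMap fun c => (List.range N).map fun x =>
    ((β + mid N ι c x + 2 * N, β + 6 * N + x), [c])

/-- the last jobs -/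
def jobsF (N m β : ℕ) : List RJob :=
  (List.range m).flatMap fun c => (List.range N).map fun x => ((β + x, β + 2 * N), [c])

/-- all raw jobs of a program -/
def jobs (N m : ℕ) (l : List Instr) : List RJob :=
  ((List.range l.length).flatMap fun t => jobsA N m (6 * N * t) (l.getD t (reset 0)) ++
    (jobsB N m (6 * N * t) (l.getD t (reset 0)) ++ jobsC N m (6 * N * t) (l.getD t (reset 0)))) ++
  jobsF N m (6 * N * l.length)

/-- a raw job as a job of weight one -/
def toJob (j : RJob) : Job := ((toBin j.1.1, toBin j.1.2), ([true], j.2))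

/-- the jobs of a program -/
def jobList (N m : ℕ) (l : List Instr) : List Job := ((jobs N m l).map toJob).dedup

/-- The instruction mentions only machines `< m` and states `< N`. -/
def Wf (N m : ℕ) (ι : Instr) : Prop := ι.1.1 < m ∧ ι.2.1 < m ∧ ι.1.2 < N ∧ ι.2.2 < N

/-- One instruction with waiting: the states may increase; `z` are the states in the middle. -/
def LStep (N m : ℕ) (ι : Instr) (q q' : ℕ → ℕ) : Prop :=
  ∃ z : ℕ → ℕ, (∀ c < m, ¬ Rs ι c → q c ≤ z c ∧ z c ≤ q' c) ∧
    (ι.1.1 ≠ ι.2.1 → ¬ (z ι.1.1 = ι.1.2 ∧ z ι.2.1 = ι.2.2)) ∧ ∀ c < m, q' c < N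

/-- One instruction without waiting. -/
def XStep (N m : ℕ) (ι : Instr) (q q' : ℕ → ℕ) : Prop :=
  (∀ c < m, ¬ Rs ι c → q' c = q c) ∧
    (ι.1.1 ≠ ι.2.1 → ¬ (q ι.1.1 = ι.1.2 ∧ q ι.2.1 = ι.2.2)) ∧ ∀ c < m, q' c < N

/-- Execution of a program. -/
def Run (R : Instr → (ℕ → ℕ) → (ℕ → ℕ) → Prop) : List Instr → (ℕ → ℕ) → (ℕ → ℕ) → Prop
  | [], q, q' => q = q'
  | ι :: l, q, q' => ∃ q1, R ι q q1 ∧ Run R l q1 q'

end Pool.Agent.Lib.MP_f25cb6_lc.X
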