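import Pool.Agent.Lib.MP_f25cb6_lc.X.Sound
import Pool.Agent.Lib.MP_f25cb6_lc.X.Complete
import Pool.Agent.Lib.MP_f25cb6_lc.X.ChainSound
import Pool.Agent.Lib.MP_f25cb6_lc.X.ChainComplete
import Pool.Agent.Lib.MP_f25cb6_lc.X.PTChain

/-! # The chained clique problem reduces to the scheduling problem -/

namespace Pool.Agent.Lib.MP_f25cb6_lc.X

open MP_634427_lc MP_be4430_lc

/-! ### The jobs of a program are a valid instance -/

theorem jobs_props {N m : ℕ} {l : List Instr} (hN : 0 < N) (hl : ∀ ι ∈ l, Wf N m ι) {j : RJob}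
    (hj : j ∈ jobs N m l) : j.1.1 < j.1.2 ∧ (∀ i ∈ j.2, i < m) ∧ j.2.length ≤ 2 := by
  have h1 : j.1.1 < j.1.2 := by
    obtain ⟨p, _, h⟩ := exists_loc hN hl hj
    have := h.2.1
    have := h.2.2.1
    omega
  refine ⟨h1, ?_⟩
  rcases mem_jobs.1 hj with ⟨t, ht, h | h | h⟩ | h
  · obtain ⟨c, hc, x, hx, rfl⟩ := mem_jobsA.1 h
    simpa using hc
  · have hw := hl _ (List.getElem_mem ht)
    rcases mem_jobsB.1 h with ⟨c, hc, x, hx, _, rfl⟩ | ⟨_, rfl⟩
    · simpa using hc
    · simpa using ⟨hw.1, hw.2.1⟩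
  · obtain ⟨c, hc, x, hx, rfl⟩ := mem_jobsC.1 h
    simpa using hc
  · obtain ⟨c, hc, x, hx, rfl⟩ := mem_jobsF.1 h
    simpa using hc

theorem valid_jobList {N m : ℕ} {l : List Instr} (hN : 0 < N) (hl : ∀ ι ∈ l, Wf N m ι) :
    Valid m (jobList N m l) := by
  intro t ht
  obtain ⟨j, hj, rfl⟩ := mem_jobList.1 ht
  rw [release_toJob, due_toJob, eligible_toJob]
  exact ⟨(jobs_props hN hl hj).1, (jobs_props hN hl hj).2.1⟩

theorem two_jobList {N m : ℕ} {l : List Instr} (hN : 0 < N) (hl : ∀ ι ∈ l, Wf N m ι) :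
    ∀ t ∈ jobList N m l, weight t = 1 ∧ (eligible t).length ≤ 2 := by
  intro t ht
  obtain ⟨j, hj, rfl⟩ := mem_jobList.1 ht
  rw [weight_toJob, eligible_toJob]
  exact ⟨rfl, (jobs_props hN hl hj).2.2⟩

/-! ### The instance -/

/-- a bound for the names of the vertices -/
def bound (V : List Vtx) : ℕ := V.foldr (fun u n => u.2 + n) 1

theorem bound_pos (V : List Vtx) : 0 < bound V := by
  induction V with
  | nil => exact Nat.one_pos
  | cons u V ih =>
    show 0 < u.2 + bound V
    omega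

theorem lt_bound {V : List Vtx} : ∀ u ∈ V, u.2 < bound V := by
  induction V with
  | nil => intro u hu; simp at hu
  | cons v V ih =>
    intro u hu
    show u.2 < v.2 + bound V
    rcases List.mem_cons.1 hu with rfl | hu
    · have := bound_pos V
      omega
    · have := ih u hu
      omega

/-- the number of jobs in a full schedule -/
def target (k : ℕ) (l : List Instr) : ℕ := 4 * k * (3 * l.length + 1)

/-- **Correctness of the construction.** -/
theorem clique_iff_schedule (k r : ℕ) (V : List Vtx) (E : List (Vtx × Vtx)) :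
    (∃ x, IsChainedClique k r V E x) ↔
      ∃ σ : Fin (jobList (bound V) (4 * k) (prog (bound V) k r V E)).length → Option (Fin (4 * k)),
        Feasible (4 * k) (jobList (bound V) (4 * k) (prog (bound V) k r V E)) σ ∧
        target k (prog (bound V) k r V E) ≤
          value (jobList (bound V) (4 * k) (prog (bound V) k r V E)) σ := by
  have hN := bound_pos V
  have hl : ∀ ι ∈ prog (bound V) k r V E, Wf (bound V) (4 * k) ι := wf_prog hN
  constructor
  · rintro ⟨x, hx⟩
    obtain ⟨q, q', hq, hrun⟩ := prog_complete hN lt_bound hx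
    obtain ⟨σ, hf, hc⟩ := exists_schedule_of_run hN hl rfl hq hrun
    exact ⟨σ, hf, (value_iff_covers hN hl rfl σ hf).2 hc⟩
  · rintro ⟨σ, hf, hv⟩
    have hc := (value_iff_covers hN hl rfl σ hf).1 hv
    obtain ⟨q, q', hq, hrun⟩ := exists_run_of_covers hN hl rfl σ hf hc
    exact prog_sound hN hq hrun

/-! ### The reduction -/

/-- the type of the instances of `CMC` -/
abbrev CInst := ℕ × (List Vtx × List (Vtx × Vtx))

/-- Boolean version of `IsChained` -/
def chainedB (k : ℕ) (I : CInst) : Bool :=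
  (I.2.1.all fun u => decide (u.1.1 < I.1) && decide (u.1.2 < k)) &&
  I.2.2.all fun e => (decide (e.1 ∈ I.2.1) && decide (e.2 ∈ I.2.1)) &&
    (!decide (e.1 = e.2) && (decide (e.1.1.1 ≤ e.2.1.1 + 1) && decide (e.2.1.1 ≤ e.1.1.1 + 1)))

theorem chainedB_iff (k : ℕ) (I : CInst) : chainedB k I = true ↔ IsChained k I.1 I.2.1 I.2.2 := by
  simp only [chainedB, IsChained, Bool.and_eq_true, List.all_eq_true, decide_eq_true_eq,
    Bool.not_eq_true', decide_eq_false_iff_not, and_assoc, ne_eq]

/-- the reduction from `CMC` to `SCHEDTwo` -/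
def red1 (p : Word × ℕ) : Word × ℕ :=
  (bif isCode CInst p.1 && chainedB p.2 (parse CInst p.1) then
    code (enc ((4 * p.2, jobList (bound (parse CInst p.1).2.1) (4 * p.2)
      (prog (bound (parse CInst p.1).2.1) p.2 (parse CInst p.1).1 (parse CInst p.1).2.1
        (parse CInst p.1).2.2)),
      toBin (target p.2 (prog (bound (parse CInst p.1).2.1) p.2 (parse CInst p.1).1
        (parse CInst p.1).2.1 (parse CInst p.1).2.2))))
    else [], 4 * p.2)

theorem red1_iff (p : Word × ℕ) : p ∈ CMC ↔ red1 p ∈ SCHEDTwo := by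
  obtain ⟨w, k⟩ := p
  by_cases hc : (isCode CInst w && chainedB k (parse CInst w)) = true
  · have h1 : red1 (w, k) = (code (enc ((4 * k, jobList (bound (parse CInst w).2.1) (4 * k)
      (prog (bound (parse CInst w).2.1) k (parse CInst w).1 (parse CInst w).2.1
        (parse CInst w).2.2)),
      toBin (target k (prog (bound (parse CInst w).2.1) k (parse CInst w).1
        (parse CInst w).2.1 (parse CInst w).2.2)))), 4 * k) := by
      unfold red1
      simp only [hc, cond_true]
    rw [Bool.and_eq_true] at hc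
    obtain ⟨⟨r, V, E⟩, rfl⟩ := (isCode_iff w).1 hc.1
    rw [parse_code] at h1 hc
    have hch := (chainedB_iff _ _).1 hc.2
    rw [h1]
    have key := clique_iff_schedule k r V E
    have hN := bound_pos V
    have hl : ∀ ι ∈ prog (bound V) k r V E, Wf (bound V) (4 * k) ι := wf_prog hN
    constructor
    · rintro ⟨r', V', E', hw, _, hx⟩
      have h2 := codeEnc_injective (α := CInst) hw
      simp only [Prod.mk.injEq] at h2
      obtain ⟨rfl, rfl, rfl⟩ := h2
      obtain ⟨σ, hf, hv⟩ := key.1 hx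
      exact ⟨_, _, rfl, valid_jobList hN hl, two_jobList hN hl, σ, hf, by rwa [bval_toBin]⟩
    · rintro ⟨J, b, hw, _, _, σ, hf, hv⟩
      have h2 := codeEnc_injective (α := (ℕ × List Job) × Word) hw
      simp only [Prod.mk.injEq] at h2
      obtain ⟨⟨_, rfl⟩, rfl⟩ := h2
      rw [bval_toBin] at hv
      exact ⟨r, V, E, rfl, hch, key.2 ⟨σ, hf, hv⟩⟩
  · have h1 : red1 (w, k) = ([], 4 * k) := by
      unfold red1
      simp only [Bool.not_eq_true] at hc
      simp only [hc, cond_false]
    rw [h1]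
    constructor
    · rintro ⟨r, V, E, hw, hch, _⟩
      exfalso
      apply hc
      rw [Bool.and_eq_true]
      simp only at hw
      subst hw
      refine ⟨(isCode_iff _).2 ⟨(r, (V, E)), rfl⟩, ?_⟩
      rw [parse_code]
      exact (chainedB_iff _ _).2 hch
    · rintro ⟨J, b, hw, _⟩
      exact absurd hw (nil_ne_code _)

theorem pt_bound {γ : Type} [Enc γ] {V : γ → List Vtx} (hV : PT V) : PT fun g => bound (V g) := by
  unfold bound
  refine PT.foldr_add (f := fun (_ : γ) (u : Vtx) (n : ℕ) => u.2 + n) hV (PT.const 1)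
    (PT.add (PT.snd' (PT.fst' PT.snd)) (PT.snd' PT.snd)) ?_
  obtain ⟨k, hk⟩ := hV.size_le
  refine ⟨k, fun g u n hu => ?_⟩
  have h1 := sz_mem_le hu
  have h2 := hk g
  have h3 : sz u = sz u.1 + u.2 + 1 := by
    rw [sz_prod, sz_nat]
  rw [sz_nat, sz_nat]
  omega

theorem pt_chainedB {γ : Type} [Enc γ] {k : γ → ℕ} {I : γ → CInst} (hk : PT k) (hI : PT I) :
    PT fun g => chainedB (k g) (I g) := by
  unfold chainedB
  refine PT.and (PT.all (p := fun g u => decide (u.1.1 < (I g).1) && decide (u.1.2 < k g))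
    (PT.fst' (PT.snd' hI)) ?_) (PT.all (p := fun g e =>
      (decide (e.1 ∈ (I g).2.1) && decide (e.2 ∈ (I g).2.1)) &&
    (!decide (e.1 = e.2) && (decide (e.1.1.1 ≤ e.2.1.1 + 1) && decide (e.2.1.1 ≤ e.1.1.1 + 1))))
    (PT.snd' (PT.snd' hI)) ?_)
  · exact PT.and (PT.lt (PT.fst' (PT.fst' PT.snd)) (PT.fst' (hI.comp PT.fst)))
      (PT.lt (PT.snd' (PT.fst' PT.snd)) (hk.comp PT.fst))
  · have hV : PT fun p : γ × (Vtx × Vtx) => (I p.1).2.1 := PT.fst' (PT.snd' (hI.comp PT.fst))
    have h1 : PT fun p : γ × (Vtx × Vtx) => p.2.1 := PT.fst' PT.snd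
    have h2 : PT fun p : γ × (Vtx × Vtx) => p.2.2 := PT.snd' PT.snd
    exact PT.and (PT.and (pt_memD h1 hV) (pt_memD h2 hV))
      (PT.and (PT.not (PT.eqDec enc_injective_of_dec h1 h2))
        (PT.and (PT.le (PT.fst' (PT.fst' h1)) (PT.succ (PT.fst' (PT.fst' h2))))
          (PT.le (PT.fst' (PT.fst' h2)) (PT.succ (PT.fst' (PT.fst' h1))))))

theorem pt_red1 : PT red1 := by
  have hI : PT fun p : Word × ℕ => parse CInst p.1 := pt_parse PT.fst
  have hk : PT fun p : Word × ℕ => p.2 := PT.snd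
  have h4k : PT fun p : Word × ℕ => 4 * p.2 := PT.mul (PT.const 4) hk
  have hr : PT fun p : Word × ℕ => (parse CInst p.1).1 := PT.fst' hI
  have hV : PT fun p : Word × ℕ => (parse CInst p.1).2.1 := PT.fst' (PT.snd' hI)
  have hE : PT fun p : Word × ℕ => (parse CInst p.1).2.2 := PT.snd' (PT.snd' hI)
  have hN := pt_bound hV
  have hprog := pt_prog hN hk hr hV hE
  unfold red1
  refine PT.pair (PT.cond (PT.and (pt_isCode PT.fst) (pt_chainedB hk hI)) ?_ (PT.const [])) h4k
  refine pt_codeEnc (PT.pair (PT.pair h4k (pt_jobList hN h4k hprog)) (pt_toBin ?_))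
  unfold target
  exact PT.mul h4k (PT.succ (PT.mul (PT.const 3) (PT.length hprog)))

/-- Chained multicoloured clique with `k` colours reduces to scheduling unit-weight jobs with at
most two eligible machines each on `4 * k` machines. -/
theorem cmc_le_schedTwo : PolyReduces (fun k => 4 * k) CMC SCHEDTwo :=
  ⟨red1, pt_red1, fun p => ⟨rfl, red1_iff p⟩⟩

end Pool.Agent.Lib.MP_f25cb6_lc.X
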