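import Pool.Agent.Lib.MP_f25cb6_lc.X.Label
import Pool.Agent.Lib.MP_f25cb6_lc.X.Compile

/-!
# The chained graph of a weighted satisfiability problem

For a branching program `C` with `L` nodes and variables `< n`: the part `V_i`, `i ≤ L`, describes
the execution before the stage `i`.  The vertex of colour `a < k` is `(s, 0)`: the true variable
number `a` is `s`.  The vertex of colour `k` is `(p, w)`: the current node is `p`; if `p = i < L`,
then `w = a + 1` means that the variable of the node `i` is the true variable number `a`, and `w = 0`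
means that it is false.
-/

namespace Pool.Agent.Lib.MP_f25cb6_lc.X

open MP_634427_lc MP_be4430_lc

/-- the conditions for the labels -/
def okSat (n k : ℕ) (C : List Node) (l : Lab) : Bool :=
  if l.1.2 < k then decide (l.2.1 < n) && decide (l.2.2 = 0)
  else (decide (l.1.1 ≠ 0) || decide (l.2.1 = 0)) &&
    ((decide (l.1.1 ≠ C.length) || decide (l.2.1 = C.length)) &&
      (decide (l.1.1 ≠ C.length) || decide (l.2.2 = 0)))

/-- the labels -/
def satLabs (n k : ℕ) (C : List Node) : List Lab :=
  ((List.range (C.length + 1)).flatMap fun i => (List.range (k + 1)).flatMap fun a =>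
    (List.range (n + C.length + 2)).flatMap fun p => (List.range (k + 1)).map fun w =>
      ((i, a), (p, w))).filter (okSat n k C)

/-- the next node -/
def nextNode (C : List Node) (i p w : ℕ) : ℕ :=
  if p = i then (if w = 0 then (C.getD i (0, (0, 0))).2.2 else (C.getD i (0, (0, 0))).2.1) else p

/-- the edges -/
def satAdj (k : ℕ) (C : List Node) (l l' : Lab) : Bool :=
  if l.1.1 = l'.1.1 then
    if l.1.2 < k then
      if l'.1.2 < k then !decide (l.1.2 = l'.1.2) && !decide (l.2.1 = l'.2.1)
      else (!decide (l'.2.1 = l.1.1) || decide (l.1.1 = C.length)) ||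
        ((!decide (l'.2.2 = l.1.2 + 1) || decide (l.2.1 = (C.getD l.1.1 (0, (0, 0))).1)) &&
          (!decide (l'.2.2 = 0) || !decide (l.2.1 = (C.getD l.1.1 (0, (0, 0))).1)))
    else false
  else if l.1.1 + 1 = l'.1.1 then
    if l.1.2 < k then
      if l'.1.2 < k then !decide (l.1.2 = l'.1.2) || decide (l.2.1 = l'.2.1)
      else true
    else
      if l'.1.2 < k then true
      else decide (l'.2.1 = nextNode C l.1.1 l.2.1 l.2.2)
  else false

theorem mem_satLabs {n k : ℕ} {C : List Node} {i a p w : ℕ} : ((i, a), (p, w)) ∈ satLabs n k C ↔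
    (i ≤ C.length ∧ a ≤ k ∧ p < n + C.length + 2 ∧ w ≤ k) ∧
      okSat n k C ((i, a), (p, w)) = true := by
  unfold satLabs
  rw [List.mem_filter]
  simp only [List.mem_flatMap, List.mem_map, List.mem_range, Prod.mk.injEq]
  constructor
  · rintro ⟨⟨i', hi', a', ha', p', hp', w', hw', ⟨⟨rfl, rfl⟩, rfl, rfl⟩⟩, h⟩
    exact ⟨⟨by omega, by omega, hp', by omega⟩, h⟩
  · rintro ⟨⟨h1, h2, h3, h4⟩, h⟩
    exact ⟨⟨i, by omega, a, by omega, p, h3, w, by omega, ⟨rfl, rfl⟩, rfl, rfl⟩, h⟩

theorem satLabs_props {n k : ℕ} {C : List Node} : ∀ l ∈ satLabs n k C,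
    l.1.1 < C.length + 1 ∧ l.1.2 < k + 1 ∧ l.2.1 < n + C.length + 2 := by
  rintro ⟨⟨i, a⟩, ⟨p, w⟩⟩ h
  obtain ⟨⟨h1, h2, h3, _⟩, _⟩ := mem_satLabs.1 h
  exact ⟨Nat.lt_succ_of_le h1, Nat.lt_succ_of_le h2, h3⟩

theorem satAdj_props {n k : ℕ} {C : List Node} : ∀ l ∈ satLabs n k C, ∀ l' ∈ satLabs n k C,
    satAdj k C l l' = true → (l.1.1 = l'.1.1 ∧ l.1.2 ≠ l'.1.2) ∨ l.1.1 + 1 = l'.1.1 := by
  intro l _ l' _ h
  unfold satAdj at h
  by_cases h1 : l.1.1 = l'.1.1
  · rw [if_pos h1] at h
    by_cases h2 : l.1.2 < k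
    · rw [if_pos h2] at h
      by_cases h3 : l'.1.2 < k
      · rw [if_pos h3] at h
        simp only [Bool.and_eq_true, Bool.not_eq_true', decide_eq_false_iff_not] at h
        exact Or.inl ⟨h1, h.1⟩
      · exact Or.inl ⟨h1, by omega⟩
    · rw [if_neg h2] at h
      exact absurd h (by simp)
  · rw [if_neg h1] at h
    by_cases h2 : l.1.1 + 1 = l'.1.1
    · exact Or.inr h2
    · rw [if_neg h2] at h
      exact absurd h (by simp)

/-! ### The meaning of the conditions -/

private theorem ok_lt {n k : ℕ} {C : List Node} {i a : ℕ} {x : ℕ × ℕ} (ha : a < k) :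
    okSat n k C ((i, a), x) = true ↔ x.1 < n ∧ x.2 = 0 := by
  unfold okSat
  rw [if_pos ha]
  simp

private theorem ok_k {n k : ℕ} {C : List Node} {i : ℕ} {x : ℕ × ℕ} :
    okSat n k C ((i, k), x) = true ↔
      (i = 0 → x.1 = 0) ∧ (i = C.length → x.1 = C.length) ∧ (i = C.length → x.2 = 0) := by
  unfold okSat
  rw [if_neg (Nat.lt_irrefl k)]
  simp only [Bool.and_eq_true, Bool.or_eq_true, decide_eq_true_eq, ne_eq]
  tauto

private theorem adj_lt_lt {k : ℕ} {C : List Node} {i a a' : ℕ} {x x' : ℕ × ℕ} (ha : a < k)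
    (ha' : a' < k) : satAdj k C ((i, a), x) ((i, a'), x') = true ↔ a ≠ a' ∧ x.1 ≠ x'.1 := by
  unfold satAdj
  rw [if_pos rfl, if_pos ha, if_pos ha']
  simp

private theorem adj_lt_k {k : ℕ} {C : List Node} {i a : ℕ} {x x' : ℕ × ℕ} (ha : a < k) :
    satAdj k C ((i, a), x) ((i, k), x') = true ↔
      (x'.1 = i → i ≠ C.length →
        (x'.2 = a + 1 → x.1 = (C.getD i (0, (0, 0))).1) ∧
        (x'.2 = 0 → x.1 ≠ (C.getD i (0, (0, 0))).1)) := by
  unfold satAdj
  rw [if_pos rfl, if_pos ha, if_neg (Nat.lt_irrefl k)]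
  simp only [Bool.and_eq_true, Bool.or_eq_true, decide_eq_true_eq, ne_eq, Bool.not_eq_true',
    decide_eq_false_iff_not]
  tauto

private theorem adj_k {k : ℕ} {C : List Node} {i a : ℕ} {x x' : ℕ × ℕ} :
    ¬ satAdj k C ((i, k), x) ((i, a), x') = true := by
  unfold satAdj
  rw [if_pos rfl, if_neg (Nat.lt_irrefl k)]
  simp

private theorem adj_succ_lt {k : ℕ} {C : List Node} {i a a' : ℕ} {x x' : ℕ × ℕ} (ha : a < k)
    (ha' : a' < k) : satAdj k C ((i, a), x) ((i + 1, a'), x') = true ↔ (a = a' → x.1 = x'.1) := by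
  unfold satAdj
  rw [if_neg (by simp), if_pos rfl, if_pos ha, if_pos ha']
  simp only [Bool.or_eq_true, decide_eq_true_eq, Bool.not_eq_true', decide_eq_false_iff_not]
  tauto

private theorem adj_succ_lt_k {k : ℕ} {C : List Node} {i a : ℕ} {x x' : ℕ × ℕ} (ha : a < k) :
    satAdj k C ((i, a), x) ((i + 1, k), x') = true := by
  unfold satAdj
  rw [if_neg (by simp), if_pos rfl, if_pos ha, if_neg (Nat.lt_irrefl k)]

private theorem adj_succ_k_lt {k : ℕ} {C : List Node} {i a : ℕ} {x x' : ℕ × ℕ} (ha : a < k) :
    satAdj k C ((i, k), x) ((i + 1, a), x') = true := by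
  unfold satAdj
  rw [if_neg (by simp), if_pos rfl, if_neg (Nat.lt_irrefl k), if_pos ha]

private theorem adj_succ_k {k : ℕ} {C : List Node} {i : ℕ} {x x' : ℕ × ℕ} :
    satAdj k C ((i, k), x) ((i + 1, k), x') = true ↔ x'.1 = nextNode C i x.1 x.2 := by
  unfold satAdj
  rw [if_neg (by simp), if_pos rfl, if_neg (Nat.lt_irrefl k), if_neg (Nat.lt_irrefl k)]
  simp

/-- **Soundness.**

Proof.  The numbers `s a = (f 0 a).1`, `a < k`, are `< n` and pairwise different, and
`(f i a).1 = s a` for all `i ≤ L`.  Let `S` be the set of these numbers.  By induction on `i ≤ L`,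
`(f i k).1 = bpos S C i`: at stage `i < L` with `p = i`, if `w ≠ 0` then `w = a + 1` with `a < k` and
`s a` is the variable of the node, so it is in `S`; if `w = 0` then all `s a` are different from the
variable of the node, so it is not in `S`.  Finally `(f L k).1 = L`. -/
theorem sat_sound {n k : ℕ} {C : List Node} {f : ℕ → ℕ → ℕ × ℕ}
    (h1 : ∀ i < C.length + 1, ∀ j < k + 1, ((i, j), f i j) ∈ satLabs n k C)
    (h2 : ∀ i < C.length + 1, ∀ j < k + 1, ∀ j' < k + 1, j ≠ j' →
      satAdj k C ((i, j), f i j) ((i, j'), f i j') = true ∨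
        satAdj k C ((i, j'), f i j') ((i, j), f i j) = true)
    (h3 : ∀ i, i + 1 < C.length + 1 → ∀ j < k + 1, ∀ j' < k + 1,
      satAdj k C ((i, j), f i j) ((i + 1, j'), f (i + 1) j') = true) :
    ∃ S : Finset ℕ, (∀ i ∈ S, i < n) ∧ S.card = k ∧ bpos S C C.length = C.length := by
  have hs : ∀ i ≤ C.length, ∀ a < k, (f i a).1 = (f 0 a).1 := by
    intro i
    induction i with
    | zero => intro _ a _; rfl
    | succ i ih =>
      intro hi a ha
      have h := (adj_succ_lt ha ha).1 (h3 i (by omega) a (by omega) a (by omega)) rfl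
      rw [← h]
      exact ih (by omega) a ha
  have hne : ∀ i ≤ C.length, ∀ a < k, ∀ a' < k, a ≠ a' → (f i a).1 ≠ (f i a').1 := by
    intro i hi a ha a' ha' hne
    rcases h2 i (by omega) a (by omega) a' (by omega) hne with h | h
    · exact ((adj_lt_lt ha ha').1 h).2
    · exact fun he => ((adj_lt_lt ha' ha).1 h).2 he.symm
  refine ⟨(Finset.range k).image fun a => (f 0 a).1, ?_, ?_, ?_⟩
  · intro x hx
    obtain ⟨a, ha, rfl⟩ := Finset.mem_image.1 hx
    have ha' : a < k := Finset.mem_range.1 ha
    exact ((ok_lt ha').1 (mem_satLabs.1 (h1 0 (by omega) a (by omega))).2).1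
  · rw [Finset.card_image_of_injOn, Finset.card_range]
    intro a ha a' ha' he
    by_contra hne'
    exact hne 0 (Nat.zero_le _) a (Finset.mem_range.1 ha) a' (Finset.mem_range.1 ha') hne' he
  · set S : Finset ℕ := (Finset.range k).image fun a => (f 0 a).1 with hS
    have key : ∀ i ≤ C.length, (f i k).1 = bpos S C i := by
      intro i
      induction i with
      | zero =>
        intro _
        exact (ok_k.1 (mem_satLabs.1 (h1 0 (by omega) k (by omega))).2).1 rfl
      | succ i ih =>
        intro hi
        have hi0 : i ≤ C.length := by omega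
        have hp := ih hi0
        have h := adj_succ_k.1 (h3 i (by omega) k (by omega) k (by omega))
        rw [h]
        show nextNode C i (f i k).1 (f i k).2 = bstep S C i (bpos S C i)
        rw [← hp]
        unfold nextNode bstep
        by_cases hpi : (f i k).1 = i
        · rw [if_pos hpi, if_pos hpi]
          have hiL : i ≠ C.length := by omega
          have hadj : ∀ a < k, ((f i k).2 = a + 1 → (f i a).1 = (C.getD i (0, (0, 0))).1) ∧
              ((f i k).2 = 0 → (f i a).1 ≠ (C.getD i (0, (0, 0))).1) := by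
            intro a ha
            rcases h2 i (by omega) a (by omega) k (by omega) (by omega) with h | h
            · exact (adj_lt_k ha).1 h hpi hiL
            · exact absurd h adj_k
          by_cases hw : (f i k).2 = 0
          · rw [if_pos hw, if_neg]
            intro hmem
            obtain ⟨a, ha, he⟩ := Finset.mem_image.1 hmem
            have ha' : a < k := Finset.mem_range.1 ha
            exact (hadj a ha').2 hw ((hs i hi0 a ha').trans he)
          · have hwk : (f i k).2 ≤ k := (mem_satLabs.1 (h1 i (by omega) k (by omega))).1.2.2.2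
            rw [if_neg hw, if_pos]
            have ha' : (f i k).2 - 1 < k := by omega
            refine Finset.mem_image.2 ⟨(f i k).2 - 1, Finset.mem_range.2 ha', ?_⟩
            exact (hs i hi0 _ ha').symm.trans ((hadj _ ha').1 (by omega))
        · rw [if_neg hpi, if_neg hpi]
    have hL := key C.length le_rfl
    rw [← hL]
    exact (ok_k.1 (mem_satLabs.1 (h1 C.length (by omega) k (by omega))).2).2.1 rfl

/-- **Completeness.**

Proof.  Let `s 0, …, s (k-1)` be the elements of `S` (for instance `S.orderEmbOfFin`).  Let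
`f i a = (s a, 0)` for `a < k` and `f i k = (bpos S C i, w i)`, where `w i = a + 1` if `i < L`,
`bpos S C i = i` and the variable of the node `i` is `s a`, and `w i = 0` otherwise.  The numbers
`bpos S C i` are `< L + 2` by induction, from the hypothesis for the targets. -/
theorem sat_complete {n k : ℕ} {C : List Node}
    (hC : ∀ x ∈ C, x.1 < n ∧ x.2.1 < C.length + 2 ∧ x.2.2 < C.length + 2) {S : Finset ℕ}
    (hS : ∀ i ∈ S, i < n) (hk : S.card = k) (h : bpos S C C.length = C.length) :
    ∃ f : ℕ → ℕ → ℕ × ℕ,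
      (∀ i < C.length + 1, ∀ j < k + 1, ((i, j), f i j) ∈ satLabs n k C) ∧
      (∀ i < C.length + 1, ∀ j < k + 1, ∀ j' < k + 1, j ≠ j' →
        satAdj k C ((i, j), f i j) ((i, j'), f i j') = true ∨
          satAdj k C ((i, j'), f i j') ((i, j), f i j) = true) ∧
      ∀ i, i + 1 < C.length + 1 → ∀ j < k + 1, ∀ j' < k + 1,
        satAdj k C ((i, j), f i j) ((i + 1, j'), f (i + 1) j') = true := by
  classical
  have hb : ∀ i, bpos S C i < C.length + 2 := by
    intro i
    induction i with
    | zero => exact Nat.succ_pos _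
    | succ i ih =>
      show bstep S C i (bpos S C i) < C.length + 2
      unfold bstep
      by_cases hi : i < C.length
      · have hm : C.getD i (0, (0, 0)) ∈ C := by
          rw [List.getD_eq_getElem _ _ hi]
          exact List.getElem_mem hi
        split_ifs
        · exact (hC _ hm).2.1
        · exact (hC _ hm).2.2
        · exact ih
      · have hd : C.getD i (0, (0, 0)) = (0, (0, 0)) :=
          List.getD_eq_default _ _ (by omega)
        rw [hd]
        split_ifs
        · exact Nat.succ_pos _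
        · exact Nat.succ_pos _
        · exact ih
  set s : ℕ → ℕ := fun a => if h : a < k then S.orderEmbOfFin hk ⟨a, h⟩ else 0 with hs
  have hsmem : ∀ a < k, s a ∈ S := by
    intro a ha
    simp only [hs, dif_pos ha]
    exact Finset.orderEmbOfFin_mem S hk _
  have hsinj : ∀ a < k, ∀ a' < k, a ≠ a' → s a ≠ s a' := by
    intro a ha a' ha' hne he
    simp only [hs, dif_pos ha, dif_pos ha'] at he
    have := (S.orderEmbOfFin hk).injective he
    exact hne (congrArg Fin.val this)
  have hssurj : ∀ x ∈ S, ∃ a < k, s a = x := by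
    intro x hx
    have hr : x ∈ Set.range (S.orderEmbOfFin hk) := by
      rw [Finset.range_orderEmbOfFin]
      exact hx
    obtain ⟨a, ha⟩ := hr
    refine ⟨a, a.2, ?_⟩
    simp only [hs, dif_pos a.2]
    exact ha
  set w : ℕ → ℕ := fun i =>
    if h : ∃ a, a < k ∧ i < C.length ∧ s a = (C.getD i (0, (0, 0))).1 then Nat.find h + 1
    else 0 with hw
  have hw1 : ∀ i a, w i = a + 1 → a < k ∧ i < C.length ∧ s a = (C.getD i (0, (0, 0))).1 := by
    intro i a h
    simp only [hw] at h
    split_ifs at h with h'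
    have h2 := Nat.find_spec h'
    have h3 : Nat.find h' = a := by omega
    rw [h3] at h2
    exact h2
  have hw0 : ∀ i, w i = 0 → i < C.length → (C.getD i (0, (0, 0))).1 ∉ S := by
    intro i h hi hm
    obtain ⟨a, ha, he⟩ := hssurj _ hm
    simp only [hw] at h
    split_ifs at h with h'
    exact h' ⟨a, ha, hi, he⟩
  set f : ℕ → ℕ → ℕ × ℕ := fun i j => if j < k then (s j, 0) else (bpos S C i, w i) with hf
  have hf1 : ∀ i, ∀ j < k, f i j = (s j, 0) := by
    intro i j hj
    simp only [hf, if_pos hj]
  have hf2 : ∀ i, f i k = (bpos S C i, w i) := by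
    intro i
    simp only [hf, if_neg (Nat.lt_irrefl k)]
  refine ⟨f, ?_, ?_, ?_⟩
  · intro i hi j hj
    rcases Nat.lt_or_ge j k with hjk | hjk
    · rw [hf1 i j hjk]
      have h1 := hS _ (hsmem j hjk)
      exact mem_satLabs.2 ⟨⟨by omega, by omega, by omega, Nat.zero_le _⟩, (ok_lt hjk).2 ⟨h1, rfl⟩⟩
    · have hjk' : j = k := by omega
      subst hjk'
      rw [hf2 i]
      have h1 := hb i
      refine mem_satLabs.2 ⟨⟨by omega, le_rfl, by omega, ?_⟩, ok_k.2 ⟨?_, ?_, ?_⟩⟩
      · rcases Nat.eq_zero_or_pos (w i) with h0 | h0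
        · omega
        · have := (hw1 i (w i - 1) (by omega)).1
          omega
      · intro hi0
        subst hi0
        rfl
      · intro hiL
        subst hiL
        exact h
      · intro hiL
        rcases Nat.eq_zero_or_pos (w i) with h0 | h0
        · exact h0
        · have := (hw1 i (w i - 1) (by omega)).2.1
          omega
  · have hmix : ∀ i < C.length + 1, ∀ a < k, satAdj k C ((i, a), f i a) ((i, k), f i k) = true := by
      intro i hi a ha
      rw [hf1 i a ha, hf2 i, adj_lt_k ha]
      intro _ hiL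
      refine ⟨fun h1 => (hw1 i a h1).2.2, fun h1 h2 => ?_⟩
      have h3 : s a = (C.getD i (0, (0, 0))).1 := h2
      exact hw0 i h1 (by omega) (h3 ▸ hsmem a ha)
    intro i hi j hj j' hj' hne
    rcases Nat.lt_or_ge j k with hjk | hjk
    · rcases Nat.lt_or_ge j' k with hjk' | hjk'
      · left
        rw [hf1 i j hjk, hf1 i j' hjk', adj_lt_lt hjk hjk']
        exact ⟨hne, hsinj j hjk j' hjk' hne⟩
      · left
        have hjk2 : j' = k := by omega
        subst hjk2
        exact hmix i hi j hjk
    · right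
      have hjk2 : j = k := by omega
      subst hjk2
      exact hmix i hi j' (by omega)
  · intro i hi j hj j' hj'
    rcases Nat.lt_or_ge j k with hjk | hjk
    · rcases Nat.lt_or_ge j' k with hjk' | hjk'
      · rw [hf1 i j hjk, hf1 (i + 1) j' hjk', adj_succ_lt hjk hjk']
        intro he
        rw [he]
      · have hjk2 : j' = k := by omega
        subst hjk2
        exact adj_succ_lt_k hjk
    · have hjk2 : j = k := by omega
      subst hjk2
      rcases Nat.lt_or_ge j' j with hjk' | hjk'
      · exact adj_succ_k_lt hjk'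
      · have hjk3 : j' = j := by omega
        subst hjk3
        rw [adj_succ_k, hf2 i, hf2 (i + 1)]
        show bstep S C i (bpos S C i) = nextNode C i (bpos S C i) (w i)
        unfold bstep nextNode
        by_cases hp : bpos S C i = i
        · rw [if_pos hp, if_pos hp]
          rcases Nat.eq_zero_or_pos (w i) with h0 | h0
          · rw [if_pos h0, if_neg (hw0 i h0 (by omega))]
          · have h1 := hw1 i (w i - 1) (by omega)
            have h2 : ¬ w i = 0 := by omega
            have h3 : (C.getD i (0, (0, 0))).1 ∈ S := h1.2.2 ▸ hsmem _ h1.1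
            rw [if_neg h2, if_pos h3]
        · rw [if_neg hp, if_neg hp]

end Pool.Agent.Lib.MP_f25cb6_lc.X
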