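import Pool.Agent.Lib.MP_f25cb6_lc.X.Label
import Pool.Agent.Lib.MP_f25cb6_lc.X.Order

/-!
# The chained graph of a scheduling problem

The jobs are decided one after the other, in the order of their release dates.  The part `V_i`
describes the situation before the decision on job `od J i`: the vertex of colour `a < m` is
`(p, 0)`, where `p - 1` is the last job on machine `a` so far (`p = 0`: there is none), and the
vertex of colour `m` is `(p, c)`, where `p` is the decision on the job `od J i` (`0`: reject it,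
`a + 1`: process it on machine `a`), and `c` is the total weight so far.
-/

namespace Pool.Agent.Lib.MP_f25cb6_lc.X

open MP_634427_lc MP_be4430_lc

/-- the conditions for the labels -/
def okLab (m : ℕ) (J : List Job) (W : ℕ) (l : Lab) : Bool :=
  if l.1.2 < m then
    decide (l.2.2 = 0) && (decide (l.2.1 ≤ J.length) && (decide (l.1.1 ≠ 0) || decide (l.2.1 = 0)))
  else
    (decide (l.1.1 ≠ 0) || decide (l.2.2 = 0)) &&
    (if l.1.1 < J.length then
      decide (l.2.1 = 0) || decide (l.2.1 - 1 ∈ eligible (jb J (od J l.1.1)))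
    else decide (l.2.1 = 0) && decide (W ≤ l.2.2))

/-- the labels; `B` is a bound for the total weight -/
def slabs (m : ℕ) (J : List Job) (B W : ℕ) : List Lab :=
  ((List.range (J.length + 1)).flatMap fun i => (List.range (m + 1)).flatMap fun a =>
    (List.range (J.length + m + 1)).flatMap fun p => (List.range (B + 1)).map fun c =>
      ((i, a), (p, c))).filter (okLab m J W)

/-- the edges; `ws` is the list of the weights -/
def sadj (m : ℕ) (J : List Job) (ws : List ℕ) (l l' : Lab) : Bool :=
  if l.1.1 = l'.1.1 then !decide (l.1.2 = l'.1.2)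
  else if l.1.1 + 1 = l'.1.1 then
    if l.1.2 < m then
      if l'.1.2 < m then
        !decide (l.1.2 = l'.1.2) || (decide (l'.2.1 = l.2.1) ||
          (decide (l'.2.1 = od J l.1.1 + 1) && (decide (l.2.1 = 0) ||
            decide (due (jb J (l.2.1 - 1)) ≤ release (jb J (od J l.1.1))))))
      else true
    else
      if l'.1.2 < m then
        decide (l.2.1 = l'.1.2 + 1) == decide (l'.2.1 = od J l.1.1 + 1)
      else decide (l'.2.2 = l.2.2 + (if l.2.1 = 0 then 0 else ws.getD (od J l.1.1) 0))
  else false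

theorem mem_slabs {m : ℕ} {J : List Job} {B W i a p c : ℕ} : ((i, a), (p, c)) ∈ slabs m J B W ↔
    (i ≤ J.length ∧ a ≤ m ∧ p ≤ J.length + m ∧ c ≤ B) ∧ okLab m J W ((i, a), (p, c)) = true := by
  rw [slabs, List.mem_filter]
  refine and_congr_left fun _ => ?_
  simp only [List.mem_flatMap, List.mem_map, List.mem_range]
  constructor
  · rintro ⟨i', hi, a', ha, p', hp, c', hc, h⟩
    injection h with h1 h2
    injection h1 with h3 h4
    injection h2 with h5 h6
    subst h3 h4 h5 h6
    exact ⟨by omega, by omega, by omega, by omega⟩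
  · rintro ⟨hi, ha, hp, hc⟩
    exact ⟨i, by omega, a, by omega, p, by omega, c, by omega, rfl⟩

theorem slabs_props {m : ℕ} {J : List Job} {B W : ℕ} : ∀ l ∈ slabs m J B W,
    l.1.1 < J.length + 1 ∧ l.1.2 < m + 1 ∧ l.2.1 < J.length + m + 1 := by
  rintro ⟨⟨i, a⟩, ⟨p, c⟩⟩ hl
  obtain ⟨⟨h1, h2, h3, _⟩, _⟩ := mem_slabs.mp hl
  exact ⟨Nat.lt_succ_of_le h1, Nat.lt_succ_of_le h2, Nat.lt_succ_of_le h3⟩

theorem sadj_props {m : ℕ} {J : List Job} {B W : ℕ} (ws : List ℕ) : ∀ l ∈ slabs m J B W,
    ∀ l' ∈ slabs m J B W, sadj m J ws l l' = true →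
      (l.1.1 = l'.1.1 ∧ l.1.2 ≠ l'.1.2) ∨ l.1.1 + 1 = l'.1.1 := by
  intro l _ l' _ h
  unfold sadj at h
  split at h
  · rename_i h1
    left
    refine ⟨h1, ?_⟩
    intro h2
    simp [h2] at h
  · split at h
    · rename_i h1
      exact Or.inr h1
    · exact absurd h (by simp)

end Pool.Agent.Lib.MP_f25cb6_lc.X
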