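import Pool.Agent.Lib.MP_f25cb6_lc.X.SchedChain

/-! # A chained clique gives a schedule -/

namespace Pool.Agent.Lib.MP_f25cb6_lc.X

open MP_634427_lc MP_be4430_lc

/-- The properties of a chained clique in terms of labels, without labels: `q i a` is the last job
on machine `a` plus one (`0`: no job) before the decision on the job `od J i`, `d i` is the decision
on this job, `c i` is the total weight so far. -/
structure IsPlan (m : ℕ) (J : List Job) (W : ℕ) (q : ℕ → ℕ → ℕ) (d c : ℕ → ℕ) : Prop where
  q_zero : ∀ a < m, q 0 a = 0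
  c_zero : c 0 = 0
  elig : ∀ i < J.length, d i ≠ 0 → d i - 1 ∈ eligible (jb J (od J i))
  last : W ≤ c J.length
  step : ∀ i < J.length, ∀ a < m, q (i + 1) a = q i a ∨ (q (i + 1) a = od J i + 1 ∧
    (q i a = 0 ∨ due (jb J (q i a - 1)) ≤ release (jb J (od J i))))
  choose : ∀ i < J.length, ∀ a < m, d i = a + 1 ↔ q (i + 1) a = od J i + 1
  sum : ∀ i < J.length, c (i + 1) = c i + (if d i = 0 then 0 else weight (jb J (od J i)))

/-- (Unfold `okLab` and `sadj`; `ws.getD i 0 = weight (jb J i)` for `i < J.length`.) -/
theorem plan_of_labels {m : ℕ} {J : List Job} {B W : ℕ} {f : ℕ → ℕ → ℕ × ℕ}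
    (h1 : ∀ i < J.length + 1, ∀ j < m + 1, ((i, j), f i j) ∈ slabs m J B W)
    (h2 : ∀ i, i + 1 < J.length + 1 → ∀ j < m + 1, ∀ j' < m + 1,
      sadj m J (J.map weight) ((i, j), f i j) ((i + 1, j'), f (i + 1) j') = true) :
    IsPlan m J W (fun i a => (f i a).1) (fun i => (f i m).1) (fun i => (f i m).2) := by
  have hok : ∀ i < J.length + 1, ∀ j < m + 1, okLab m J W ((i, j), f i j) = true :=
    fun i hi j hj => (mem_slabs.1 (h1 i hi j hj)).2
  constructor
  · intro a ha
    have h := hok 0 (by omega) a (by omega)
    simp only [okLab, ha, if_true] at h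
    simp at h
    exact h.2.2
  · have h := hok 0 (by omega) m (by omega)
    simp only [okLab, lt_irrefl, if_false] at h
    simp at h
    exact h.1
  · intro i hi hd
    have h := hok i (by omega) m (by omega)
    simp only [okLab, lt_irrefl, if_false, hi, if_true, Bool.and_eq_true, Bool.or_eq_true,
      decide_eq_true_eq] at h
    rcases h.2 with h | h
    · exact absurd h hd
    · exact h
  · have h := hok J.length (by omega) m (by omega)
    simp only [okLab, lt_irrefl, if_false, Bool.and_eq_true, Bool.or_eq_true,
      decide_eq_true_eq] at h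
    exact h.2.2
  · intro i hi a ha
    have h := h2 i (by omega) a (by omega) a (by omega)
    have hne : ¬ (i = i + 1) := by omega
    simp only [sadj, hne, if_false, ha, if_true, decide_true, Bool.not_true, Bool.false_or,
      Bool.and_eq_true, Bool.or_eq_true, decide_eq_true_eq] at h
    exact h
  · intro i hi a ha
    have h := h2 i (by omega) m (by omega) a (by omega)
    have hne : ¬ (i = i + 1) := by omega
    simp only [sadj, hne, if_false, ha, if_true, lt_irrefl, beq_iff_eq] at h
    exact decide_eq_decide.1 h
  · intro i hi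
    have h := h2 i (by omega) m (by omega) m (by omega)
    have hne : ¬ (i = i + 1) := by omega
    simp only [sadj, hne, if_false, if_true, lt_irrefl, decide_eq_true_eq] at h
    have hw : (J.map weight).getD (od J i) 0 = weight (jb J (od J i)) := by
      have hl := od_lt J hi
      unfold jb
      rw [List.getD_eq_getElem _ _ (by simpa using hl), List.getD_eq_getElem _ _ hl]
      simp
    rw [hw] at h
    exact h

private theorem schedSound_valid {m : ℕ} {J : List Job} (hv : Valid m J) {t : ℕ} (ht : t < J.length) :
    release (jb J t) < due (jb J t) ∧ ∀ i ∈ eligible (jb J t), i < m := by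
  unfold jb
  rw [List.getD_eq_getElem _ _ ht]
  exact hv _ (List.getElem_mem ht)

/-- The last job of machine `a`: if the job `od J s`, `s < i`, is assigned to `a`, then `q i a ≠ 0`
and the job `q i a - 1` is due not before `od J s`; and `q i a` is `0` or `od J s + 1` for some
`s < i` with `d s = a + 1`.
(Induction on `i`.  In the step: if `d i = a + 1` then `q (i+1) a = od J i + 1`; it is different
from `q i a` by `od_inj`, so `due (q i a - 1) ≤ release (od J i) < due (od J i)`, as `J` is valid.
If `d i ≠ a + 1` then `q (i+1) a ≠ od J i + 1`, so `q (i+1) a = q i a`.) -/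
theorem plan_last {m : ℕ} {J : List Job} {W : ℕ} {q : ℕ → ℕ → ℕ} {d c : ℕ → ℕ}
    (hv : Valid m J) (h : IsPlan m J W q d c) {a : ℕ} (ha : a < m) {i : ℕ} (hi : i ≤ J.length) :
    (∀ s < i, d s = a + 1 → q i a ≠ 0 ∧ due (jb J (od J s)) ≤ due (jb J (q i a - 1))) ∧
      (q i a = 0 ∨ ∃ s < i, d s = a + 1 ∧ q i a = od J s + 1) := by
  induction i with
  | zero => exact ⟨fun s hs => absurd hs (Nat.not_lt_zero s), Or.inl (h.q_zero a ha)⟩
  | succ i ih =>
    obtain ⟨ih1, ih2⟩ := ih (by omega)
    have hi' : i < J.length := by omega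
    by_cases hd : d i = a + 1
    · have hq : q (i + 1) a = od J i + 1 := (h.choose i hi' a ha).1 hd
      have hlt : release (jb J (od J i)) < due (jb J (od J i)) :=
        (schedSound_valid hv (od_lt J hi')).1
      refine ⟨?_, Or.inr ⟨i, by omega, hd, hq⟩⟩
      intro s hs hds
      rw [hq]
      refine ⟨by omega, ?_⟩
      rw [Nat.add_sub_cancel]
      rcases Nat.lt_or_ge s i with hsi | hsi
      · obtain ⟨e1, e2⟩ := ih1 s hsi hds
        have hne : q (i + 1) a ≠ q i a := by
          intro he
          rcases ih2 with h0 | ⟨s', hs', _, hq'⟩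
          · exact e1 h0
          · rw [hq, hq'] at he
            exact absurd (od_inj J hi' (by omega) (Nat.succ_injective he)) (by omega)
        rcases h.step i hi' a ha with h3 | ⟨_, h3 | h3⟩
        · exact absurd h3 hne
        · exact absurd h3 e1
        · exact (e2.trans h3).trans hlt.le
      · have : s = i := by omega
        rw [this]
    · have hq : q (i + 1) a = q i a := by
        rcases h.step i hi' a ha with h3 | ⟨h3, _⟩
        · exact h3
        · exact absurd ((h.choose i hi' a ha).2 h3) hd
      rw [hq]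
      refine ⟨?_, ?_⟩
      · intro s hs hds
        have hsi : s < i := by
          rcases Nat.lt_or_ge s i with hsi | hsi
          · exact hsi
          · exfalso
            have : s = i := by omega
            exact hd (this ▸ hds)
        exact ih1 s hsi hds
      · rcases ih2 with h0 | ⟨s', hs', h3, h4⟩
        · exact Or.inl h0
        · exact Or.inr ⟨s', by omega, h3, h4⟩

/-- Jobs on the same machine do not overlap. -/
theorem plan_disj {m : ℕ} {J : List Job} {W : ℕ} {q : ℕ → ℕ → ℕ} {d c : ℕ → ℕ}
    (hv : Valid m J) (h : IsPlan m J W q d c) {a : ℕ} (ha : a < m) {s i : ℕ} (hs : s < i)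
    (hi : i < J.length) (h1 : d s = a + 1) (h2 : d i = a + 1) :
    due (jb J (od J s)) ≤ release (jb J (od J i)) := by
  obtain ⟨e1, e2⟩ := plan_last hv h ha (le_of_lt hi)
  obtain ⟨f1, f2⟩ := e1 s hs h1
  have hq : q (i + 1) a = od J i + 1 := (h.choose i hi a ha).1 h2
  have hne : q (i + 1) a ≠ q i a := by
    intro he
    rcases e2 with h0 | ⟨s', hs', _, hq'⟩
    · exact f1 h0
    · rw [hq, hq'] at he
      exact absurd (od_inj J hi (by omega) (Nat.succ_injective he)) (by omega)
  rcases h.step i hi a ha with h3 | ⟨_, h3 | h3⟩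
  · exact absurd h3 hne
  · exact absurd h3 f1
  · exact f2.trans h3

/-- The total weight. -/
theorem plan_sum {m : ℕ} {J : List Job} {W : ℕ} {q : ℕ → ℕ → ℕ} {d c : ℕ → ℕ}
    (h : IsPlan m J W q d c) {i : ℕ} (hi : i ≤ J.length) :
    c i = ∑ s ∈ Finset.range i, if d s = 0 then 0 else weight (jb J (od J s)) := by
  induction i with
  | zero => simpa using h.c_zero
  | succ i ih => rw [Finset.sum_range_succ, h.sum i (by omega), ih (by omega)]

/-- **A plan gives a schedule.**  The job `t = od J i` is assigned to the machine `d i - 1` if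
`d i ≠ 0` (it is `< m` since `J` is valid), and rejected if `d i = 0`. -/
theorem exists_schedule_of_plan {m : ℕ} {J : List Job} {W : ℕ} {q : ℕ → ℕ → ℕ} {d c : ℕ → ℕ}
    (hv : Valid m J) (h : IsPlan m J W q d c) :
    ∃ σ : Fin J.length → Option (Fin m), Feasible m J σ ∧ W ≤ value J σ := by
  classical
  choose g hg1 hg2 using fun t : Fin J.length => od_surj J t.2
  have hget : ∀ t : Fin J.length, jb J (od J (g t)) = J.get t := by
    intro t
    rw [hg2]
    unfold jb
    rw [List.getD_eq_getElem _ _ t.2]
    rfl
  have hdm : ∀ t, d (g t) ≠ 0 → d (g t) - 1 < m := fun t ht =>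
    (schedSound_valid hv (od_lt J (hg1 t))).2 _ (h.elig _ (hg1 t) ht)
  let σ : Fin J.length → Option (Fin m) := fun t =>
    if ht : d (g t) ≠ 0 then some ⟨d (g t) - 1, hdm t ht⟩ else none
  have hσ : ∀ t i, σ t = some i → d (g t) = (i : ℕ) + 1 := by
    intro t i hti
    by_cases ht : d (g t) ≠ 0
    · simp only [σ, dif_pos ht, Option.some.injEq] at hti
      rw [← hti]
      show d (g t) = d (g t) - 1 + 1
      omega
    · have h0 : σ t = none := dif_neg ht
      rw [h0] at hti
      exact absurd hti (by simp)
  refine ⟨σ, ⟨?_, ?_⟩, ?_⟩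
  · intro j i hji
    have h1 := hσ j i hji
    have h2 := h.elig (g j) (hg1 j) (by omega)
    rw [h1, hget] at h2
    simpa using h2
  · intro j j' i hne h1 h2
    have e1 := hσ j i h1
    have e2 := hσ j' i h2
    have hgne : g j ≠ g j' := by
      intro he
      apply hne
      apply Fin.ext
      rw [← hg2 j, ← hg2 j', he]
    rw [← hget j, ← hget j']
    rcases lt_or_gt_of_ne hgne with hlt | hlt
    · exact Or.inl (plan_disj hv h i.2 hlt (hg1 j') e1 e2)
    · exact Or.inr (plan_disj hv h i.2 hlt (hg1 j) e2 e1)
  · have hsum := plan_sum h (le_refl J.length)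
    have hW := h.last
    rw [hsum] at hW
    refine hW.trans (le_of_eq ?_)
    unfold value
    rw [Finset.sum_range]
    have hinj : Function.Injective (fun s : Fin J.length => (⟨od J s, od_lt J s.2⟩ : Fin J.length)) := by
      intro s s' hs
      have := congrArg Fin.val hs
      exact Fin.ext (od_inj J s.2 s'.2 this)
    refine Fintype.sum_bijective _ (Finite.injective_iff_bijective.1 hinj) _ _ ?_
    intro s
    have hgs : g ⟨od J s, od_lt J s.2⟩ = s := od_inj J (hg1 _) s.2 (hg2 _)
    have hj : jb J (od J s) = J.get ⟨od J s, od_lt J s.2⟩ := by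
      rw [← hget, hgs]
    by_cases hs : d s = 0
    · have : σ ⟨od J s, od_lt J s.2⟩ = none := by
        simp only [σ]
        rw [dif_neg]
        rw [hgs]
        simpa using hs
      rw [this, if_pos hs]
      simp
    · have hne : d (g ⟨od J s, od_lt J s.2⟩) ≠ 0 := by rwa [hgs]
      have : (σ ⟨od J s, od_lt J s.2⟩).isSome = true := by
        simp only [σ, dif_pos hne, Option.isSome_some]
      rw [this, if_neg hs, hj]
      simp

end Pool.Agent.Lib.MP_f25cb6_lc.X
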