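import Pool.Agent.Lib.MP_f25cb6_lc.X.Value
import Pool.Agent.Lib.MP_f25cb6_lc.X.RunLemmas

/-! # A full schedule gives a run of the program -/

namespace Pool.Agent.Lib.MP_f25cb6_lc.X

open MP_634427_lc MP_be4430_lc

/-- The job that machine `a` processes in phase `p`. -/
theorem exists_job {N m : ℕ} {l : List Instr} (hN : 0 < N) (hl : ∀ ι ∈ l, Wf N m ι)
    {J : List Job} (hJ : J = jobList N m l) (σ : Fin J.length → Option (Fin m))
    (hf : Feasible m J σ) (hc : Covers N m (3 * l.length) J σ) (a : Fin m) {p : ℕ}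
    (hp : p ≤ 3 * l.length) :
    ∃ i, σ i = some a ∧ ∃ j ∈ jobs N m l, J.get i = toJob j ∧ Loc N p j.1.1 j.1.2 ∧
      (a : ℕ) ∈ j.2 := by
  obtain ⟨i, hi, h1, h2⟩ := hc a p hp
  obtain ⟨j, hj, h⟩ := get_mem_jobs hJ i
  obtain ⟨q, hq, hloc⟩ := exists_loc hN hl hj
  have hel := hf.elig i a hi
  rw [h, release_toJob] at h1
  rw [h, due_toJob] at h2
  rw [h, eligible_toJob] at hel
  have hpq : p = q := hloc.slot h1 h2
  subst hpq
  exact ⟨i, hi, j, hj, h, hloc, hel⟩

/-- Jobs of consecutive phases on the same machine are in the right order. -/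
theorem job_order {N m : ℕ} {J : List Job} {σ : Fin J.length → Option (Fin m)}
    (hf : Feasible m J σ) {a : Fin m} {p : ℕ} {i i' : Fin J.length} (hi : σ i = some a)
    (hi' : σ i' = some a) {j j' : RJob} (hj : J.get i = toJob j) (hj' : J.get i' = toJob j')
    (h : Loc N p j.1.1 j.1.2) (h' : Loc N (p + 1) j'.1.1 j'.1.2) : j.1.2 ≤ j'.1.1 := by
  have hne : i ≠ i' := by
    rintro rfl
    rw [hj] at hj'
    have hjj := toJob_injective hj'
    subst hjj
    have := h.unique h'
    omega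
  have hd := hf.disj i i' a hne hi hi'
  rw [hj, hj', release_toJob, release_toJob, due_toJob, due_toJob] at hd
  rcases hd with hd | hd
  · exact hd
  · exfalso
    have h1 := h.2.1
    have h2 := h'.2.2.1
    have h3 : 2 * N * (p + 1) = 2 * N * p + 2 * N := by ring
    rw [h3] at h2
    omega

private theorem mid_le_iff {N m : ℕ} {ι : Instr} (hι : Wf N m ι) {c x y : ℕ} (hr : ¬ Rs ι c) :
    mid N ι c x ≤ mid N ι c y ↔ x ≤ y := by
  have h1 := sh_lt hι c
  unfold mid
  rw [if_neg hr, if_neg hr]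
  omega

/-- **Soundness.**  If in a feasible schedule of the jobs of a program every machine is busy in
each phase, then the program has a run with waiting.

Proof.  For `t < L` and a machine `c` let `s t c` be the state `x` of the job of `c` in phase `3t`
(it is in `jobsA N m (6Nt) l[t]`, hence `j = ((6Nt + x, 6Nt + mid N ι c x), [c])`, where the list
`[c]` contains `a`, so `c = a`), and `s L c` the state of the job of the last phase (in `jobsF`);
`s t c = 0` for `c ≥ m`.  Use `run_of_seq`.  For `LStep N m l[t] (s t) (s (t+1))` choose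
`z c` = the state `x` of the private job of `c` in phase `3t+1` if that job is private, and if it is
the common job `[a, b]`, then `z c = ι.1.2` if `c = ι.1.1`, `z c = ι.2.2` if `c = ι.2.1`.  For the
phases `3t, 3t+1, 3t+2, 3t+3` use `job_order`: if `c` is not reset then
`mid c (s t c) ≤ mid c (z c)` (note `mid c (z c) = 2N` for the common job), `mid c (z c) ≤ mid c x3`
and `x3 ≤ s (t+1) c`, where `x3` is the state of the job in phase `3t+2`; `mid` is strictly
increasing in the state as `sh < N`.  If `ι.1.1 ≠ ι.2.1`, `z ι.1.1 = ι.1.2` and `z ι.2.1 = ι.2.2`,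
then both machines process the common job in phase `3t+1` (a private job has `priv = true`), by
`nodup_jobList` it is the same index `i`, hence `σ i = some a = some b`, a contradiction. -/
theorem exists_run_of_covers {N m : ℕ} {l : List Instr} (hN : 0 < N) (hl : ∀ ι ∈ l, Wf N m ι)
    {J : List Job} (hJ : J = jobList N m l) (σ : Fin J.length → Option (Fin m))
    (hf : Feasible m J σ) (hc : Covers N m (3 * l.length) J σ) :
    ∃ q q' : ℕ → ℕ, (∀ c < m, q c < N) ∧ Run (LStep N m) l q q' := by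
  classical
  have hex : ∀ t c : ℕ, ∃ x : ℕ, ∀ hcm : c < m, t ≤ l.length → x < N ∧
      ∃ i j, σ i = some ⟨c, hcm⟩ ∧ J.get i = toJob j ∧ Loc N (3 * t) j.1.1 j.1.2 ∧
        j.1.1 = 6 * N * t + x ∧ ∀ ht : t < l.length, j.1.2 = 6 * N * t + mid N l[t] c x := by
    intro t c
    by_cases hcm : c < m
    · by_cases ht : t ≤ l.length
      · obtain ⟨i, hi, j, hj, hji, hloc, hmem⟩ :=
          exists_job hN hl hJ σ hf hc ⟨c, hcm⟩ (p := 3 * t) (by omega)
        rcases Nat.lt_or_ge t l.length with ht' | ht'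
        · obtain ⟨c', hc', x, hx, rfl⟩ := mem_jobsA.1 (mem_A_of_loc hN hl hj ht' hloc)
          have hcc : c = c' := by simpa using hmem
          subst hcc
          exact ⟨x, fun _ _ => ⟨hx, i, _, hi, hji, hloc, rfl, fun _ => rfl⟩⟩
        · have htl : t = l.length := le_antisymm ht ht'
          subst htl
          obtain ⟨c', hc', x, hx, rfl⟩ := mem_jobsF.1 (mem_F_of_loc hN hl hj hloc)
          exact ⟨x, fun _ _ => ⟨hx, i, _, hi, hji, hloc, rfl, fun h => absurd h (lt_irrefl _)⟩⟩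
      · exact ⟨0, fun _ h => absurd h ht⟩
    · exact ⟨0, fun h => absurd h hcm⟩
  choose s hs using hex
  refine ⟨s 0, s l.length, fun c hcm => (hs 0 c hcm (Nat.zero_le _)).1, run_of_seq l s ?_⟩
  intro t ht
  obtain ⟨ι, hιeq⟩ : ∃ ι, ι = l[t] := ⟨_, rfl⟩
  have hιm : ι ∈ l := by rw [hιeq]; exact List.getElem_mem _
  have hw : Wf N m ι := hl ι hιm
  rw [← hιeq]
  -- the middle job
  have hz : ∀ c : ℕ, ∃ z : ℕ, ∀ hcm : c < m, ∃ i j, σ i = some ⟨c, hcm⟩ ∧ J.get i = toJob j ∧
      Loc N (3 * t + 1) j.1.1 j.1.2 ∧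
      (¬ Rs ι c → j.1.1 = 6 * N * t + mid N ι c z ∧ j.1.2 = 6 * N * t + mid N ι c z + 2 * N) ∧
      (priv ι c z = true ∨ j = ((6 * N * t + 2 * N, 6 * N * t + 4 * N), [ι.1.1, ι.2.1])) := by
    intro c
    by_cases hcm : c < m
    · obtain ⟨i, hi, j, hj, hji, hloc, hmem⟩ :=
        exists_job hN hl hJ σ hf hc ⟨c, hcm⟩ (p := 3 * t + 1) (by omega)
      have hB := mem_B_of_loc hN hl hj ht hloc
      rw [← hιeq] at hB
      rcases mem_jobsB.1 hB with ⟨c', hc', x, hx, hp, rfl⟩ | ⟨hne, rfl⟩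
      · have hcc : c = c' := by simpa using hmem
        subst hcc
        exact ⟨x, fun _ => ⟨i, _, hi, hji, hloc, fun _ => ⟨rfl, rfl⟩, Or.inl hp⟩⟩
      · have hcc : c = ι.1.1 ∨ c = ι.2.1 := by simpa using hmem
        rcases hcc with hcc | hcc
        · refine ⟨ι.1.2, fun _ => ⟨i, _, hi, hji, hloc, fun hr => ?_, Or.inr rfl⟩⟩
          have h1 : mid N ι c ι.1.2 = 2 * N := by
            unfold mid sh
            rw [if_neg hr, if_pos hcc]
            omega
          rw [h1]
          exact ⟨rfl, by show 6 * N * t + 4 * N = _; omega⟩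
        · refine ⟨ι.2.2, fun _ => ⟨i, _, hi, hji, hloc, fun hr => ?_, Or.inr rfl⟩⟩
          have h0 : ¬ c = ι.1.1 := fun h => hne (h.symm.trans hcc)
          have h1 : mid N ι c ι.2.2 = 2 * N := by
            unfold mid sh
            rw [if_neg hr, if_neg h0, if_pos hcc]
            omega
          rw [h1]
          exact ⟨rfl, by show 6 * N * t + 4 * N = _; omega⟩
    · exact ⟨0, fun h => absurd h hcm⟩
  choose z hz using hz
  refine ⟨z, ?_, ?_, fun c hcm => (hs (t + 1) c hcm ht).1⟩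
  · intro c hcm hr
    obtain ⟨_, i0, j0, hi0, hj0, hl0, hr0, hd0⟩ := hs t c hcm ht.le
    obtain ⟨i1, j1, hi1, hj1, hl1, h1, _⟩ := hz c hcm
    obtain ⟨_, i3, j3, hi3, hj3, hl3, hr3, _⟩ := hs (t + 1) c hcm ht
    obtain ⟨i2, hi2, j2, hj2m, hj2, hl2, hmem2⟩ :=
      exists_job hN hl hJ σ hf hc ⟨c, hcm⟩ (p := 3 * t + 2) (by omega)
    have hC := mem_C_of_loc hN hl hj2m ht hl2
    rw [← hιeq] at hC
    obtain ⟨c', _, x, _, hj2e⟩ := mem_jobsC.1 hC
    have hcc : c = c' := by
      rw [hj2e] at hmem2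
      simpa using hmem2
    subst hcc
    have o1 := job_order hf hi0 hi1 hj0 hj1 hl0 hl1
    have o2 := job_order hf hi1 hi2 hj1 hj2 hl1 hl2
    have o3 := job_order hf hi2 hi3 hj2 hj3 hl2 (by
      have : 3 * t + 2 + 1 = 3 * (t + 1) := by ring
      rw [this]
      exact hl3)
    obtain ⟨h1a, h1b⟩ := h1 hr
    have hd0' := hd0 ht
    rw [← hιeq] at hd0'
    rw [hd0', h1a] at o1
    rw [h1b, hj2e] at o2
    rw [hr3, hj2e] at o3
    have o1' : mid N ι c (s t c) ≤ mid N ι c (z c) := by omega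
    have o2' : mid N ι c (z c) ≤ mid N ι c x := by
      have o2'' : 6 * N * t + mid N ι c (z c) + 2 * N ≤ 6 * N * t + mid N ι c x + 2 * N := o2
      omega
    have o3' : x ≤ s (t + 1) c := by
      have o3'' : 6 * N * t + 6 * N + x ≤ 6 * N * (t + 1) + s (t + 1) c := o3
      have h4 : 6 * N * (t + 1) = 6 * N * t + 6 * N := by ring
      rw [h4] at o3''
      omega
    exact ⟨(mid_le_iff hw hr).1 o1', le_trans ((mid_le_iff hw hr).1 o2') o3'⟩
  · rintro hne ⟨hz1, hz2⟩
    obtain ⟨i, j, hi, hj, _, _, hp⟩ := hz ι.1.1 hw.1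
    obtain ⟨i', j', hi', hj', _, _, hp'⟩ := hz ι.2.1 hw.2.1
    have hnp : ¬ priv ι ι.1.1 (z ι.1.1) = true := by
      rw [hz1]
      simp [priv, hne]
    have hnp' : ¬ priv ι ι.2.1 (z ι.2.1) = true := by
      rw [hz2]
      simp [priv, hne]
    have h1 := hp.resolve_left hnp
    have h2 := hp'.resolve_left hnp'
    have h3 : J.get i = J.get i' := by rw [hj, hj', h1, h2]
    have hnd : J.Nodup := by
      rw [hJ]
      exact nodup_jobList N m l
    have h4 : i = i' := List.nodup_iff_injective_get.1 hnd h3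
    rw [h4, hi'] at hi
    have h5 := Option.some.inj hi
    exact hne (Fin.mk.inj h5).symm

end Pool.Agent.Lib.MP_f25cb6_lc.X
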