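import Pool.Agent.Lib.MP_f25cb6_lc.X.Loc
import Pool.Agent.Lib.MP_f25cb6_lc.X.Count

/-! # The value of a schedule of the jobs of a program -/

namespace Pool.Agent.Lib.MP_f25cb6_lc.X

open MP_634427_lc MP_be4430_lc

/-- Every machine is busy at the time `2Np + N`, for all phases `p ≤ P`. -/
def Covers (N m P : ℕ) (J : List Job) (σ : Fin J.length → Option (Fin m)) : Prop :=
  ∀ a : Fin m, ∀ p ≤ P, ∃ i, σ i = some a ∧ release (J.get i) ≤ 2 * N * p + N ∧
    2 * N * p + N < due (J.get i)

theorem get_mem_jobs {N m : ℕ} {l : List Instr} {J : List Job} (hJ : J = jobList N m l)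
    (i : Fin J.length) : ∃ j ∈ jobs N m l, J.get i = toJob j := by
  subst hJ
  exact mem_jobList.1 (List.get_mem _ _)

/-- A schedule of the jobs of a program has at least `m (3L + 1)` jobs if and only if every machine
is busy in each phase. -/
theorem value_iff_covers {N m : ℕ} {l : List Instr} (hN : 0 < N) (hl : ∀ ι ∈ l, Wf N m ι)
    {J : List Job} (hJ : J = jobList N m l) (σ : Fin J.length → Option (Fin m))
    (hf : Feasible m J σ) :
    m * (3 * l.length + 1) ≤ value J σ ↔ Covers N m (3 * l.length) J σ := by
  classical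
  have hloc : ∀ i : Fin J.length, ∃ p ≤ 3 * l.length,
      Loc N p (release (J.get i)) (due (J.get i)) := by
    intro i
    obtain ⟨j, hj, h⟩ := get_mem_jobs hJ i
    rw [h, release_toJob, due_toJob]
    exact exists_loc hN hl hj
  have hw : ∀ i : Fin J.length, weight (J.get i) = 1 := by
    intro i
    obtain ⟨j, hj, h⟩ := get_mem_jobs hJ i
    rw [h, weight_toJob]
  set U : Finset ℕ := (Finset.range (3 * l.length + 1)).image (fun p => 2 * N * p + N) with hU
  have hinj : Function.Injective (fun p => 2 * N * p + N) := by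
    intro p q h
    simp only [Nat.add_right_cancel_iff] at h
    exact Nat.eq_of_mul_eq_mul_left (by omega) h
  have hcard : U.card = 3 * l.length + 1 := by
    rw [hU, Finset.card_image_of_injective _ hinj, Finset.card_range]
  set S : Fin J.length → Finset ℕ := fun i =>
    U.filter (fun s => release (J.get i) ≤ s ∧ s < due (J.get i)) with hS
  have hcS : ∀ i, (S i).card = 1 := by
    intro i
    obtain ⟨p, hp, h⟩ := hloc i
    rw [Finset.card_eq_one]
    refine ⟨2 * N * p + N, ?_⟩
    ext s
    simp only [hS, hU, Finset.mem_filter, Finset.mem_image, Finset.mem_range,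
      Finset.mem_singleton]
    constructor
    · rintro ⟨⟨q, hq, rfl⟩, h1, h2⟩
      rw [h.slot h1 h2]
    · rintro rfl
      exact ⟨⟨p, by omega, rfl⟩, by have := h.2.1; omega, h.2.2.1⟩
  have key := count_cover (m := m) U S (fun i => Finset.filter_subset _ _) σ (by
    intro i j a hij hi hj
    rw [Finset.disjoint_left]
    intro s hs hs'
    simp only [hS, Finset.mem_filter] at hs hs'
    rcases hf.disj i j a hij hi hj with h | h
    · omega
    · omega)
  have hval : value J σ = ∑ i, (if σ i = none then 0 else (S i).card) := by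
    unfold value
    refine Finset.sum_congr rfl fun i _ => ?_
    rw [hcS, hw]
    cases σ i <;> simp
  rw [hval, ← hcard, key]
  constructor
  · intro h a p hp
    obtain ⟨i, hi, hs⟩ := h a (2 * N * p + N) (by
      rw [hU, Finset.mem_image]
      exact ⟨p, Finset.mem_range.2 (by omega), rfl⟩)
    simp only [hS, Finset.mem_filter] at hs
    exact ⟨i, hi, hs.2⟩
  · intro h a s hs
    have hs' := hs
    rw [hU, Finset.mem_image] at hs
    obtain ⟨p, hp, rfl⟩ := hs
    obtain ⟨i, hi, h1⟩ := h a p (by have := Finset.mem_range.1 hp; omega)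
    refine ⟨i, hi, ?_⟩
    simp only [hS, Finset.mem_filter]
    exact ⟨hs', h1⟩

end Pool.Agent.Lib.MP_f25cb6_lc.X
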